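import Pool.Agent.P.MP_a0f0ad_al.Fi.F.Def2
import Pool.Agent.P.MP_a0f0ad_al.Fi.V.Iface
import Pool.Agent.P.MP_a0f0ad_al.Fi.Z.Bf
import Pool.Agent.P.MP_a0f0ad_al.Fi.Z.Bm
import Pool.Agent.P.MP_a0f0ad_al.Fi.N.Basic

/-! Chapter F: the toolbox for frames of representations. -/

namespace Pool.Agent.P.MP_a0f0ad_al.Fi

open Finset MeasureTheory

variable {d : ℕ} {S : Finset (G d)} {D : LD d} {ρ : RD d} {u : E d} {pa v a : ℝ}

theorem cover_up {f : ℕ → ℝ} {i j : ℕ} {x : ℝ} (hij : i ≤ j) (h1 : f i ≤ x) (h2 : x < f j) :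
    ∃ l, i ≤ l ∧ l < j ∧ f l ≤ x ∧ x < f (l + 1) := by
  induction j, hij using Nat.le_induction with
  | base => exact absurd h1 (not_le.2 h2)
  | succ j hij ih =>
    rcases lt_or_ge x (f j) with c | c
    · obtain ⟨l, a1, a2, a3⟩ := ih c
      exact ⟨l, a1, by omega, a3⟩
    · exact ⟨j, hij, by omega, c, h2⟩

theorem cover_dn {f : ℕ → ℝ} {i j : ℕ} {x : ℝ} (hij : i ≤ j) (h1 : x ≤ f i) (h2 : f j < x) :
    ∃ l, i ≤ l ∧ l < j ∧ x ≤ f l ∧ f (l + 1) < x := by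
  obtain ⟨l, a1, a2, a3, a4⟩ := cover_up (f := fun n => -f n) (x := -x) hij (neg_le_neg h1)
    (neg_lt_neg h2)
  exact ⟨l, a1, a2, neg_le_neg_iff.1 a3, neg_lt_neg_iff.1 a4⟩

theorem RD.mult_eq_two {z : ℝ} : ρ.mult a z = 2 ↔ (ρ.m < z ∧ z < 0) ∨ (a < z ∧ z < ρ.M) := by
  unfold RD.mult
  split_ifs with h <;> simp [h]

theorem RD.mult_cases (ρ : RD d) (a z : ℝ) : ρ.mult a z = 1 ∨ ρ.mult a z = 2 := by
  unfold RD.mult
  split_ifs <;> simp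

theorem ctx_of (hHOM : S_HOM) (hPUB : S_PUB) (d2 : 2 ≤ d) (sp : D.Spec S) (v0 : 0 < v)
    (hN : D.NN u ≤ 1) (nc : Nonconst ρ.q) (opt : ρ.Opt D u pa) (gd : ρ.Good0 D u v) :
    FCx S D ρ u pa v := by
  have h0 : 0 ≤ u.1 := v0.le.trans gd.ha
  have h1 := ((hHOM d S D sp).2.2.1 u ρ.m ρ.M opt.1.1 h0 opt.1.2.1 opt.1.2.2.1).2
  rw [(hPUB d S D sp u ρ h0 opt.1).1, opt.2.1] at h1
  have h2 := sp.win opt.1.1 (h0.trans opt.1.2.1) (by linarith)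
  exact ⟨d2, sp, v0, nc, opt, gd, h2.1, h2.2⟩

namespace FCx

variable (c : FCx S D ρ u pa v)
include c

theorem a_pos : 0 < u.1 := c.v0.trans_le c.gd.ha
theorem m_le : ρ.m ≤ 0 := c.opt.1.1
theorem le_M : u.1 ≤ ρ.M := c.opt.1.2.1
theorem m_lt : ρ.m < ρ.M := c.opt.1.2.2.1
theorem feas : D.Feas ρ.q ρ.m ρ.M := c.opt.1.2.2.2.1

theorem atom {z : ℝ} (hz : z ∈ ρ.Z) :
    ρ.m ≤ z ∧ z ≤ ρ.M ∧ |ev ρ.q 0 z| = D.Q ∧ 0 < ρ.mu z * ev ρ.q 0 z := c.opt.1.2.2.2.2.1 z hz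

theorem abs_le {x : ℝ} (h1 : ρ.m ≤ x) (h2 : x ≤ ρ.M) : |x| + 1 ≤ D.Lam := by
  have := c.wm
  have := c.wM
  have := neg_abs_le ρ.m
  have := le_abs_self ρ.M
  rcases abs_cases x with h | h <;> linarith [h.1]

/-- interior atoms are critical points -/
theorem crit {z : ℝ} (hz : z ∈ ρ.Z) (h1 : ρ.m < z) (h2 : z < ρ.M) : ev ρ.q 1 z = 0 :=
  n_crit c.feas h1 h2 (c.atom hz).2.2.1

theorem crit_of_mult {z : ℝ} (hz : z ∈ ρ.Z) (h : ρ.mult u.1 z = 2) : ev ρ.q 1 z = 0 := by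
  have := c.a_pos
  have := c.m_le
  have := c.le_M
  rcases RD.mult_eq_two.1 h with h | h <;> exact c.crit hz (by linarith [h.1]) (by linarith [h.2])

/-- levels are crossed -/
theorem lev_ne {x : ℝ} (h1 : ρ.m ≤ x) (h2 : x ≤ ρ.M) {l : ℕ} (hl : l < D.n)
    (h : ev ρ.q 0 x = D.th l ∨ -ev ρ.q 0 x = D.th l) : ev ρ.q 1 x ≠ 0 := by
  have hw : ev ρ.q 0 x ∈ D.ThA := Or.inr (Or.inr ⟨l, hl, h.imp id fun e => by linarith⟩)
  have hx := c.abs_le h1 h2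
  rcases c.gd.r2 x (by linarith) _ hw (by simpa using c.v0.le) with k | ⟨z, hz, -, e⟩
  · intro e
    rw [e, abs_zero] at k
    exact absurd k (not_le.2 (pow_pos c.v0 2))
  · have h3 := (c.atom hz.1).2.2.1
    have h4 := c.sp.thQ l hl
    rw [e] at h3
    rcases h with h | h <;> rcases abs_cases (ev ρ.q 0 x) with k | k <;> linarith [k.1, h4.1, h4.2]

/-- a polynomial vanishing on the node data is zero -/
theorem den {f : Fin d → ℝ} (h1 : ∀ x ∈ ρ.lev D u.1, ev f 0 x = 0)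
    (h2 : ∀ z ∈ ρ.Z, ev f 0 z = 0 ∧ (¬ ρ.Pin u.1 z → ev f 1 z = 0)) : f = 0 := by
  have h := c.gd.den f 0 le_rfl (fun x hx => by simp [h1 x hx])
    fun z hz => ⟨by simp [(h2 z hz).1], fun hp => by simp [(h2 z hz).2 hp]⟩
  exact norm_le_zero_iff.1 (le_of_mul_le_mul_left (by simpa using h) c.v0)

/-- the value at a free end without atom -/
theorem abs_m (h : ρ.m < 0) (hz : ρ.m ∉ ρ.Z) : |ev ρ.q 0 ρ.m| = D.Q ∧ D.om D.Q = 0 := by
  obtain ⟨k, k0, -, h1, h2, -⟩ := c.sp.exists_slack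
  have h3 := c.opt.2.2.2.2.2.1 h
  have h4 := c.feas ρ.m ⟨le_rfl, c.m_lt.le⟩
  rw [RD.Dm, RD.muAt, if_neg hz, zero_mul, add_zero] at h3
  have h5 := h1 _ h4
  rw [h3] at h5
  refine ⟨le_antisymm h4 (by nlinarith), le_antisymm (not_lt.1 fun e => ?_) c.sp.om_Q_nonneg⟩
  linarith [h2 e _ h4]

theorem abs_M (h : u.1 < ρ.M) (hz : ρ.M ∉ ρ.Z) : |ev ρ.q 0 ρ.M| = D.Q ∧ D.om D.Q = 0 := by
  obtain ⟨k, k0, -, h1, h2, -⟩ := c.sp.exists_slack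
  have h3 := c.opt.2.2.2.1 h
  have h4 := c.feas ρ.M ⟨c.m_lt.le, le_rfl⟩
  rw [RD.DM, RD.muAt, if_neg hz, zero_mul, sub_zero] at h3
  have h5 := h1 _ h4
  rw [h3] at h5
  refine ⟨le_antisymm h4 (by nlinarith), le_antisymm (not_lt.1 fun e => ?_) c.sp.om_Q_nonneg⟩
  linarith [h2 e _ h4]

end FCx

namespace Frame

variable {F F' F'' : Frame d} {i j i1 i2 : ℕ} {δ : ℤ} {s x : ℝ}

theorem pt_mem (h0 : 0 < s) (h1 : s < 1) (h : F.nu i * ((F.Y i).a : ℝ) ≠ 0) :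
    min (F.pos i) (F.pos (i + 1)) < F.pt i s ∧ F.pt i s < max (F.pos i) (F.pos (i + 1)) := by
  rw [pos_succ, pt, min_lt_iff, lt_max_iff]
  rcases lt_or_gt_of_ne h with h | h
  · exact ⟨Or.inr (by nlinarith), Or.inl (by nlinarith)⟩
  · exact ⟨Or.inl (by nlinarith), Or.inr (by nlinarith)⟩

theorem pt_mem_le (h0 : 0 ≤ s) (h1 : s ≤ 1) :
    min (F.pos i) (F.pos (i + 1)) ≤ F.pt i s ∧ F.pt i s ≤ max (F.pos i) (F.pos (i + 1)) := by
  rw [pos_succ, pt, min_le_iff, le_max_iff]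
  rcases le_total (F.nu i * ((F.Y i).a : ℝ)) 0 with h | h
  · exact ⟨Or.inr (by nlinarith), Or.inl (by nlinarith)⟩
  · exact ⟨Or.inl (by nlinarith), Or.inr (by nlinarith)⟩

theorem exists_pt (h0 : min (F.pos i) (F.pos (i + 1)) < x)
    (h1 : x < max (F.pos i) (F.pos (i + 1))) : ∃ s, 0 < s ∧ s < 1 ∧ F.pt i s = x := by
  rw [pos_succ] at h0 h1
  rcases lt_trichotomy (F.nu i * ((F.Y i).a : ℝ)) 0 with h | h | h
  · rw [min_eq_right (by linarith)] at h0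
    rw [max_eq_left (by linarith)] at h1
    exact ⟨(x - F.pos i) / (F.nu i * (F.Y i).a), div_pos_of_neg_of_neg (by linarith) h,
      (div_lt_one_of_neg h).2 (by linarith), by rw [pt, div_mul_cancel₀ _ h.ne]; ring⟩
  · rw [h, add_zero, min_self] at h0
    rw [h, add_zero, max_self] at h1
    linarith
  · rw [min_eq_left (by linarith)] at h0
    rw [max_eq_right (by linarith)] at h1
    exact ⟨(x - F.pos i) / (F.nu i * (F.Y i).a), div_pos (by linarith) h,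
      (div_lt_one h).2 (by linarith), by rw [pt, div_mul_cancel₀ _ h.ne']; ring⟩

/-- change of variables along an item -/
theorem int_item (F : Frame d) (i : ℕ) (g : ℝ → ℝ) :
    ∫ s in (0 : ℝ)..1, F.nu i * ((F.Y i).a : ℝ) * g (F.pt i s) =
      ∫ x in F.pos i..F.pos (i + 1), g x := by
  have := intervalIntegral.mul_integral_comp_add_mul (f := g) (a := 0) (b := 1)
    (F.nu i * ((F.Y i).a : ℝ)) (F.pos i)
  rw [intervalIntegral.integral_const_mul, pos_succ]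
  simpa only [pt, zero_mul, add_zero, one_mul, mul_comm (F.nu i * ((F.Y i).a : ℝ))] using this

theorem dot_DvI (F : Frame d) (hi : i < F.m) (f : Fin d → ℝ) :
    dot f (F.DvI i) = (F.Y i).b * ev f 0 (F.pos i) + (F.Y i).a * dot f (F.Gam i) ∧
    dot f (F.DvI i) =
      (F.Y i).b * ev f 0 (F.pos (i + 1)) + (F.Y i).a * dot f (F.Gam (i + 1 : ℕ)) := by
  constructor
  · rw [DvI, Dv, dot_add_right, dot_smul_right, dot_smul_right, F.posT_nat hi.le, ev]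
  · rw [← F.Gam_sea hi zero_le_one le_rfl, dot_add_right, dot_smul_right, dot_smul_right, pt_one,
      add_comm, ev, Nat.cast_succ]

theorem dot_Gam_atom (F : Frame d) (hi : i < F.m) (ha : (F.Y i).a = 0) (f : Fin d → ℝ) :
    dot f (F.Gam i) = dot f (F.Gam (i + 1 : ℕ)) + F.nu i * (F.Y i).b * ev f 1 (F.pos i) := by
  have := F.Gam_atom hi ha le_rfl zero_le_one
  rw [add_zero, sub_zero, one_mul] at this
  rw [this, dot_add_right, dot_smul_right, ev]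

theorem Sea.a_eq (h : F.Sea D S ρ i δ) : (F.Y i).a = δ * D.K0 := by
  obtain ⟨k, -, s, s', e, ht, hY, -⟩ := h
  rw [hY, G.pow_a, e.2.2.1, ← ht]
  ring

theorem Sea.a_ne (h : F.Sea D S ρ i δ) (hD : D.Spec S) (hδ : δ = 1 ∨ δ = -1) : (F.Y i).a ≠ 0 := by
  have := hD.K0_pos
  rw [h.a_eq]
  rcases hδ with rfl | rfl <;> omega

/-- the data of a sea -/
theorem Sea.data (h : F.Sea D S ρ i δ) (hD : D.Spec S) (hδ : δ = 1 ∨ δ = -1) (hν : 0 < F.nu i) :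
    ∃ k ≤ D.n, ((F.Y i).b : ℝ) = D.kap k * (F.Y i).a ∧ (F.t i : ℝ) * (D.A k).a = D.K0 ∧
      (∀ s, 0 < s → s < 1 → F.pt i s ∉ ρ.Z ∧ D.idx (δ * ev ρ.q 0 (F.pt i s)) = k ∧
        ∀ l < D.n, δ * ev ρ.q 0 (F.pt i s) ≠ D.th l) ∧
      ∀ s, 0 ≤ s → s ≤ 1 → D.lp (δ * ev ρ.q 0 (F.pt i s)) =
        (((D.A k).a : ℝ))⁻¹ - D.kap k * (δ * ev ρ.q 0 (F.pt i s)) := by
  have ha := h.a_ne hD hδ
  obtain ⟨k, hk, s, s', e, ht, hY, -, hx⟩ := h
  have a0 : ((D.A k).a : ℝ) ≠ 0 := by exact_mod_cast (hD.memA k hk).2.ne'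
  have hx' : ∀ s, 0 < s → s < 1 → F.pt i s ∉ ρ.Z ∧ D.idx (δ * ev ρ.q 0 (F.pt i s)) = k ∧
      ∀ l < D.n, δ * ev ρ.q 0 (F.pt i s) ≠ D.th l := fun s h0 h1 =>
    have := pt_mem h0 h1 (mul_ne_zero hν.ne' (by exact_mod_cast ha))
    hx _ this.1 this.2
  refine ⟨k, hk, ?_, by exact_mod_cast ht, hx', fun s h0 h1 => ?_⟩
  · rw [hY, G.pow_a, G.pow_b, e.2.2.1, e.2.2.2.1, LD.kap]
    push_cast
    field_simp
  · have c1 := hD.continuous_lp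
    have hc : IsClosed {s : ℝ | D.lp (δ * ev ρ.q 0 (F.pt i s)) =
        (((D.A k).a : ℝ))⁻¹ - D.kap k * (δ * ev ρ.q 0 (F.pt i s))} :=
      isClosed_eq (by fun_prop) (by fun_prop)
    refine hc.closure_subset_iff.2 (fun s hs => ?_)
      (show s ∈ closure (Set.Ioo (0 : ℝ) 1) by rw [closure_Ioo zero_ne_one]; exact ⟨h0, h1⟩)
    show D.lp _ = _
    rw [D.lp_eq, LD.kp, (hx' s hs.1 hs.2).2.1]

theorem Atom.pos_succ (h : F.Atom D S ρ a i) : F.pos (i + 1) = F.pos i := by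
  simp [Frame.pos_succ, h.2.1]

namespace Ph

variable (h : F.Ph D S ρ a i1 i2) (hD : D.Spec S)
include h hD

theorem a_up (h1 : i1 ≤ i) (h2 : i < i2) :
    (F.Sea D S ρ i 1 ∧ (F.Y i).a = D.K0 ∧ F.pos i < F.pos (i + 1)) ∨
      (F.Atom D S ρ a i ∧ (F.Y i).a = 0 ∧ F.pos (i + 1) = F.pos i) := by
  refine (h.up i h1 h2).imp (fun k => ⟨k, by rw [k.a_eq, one_mul], ?_⟩) fun k =>
    ⟨k, k.2.1, k.pos_succ⟩
  have := mul_pos (h.nu i (h2.trans_le h.h2m)) (Nat.cast_pos.2 hD.K0_pos : (0 : ℝ) < D.K0)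
  rw [pos_succ, k.a_eq]
  push_cast
  linarith

theorem a_dn (h1 : i < F.m) (h2 : i < i1 ∨ i2 ≤ i) :
    (F.Sea D S ρ i (-1) ∧ (F.Y i).a = -(D.K0 : ℤ) ∧ F.pos (i + 1) < F.pos i) ∨
      (F.Atom D S ρ a i ∧ (F.Y i).a = 0 ∧ F.pos (i + 1) = F.pos i ∧ ρ.mult a (F.pos i) = 2) := by
  refine (h.dn i h1 h2).imp (fun k => ⟨k, by rw [k.a_eq, neg_one_mul], ?_⟩) fun k =>
    ⟨k.1, k.1.2.1, k.1.pos_succ, k.2⟩
  have := mul_pos (h.nu i h1) (Nat.cast_pos.2 hD.K0_pos : (0 : ℝ) < D.K0)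
  rw [pos_succ, k.a_eq]
  push_cast
  linarith

theorem item (h1 : i < F.m) :
    (∃ δ : ℤ, (δ = 1 ∨ δ = -1) ∧ F.Sea D S ρ i δ) ∨ F.Atom D S ρ a i := by
  by_cases k : i < i1 ∨ i2 ≤ i
  · exact (h.a_dn hD h1 k).imp (fun k => ⟨_, Or.inr rfl, k.1⟩) fun k => k.1
  · exact (h.a_up hD (by omega) (by omega)).imp (fun k => ⟨_, Or.inl rfl, k.1⟩) fun k => k.1

theorem atom (h1 : i < F.m) (ha : (F.Y i).a = 0) : F.Atom D S ρ a i :=
  (h.item hD h1).resolve_left fun ⟨_, k1, k2⟩ => k2.a_ne hD k1 ha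

theorem sea (h1 : i < F.m) (ha : (F.Y i).a ≠ 0) : ∃ δ : ℤ, (δ = 1 ∨ δ = -1) ∧ F.Sea D S ρ i δ :=
  (h.item hD h1).resolve_right fun k => ha k.2.1

theorem mono2 (h1 : i1 ≤ i) (hij : i ≤ j) (h2 : j ≤ i2) : F.pos i ≤ F.pos j := by
  induction j, hij using Nat.le_induction with
  | base => exact le_rfl
  | succ j hij ih =>
    refine (ih (by omega)).trans ?_
    rcases h.a_up hD (i := j) (by omega) h2 with k | k
    exacts [k.2.2.le, k.2.2.ge]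

theorem anti1 (hij : i ≤ j) (h2 : j ≤ i1) : F.pos j ≤ F.pos i := by
  induction j, hij using Nat.le_induction with
  | base => exact le_rfl
  | succ j hij ih =>
    refine le_trans ?_ (ih (by omega))
    have := h.h12
    have := h.h2m
    rcases h.a_dn hD (i := j) (by omega) (Or.inl h2) with k | k
    exacts [k.2.2.le, k.2.2.1.le]

theorem anti3 (h1 : i2 ≤ i) (hij : i ≤ j) (h2 : j ≤ F.m) : F.pos j ≤ F.pos i := by
  induction j, hij using Nat.le_induction with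
  | base => exact le_rfl
  | succ j hij ih =>
    refine le_trans ?_ (ih (by omega))
    rcases h.a_dn hD (i := j) h2 (Or.inr (by omega)) with k | k
    exacts [k.2.2.le, k.2.2.1.le]

theorem mem1 (h1 : i ≤ i1) : ρ.m ≤ F.pos i ∧ F.pos i ≤ 0 :=
  ⟨h.p1 ▸ h.anti1 hD h1 le_rfl, F.pos_zero ▸ h.anti1 hD i.zero_le h1⟩

theorem mem2 (h1 : i1 ≤ i) (h2 : i ≤ i2) : ρ.m ≤ F.pos i ∧ F.pos i ≤ ρ.M :=
  ⟨h.p1 ▸ h.mono2 hD le_rfl h1 h2, h.p2 ▸ h.mono2 hD h1 h2 le_rfl⟩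

theorem mem3 (h1 : i2 ≤ i) (h2 : i ≤ F.m) : a ≤ F.pos i ∧ F.pos i ≤ ρ.M :=
  ⟨h.pm ▸ h.anti3 hD h1 h2 le_rfl, h.p2 ▸ h.anti3 hD le_rfl h1 h2⟩

end Ph

namespace Ph

variable (h : F.Ph D S ρ u.1 i1 i2) (c : FCx S D ρ u pa v)
include h c

theorem mem (h1 : i ≤ F.m) : ρ.m ≤ F.pos i ∧ F.pos i ≤ ρ.M := by
  have := c.a_pos
  have := c.m_le
  have := c.le_M
  rcases le_total i i1 with k | k
  · exact ⟨(h.mem1 c.sp k).1, by linarith [(h.mem1 c.sp k).2]⟩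
  · rcases le_total i i2 with k' | k'
    · exact h.mem2 c.sp k k'
    · exact ⟨by linarith [(h.mem3 c.sp k' h1).1], (h.mem3 c.sp k' h1).2⟩

theorem mem_pt (h1 : i < F.m) (h0 : 0 ≤ s) (h2 : s ≤ 1) : ρ.m ≤ F.pt i s ∧ F.pt i s ≤ ρ.M :=
  ⟨(le_min (h.mem c h1.le).1 (h.mem c h1).1).trans (pt_mem_le h0 h2).1,
    (pt_mem_le h0 h2).2.trans (max_le (h.mem c h1.le).2 (h.mem c h1).2)⟩

theorem abs_pos (h1 : i ≤ F.m) : |F.pos i| + 1 ≤ D.Lam := c.abs_le (h.mem c h1).1 (h.mem c h1).2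

theorem lt12 : i1 < i2 :=
  lt_of_le_of_ne h.h12 fun e => c.m_lt.ne (by rw [← h.p1, ← h.p2, e])

theorem m_neg (h1 : 0 < i1) : ρ.m < 0 := by
  rcases h.a_dn c.sp (i := 0) (h1.trans_le (h.h12.trans h.h2m)) (Or.inl h1) with k | k
  · exact ((h.mem1 c.sp (i := 0 + 1) h1).1.trans_lt k.2.2).trans_eq F.pos_zero
  · have := c.a_pos
    rcases RD.mult_eq_two.1 k.2.2.2 with k | k <;> rw [pos_zero] at k <;> linarith [k.1, k.2]

theorem lt_M (h1 : i2 < F.m) : u.1 < ρ.M := by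
  rcases h.a_dn c.sp h1 (Or.inr le_rfl) with k | k
  · exact ((h.mem3 c.sp (i := i2 + 1) (by omega) h1).1.trans_lt k.2.2).trans_eq h.p2
  · have := c.a_pos
    have := c.le_M
    rcases RD.mult_eq_two.1 k.2.2.2 with k | k <;> rw [h.p2] at k <;> linarith [k.1, k.2]

theorem ok : F.OK S D.K0 := by
  intro i hi
  have hS := c.sp.sym
  rcases h.item c.sp hi with ⟨δ, hδ, k⟩ | k
  · have ha := k.a_eq
    obtain ⟨l, -, s, s', e, -, hY, hY', -⟩ := k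
    have hl : ∀ r ∈ S, len S (r ^ F.t i) ≤ F.t i := fun r hr =>
      (hS.len_pow r _).trans (by simpa using Nat.mul_le_mul_left (F.t i) (len_mem hr))
    refine ⟨h.nu i hi, hY ▸ hl s e.1, hY' ▸ hl s' e.2.1, ?_, ?_, ?_, Or.inr ?_⟩
    · rw [hY, hY', G.pow_a, G.pow_a, e.2.2.1, e.2.2.2.2.1]
    · rw [hY, hY', G.pow_b, G.pow_b, e.2.2.2.1, e.2.2.2.2.2.1]
    · rw [hY, hY', G.pow_ct c.d2, G.pow_ct c.d2]
      exact mul_le_mul_of_nonneg_left (e.2.2.2.2.2.2 s e.1 e.2.2.1 e.2.2.2.1).2 (Nat.cast_nonneg _)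
    · rcases hδ with rfl | rfl
      exacts [Or.inl (by rw [ha, one_mul]), Or.inr (by rw [ha, neg_one_mul])]
  · obtain ⟨k1, k2, k3, -, k5, k6⟩ := k
    have hb : (F.Y i).b ≠ 0 := fun e => by
      have := (c.atom k1).2.2.2
      rw [← k3, e] at this
      simp at this
    rcases c.sp.om_Q_nonneg.lt_or_eq with e | e
    · obtain ⟨e1, e2⟩ := k5 e
      exact ⟨h.nu i hi, e1 ▸ len_mem e2.1, e1 ▸ len_mem e2.2.1, e2.2.2.2.2.1.trans k2.symm,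
        e2.2.2.2.2.2.1, (e2.2.2.2.2.2.2 _ e2.1 k2 rfl).2, Or.inl ⟨k2, hb⟩⟩
    · obtain ⟨e1, P, M, tp, tm, e2, -, -, e3, e4, e5⟩ := k6 e.symm
      have : len S (F.Y i) ≤ F.t i := by
        rw [e2, ← e5]
        exact (hS.len_mul P M).trans (add_le_add e3 e4)
      exact ⟨h.nu i hi, this, e1 ▸ this, by rw [e1], by rw [e1], by rw [e1], Or.inl ⟨k2, hb⟩⟩

end Ph

theorem Pre.refl (F : Frame d) : F.Pre F := ⟨le_rfl, fun _ _ => ⟨rfl, rfl, rfl, rfl⟩⟩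

theorem Pre.trans (h : F.Pre F') (h' : F'.Pre F'') : F.Pre F'' :=
  ⟨h.1.trans h'.1, fun i hi =>
    have a := h.2 i hi
    have b := h'.2 i (hi.trans_le h.1)
    ⟨b.1.trans a.1, b.2.1.trans a.2.1, b.2.2.1.trans a.2.2.1, b.2.2.2.trans a.2.2.2⟩⟩

theorem Pre.pos (h : F.Pre F') (hi : i ≤ F.m) : F'.pos i = F.pos i :=
  sum_congr rfl fun l hl => by
    have := h.2 l ((mem_range.1 hl).trans_le hi)
    rw [this.1, this.2.2.2]

theorem Pre.sea (h : F.Pre F') (hi : i < F.m) (k : F.Sea D S ρ i δ) : F'.Sea D S ρ i δ := by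
  obtain ⟨a1, a2, a3, -⟩ := h.2 i hi
  unfold Sea
  rwa [a1, a2, a3, h.pos hi.le, h.pos hi]

theorem Pre.atom (h : F.Pre F') (hi : i < F.m) (k : F.Atom D S ρ a i) : F'.Atom D S ρ a i := by
  obtain ⟨a1, a2, a3, a4⟩ := h.2 i hi
  unfold Atom FreeE
  rwa [a1, a2, a3, a4, h.pos hi.le]

variable (F) (Y Yh : G d) (t : ℕ) (ν : ℝ)

@[simp] theorem snoc_m : (F.snoc Y Yh t ν).m = F.m + 1 := rfl
@[simp] theorem snoc_Y : (F.snoc Y Yh t ν).Y F.m = Y := Function.update_self ..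
@[simp] theorem snoc_Yh : (F.snoc Y Yh t ν).Yh F.m = Yh := Function.update_self ..
@[simp] theorem snoc_t : (F.snoc Y Yh t ν).t F.m = t := Function.update_self ..
@[simp] theorem snoc_nu : (F.snoc Y Yh t ν).nu F.m = ν := Function.update_self ..

theorem pre_snoc : F.Pre (F.snoc Y Yh t ν) :=
  ⟨Nat.le_succ _, fun _ hi => ⟨Function.update_of_ne hi.ne .., Function.update_of_ne hi.ne ..,
    Function.update_of_ne hi.ne .., Function.update_of_ne hi.ne ..⟩⟩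

@[simp] theorem snoc_pos : (F.snoc Y Yh t ν).pos F.m = F.pos F.m :=
  (F.pre_snoc Y Yh t ν).pos le_rfl

@[simp] theorem snoc_pos_succ : (F.snoc Y Yh t ν).pos (F.m + 1) = F.pos F.m + ν * (Y.a : ℝ) := by
  rw [pos_succ, snoc_pos, snoc_nu, snoc_Y]

variable {F} in
theorem Ch.snoc (h : F.Ch) (h1 : ∀ i, i + 1 = F.m → ((F.Y i).a = 0 → Y.a ≠ 0) ∧
    ((F.Y i).a ≠ 0 → Y.a = (F.Y i).a → Y.b ≠ (F.Y i).b)) : (F.snoc Y Yh t ν).Ch := by
  intro i hi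
  have p := (F.pre_snoc Y Yh t ν).2
  rcases Nat.lt_succ_iff_lt_or_eq.1 hi with k | k
  · rw [(p i (by omega)).1, (p _ k).1]
    exact h i k
  · rw [(p i (by omega)).1, k, snoc_Y]
    exact h1 i k

end Frame

end Pool.Agent.P.MP_a0f0ad_al.Fi
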