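import Pool.Agent.P.MP_a0f0ad_al.Fi.F.Def2

/-! Chapter F: the steps. -/

namespace Pool.Agent.P.MP_a0f0ad_al.Fi

open Finset MeasureTheory

-- deps:
-- imports: Pool.Agent.P.MP_a0f0ad_al.Fi.Z.Bp Pool.Agent.P.MP_a0f0ad_al.Fi.Z.Bg
/-- moving points on the moment curve cover a ball of the hyperplane -/
def S_FCOV : Prop :=
  ∀ (d : ℕ) (L B : ℝ), ∃ C : ℝ, 1 ≤ C ∧ ∀ (r : ℕ) (c ξ : ℕ → ℝ) (N ε : ℝ), (r : ℝ) ≤ B → 1 ≤ N →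
    0 ≤ ε → C * N * ε ≤ 1 → (∀ l < r, |ξ l| ≤ L ∧ 1 ≤ B * |c l| ∧ |c l| ≤ B) →
    (∀ (f : Fin d → ℝ) (e : ℝ), 0 ≤ e → (∀ l < r, |ev f 1 (ξ l)| ≤ e) →
      ∀ j : Fin d, 1 ≤ (j : ℕ) → |f j| ≤ N * e) →
    ∀ e : Fin d → ℝ, co e 0 = 0 → C * N * ‖e‖ ≤ ε → ∃ x : ℕ → ℝ, (∀ l < r, |x l - ξ l| ≤ ε) ∧
      ∑ l ∈ range r, c l • (Vd 0 (x l) - Vd 0 (ξ l) : Fin d → ℝ) = e

-- deps: FCOV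
-- imports: Pool.Agent.P.MP_a0f0ad_al.Fi.Z.Bf Pool.Agent.P.MP_a0f0ad_al.Fi.N.Basic
/-- movable units near the junctions of a frame -/
def S_FHB : Prop :=
  ∀ (d K : ℕ) (L B : ℝ), 0 < K → ∃ C : ℝ, 1 ≤ C ∧ ∀ (F : Frame d) (v η : ℝ), 0 < η →
    C * η ≤ v → v ≤ 1 → (F.m : ℝ) ≤ B → (∀ i ≤ F.m, |F.pos i| ≤ L) →
    (∀ i < F.m, |((F.Y i).a : ℝ)| ≤ B ∧ |((F.Y i).b : ℝ)| ≤ B ∧
      ((F.Y i).a ≠ 0 → 3 * η ≤ |F.nu i * ((F.Y i).a : ℝ)|)) →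
    (∀ j, 1 ≤ j → j < F.m → F.om j ≠ 0) →
    (∀ (f : Fin d → ℝ) (e : ℝ), 0 ≤ e → (∀ j, 1 ≤ j → j < F.m →
      |ev f 0 (F.pos j)| ≤ e ∧ |ev f 1 (F.pos j)| ≤ e) → v * ‖f‖ ≤ e) →
    ∃ β : Fin d → ℝ, F.HasB K β ((v * η) ^ 2 / C) ∧ ‖β‖ ≤ C * η

-- deps:
-- imports: Pool.Agent.P.MP_a0f0ad_al.Fi.Z.Bf
/-- uniform bounds for blocks and their effects -/
def S_FBD : Prop :=
  ∀ (d : ℕ) (S : Finset (G d)) (C0 L : ℝ), Sym S → ∃ (YY : Finset (G d)) (C : ℝ), C0 ≤ C ∧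
    (∀ g : G d, (len S g : ℝ) ≤ C0 → g ∈ YY ∧ |(g.a : ℝ)| ≤ C ∧ |(g.b : ℝ)| ≤ C) ∧
    ∀ (F : Frame d) (K0 : ℕ), F.OK S K0 → (∀ i < F.m, (F.t i : ℝ) ≤ C0) →
      (∀ i ≤ F.m, |F.pos i| ≤ L) → ∑ i ∈ range F.m, F.nu i * (F.t i : ℝ) ≤ 1 →
      ∀ i < F.m, ‖F.DvI i‖ ≤ C

-- deps:
-- imports: Pool.Agent.P.MP_a0f0ad_al.Fi.Z.Bl
/-- the blocks of seas and atoms -/
def S_FBLK : Prop :=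
  ∀ (d : ℕ) (S : Finset (G d)) (D : LD d), D.Spec S →
    (∀ k ≤ D.n, ∀ δ : ℤ, δ = 1 ∨ δ = -1 → ∃ (s s' : G d) (t : ℕ),
      Ext S s s' (δ * (D.A k).a) (δ * (D.A k).b) ∧ (t : ℤ) * (D.A k).a = D.K0 ∧ t ≤ D.K0) ∧
    ∀ w : ℝ, |w| = D.Q → ∃ (Y Yh : G d) (t : ℕ), Y.a = 0 ∧ (t : ℝ) = (Y.b : ℝ) * w ∧ 0 < t ∧
      t ≤ 2 * D.K0 ∧ (0 < D.om D.Q → t = 1 ∧ Ext S Y Yh 0 Y.b) ∧
      (D.om D.Q = 0 → Yh = Y ∧ ∃ (P M : G d) (tp tm : ℕ), Y = P * M ∧ P.a = D.K0 ∧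
        M.a = -(D.K0 : ℤ) ∧ len S P ≤ tp ∧ len S M ≤ tm ∧ tp + tm = t)

-- deps:
-- imports: Pool.Agent.P.MP_a0f0ad_al.Fi.F.Basic
/-- the junctions of a frame -/
def S_FJUN : Prop :=
  ∀ (d : ℕ) (S : Finset (G d)) (D : LD d) (ρ : RD d) (u : E d) (pa v : ℝ) (F : Frame d)
    (i1 i2 : ℕ), FCx S D ρ u pa v → F.Ph D S ρ u.1 i1 i2 → ∀ j, 1 ≤ j → j < F.m →
    F.om j ≠ 0 ∧ ev ρ.q 0 (F.pos j) ∈ D.ThA ∧ (F.om j : ℝ) * ev ρ.q 1 (F.pos j) ≤ 0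

-- deps:
-- imports: Pool.Agent.P.MP_a0f0ad_al.Fi.F.Basic
/-- the nodes are junctions -/
def S_FNODE : Prop :=
  ∀ (d : ℕ) (S : Finset (G d)) (D : LD d) (ρ : RD d) (u : E d) (pa v : ℝ) (F : Frame d)
    (i1 i2 : ℕ), FCx S D ρ u pa v → F.Ph D S ρ u.1 i1 i2 →
    (∀ x, x ∈ ρ.lev D u.1 ∨ x ∈ ρ.Z → ∃ j, 1 ≤ j ∧ j < F.m ∧ F.pos j = x) ∧
    ∀ z ∈ ρ.Z, ¬ ρ.Pin u.1 z → ∃ i, 1 ≤ i ∧ i + 1 < F.m ∧ F.Atom D S ρ u.1 i ∧ F.pos i = z ∧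
      (ev ρ.q 1 z = 0 → F.Free S D.K0 i)

-- deps: FJUN
-- imports: Pool.Agent.P.MP_a0f0ad_al.Fi.F.Basic
/-- the seas are long -/
def S_FLEN : Prop :=
  ∀ (d : ℕ) (S : Finset (G d)) (D : LD d), D.Spec S → ∃ c : ℝ, 0 < c ∧
    ∀ (ρ : RD d) (u : E d) (pa v : ℝ) (F : Frame d) (i1 i2 : ℕ), FCx S D ρ u pa v → v ≤ 1 →
      F.Ph D S ρ u.1 i1 i2 → ∀ i < F.m, (F.Y i).a ≠ 0 → c * v ^ 2 ≤ |F.nu i * ((F.Y i).a : ℝ)|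

-- deps:
-- imports: Pool.Agent.P.MP_a0f0ad_al.Fi.F.Basic
/-- sums over the atoms -/
def S_FATM : Prop :=
  ∀ (d : ℕ) (S : Finset (G d)) (D : LD d) (ρ : RD d) (u : E d) (pa v : ℝ) (F : Frame d)
    (i1 i2 : ℕ), FCx S D ρ u pa v → F.Ph D S ρ u.1 i1 i2 → ∀ φ : ℝ → ℝ,
    (∑ i ∈ Ico i1 i2, if (F.Y i).a = 0 then F.nu i * ((F.Y i).b : ℝ) * φ (F.pos i) else 0) =
      ∑ z ∈ ρ.Z, ρ.mu z / ρ.mult u.1 z * φ z ∧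
    (∑ i ∈ range F.m, if (F.Y i).a = 0 then F.nu i * ((F.Y i).b : ℝ) * φ (F.pos i) else 0) =
      ∑ z ∈ ρ.Z, ρ.mu z * φ z

-- deps: FATM
-- imports: Pool.Agent.P.MP_a0f0ad_al.Fi.F.Basic
/-- end point and cost of the frame -/
def S_FINT : Prop :=
  ∀ (d : ℕ) (S : Finset (G d)) (D : LD d) (ρ : RD d) (u : E d) (pa v : ℝ) (F : Frame d)
    (i1 i2 : ℕ), FCx S D ρ u pa v → F.Ph D S ρ u.1 i1 i2 →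
    F.yF = u.2 ∧ ∑ i ∈ range F.m, F.nu i * (F.t i : ℝ) = D.NN u

-- deps: FATM
-- imports: Pool.Agent.P.MP_a0f0ad_al.Fi.F.Basic
/-- zero slack -/
def S_FZS : Prop :=
  ∀ (d : ℕ) (S : Finset (G d)) (D : LD d) (ρ : RD d) (u : E d) (pa v : ℝ) (F : Frame d)
    (i1 i2 : ℕ), FCx S D ρ u pa v → F.Ph D S ρ u.1 i1 i2 → F.ZS ρ.q pa

-- deps: FBLK
-- imports: Pool.Agent.P.MP_a0f0ad_al.Fi.F.Basic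
/-- one monotone pass -/
def S_FEXT : Prop :=
  ∀ (d : ℕ) (S : Finset (G d)) (D : LD d) (ρ : RD d) (u : E d) (pa v : ℝ), FCx S D ρ u pa v →
    ∀ (δ : ℤ) (W : Set ℝ) (F0 : Frame d) (x0 x1 : ℝ), δ = 1 ∨ δ = -1 → F0.Ch →
      F0.pos F0.m = x0 → ρ.m ≤ x0 → x0 ≤ ρ.M → ρ.m ≤ x1 → x1 ≤ ρ.M → δ * x0 ≤ δ * x1 →
      (∀ z ∈ W, z ∈ ρ.Z) → (∀ z ∈ ρ.Z, δ * x0 < δ * z → δ * z < δ * x1 → z ∈ W) →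
      (∀ i, i + 1 = F0.m → (F0.Y i).a ≠ δ * D.K0 ∧ ((F0.Y i).a = 0 → x0 ∉ W)) →
      ∃ F : Frame d, F0.Pre F ∧ F.Ch ∧ F.pos F.m = x1 ∧ F.m ≤ F0.m + (2 * (D.n + 2) * d + 3) ∧
        (∀ i, F0.m ≤ i → i < F.m → 0 < F.nu i ∧ F.t i ≤ 2 * D.K0 ∧
          (F.Sea D S ρ i δ ∨ (F.Atom D S ρ u.1 i ∧ F.pos i ∈ W))) ∧
        ∀ z ∈ W, δ * x0 ≤ δ * z → δ * z ≤ δ * x1 →
          ∃ i, F0.m ≤ i ∧ i < F.m ∧ (F.Y i).a = 0 ∧ F.pos i = z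

-- deps: FEXT
-- imports: Pool.Agent.P.MP_a0f0ad_al.Fi.F.Basic
/-- the frame exists -/
def S_FEX : Prop :=
  ∀ (d : ℕ) (S : Finset (G d)) (D : LD d) (ρ : RD d) (u : E d) (pa v : ℝ), FCx S D ρ u pa v →
    ∃ (F : Frame d) (i1 i2 : ℕ), F.Ph D S ρ u.1 i1 i2 ∧ F.m ≤ 3 * (2 * (D.n + 2) * d + 3) ∧
      ∀ i < F.m, F.t i ≤ 2 * D.K0

-- deps: FJUN FNODE
-- imports: Pool.Agent.P.MP_a0f0ad_al.Fi.F.Basic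
/-- rank three and a costly direction -/
def S_FRK : Prop :=
  ∀ (d : ℕ) (S : Finset (G d)) (D : LD d) (ρ : RD d) (u : E d) (pa v : ℝ) (F : Frame d)
    (i1 i2 : ℕ), FCx S D ρ u pa v → F.Ph D S ρ u.1 i1 i2 →
    (F.ZS ρ.q pa → F.Rk) ∧ ∃ e ∈ F.Cone S D.K0, dot ρ.q e < 0

-- deps: KRON FJUN FNODE
-- imports: Pool.Agent.P.MP_a0f0ad_al.Fi.F.Basic
/-- density of the kernel lattice -/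
def S_FKD : Prop :=
  ∀ (d : ℕ) (S : Finset (G d)) (D : LD d) (ρ : RD d) (u : E d) (pa v : ℝ) (F : Frame d)
    (i1 i2 : ℕ), FCx S D ρ u pa v → F.Ph D S ρ u.1 i1 i2 → F.ZS ρ.q pa → F.Rk → ρ.NR D u.1 →
    ∀ e : Fin d → ℝ, co e 0 = 0 → dot ρ.q e = 0 → ∀ ε : ℝ, 0 < ε →
      ∃ (k : ℕ → ℤ) (α : ℕ → ℝ), ∑ i ∈ range F.m, k i * (F.Y i).a = 0 ∧
        ∑ i ∈ range F.m, k i * (F.Y i).b = 0 ∧ ∑ i ∈ range F.m, k i * (F.t i : ℤ) = 0 ∧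
        (∀ i, ¬ F.Free S D.K0 i → α i = 0) ∧
        ‖∑ i ∈ range F.m, ((k i : ℝ) • F.DvI i + α i • Vd 1 (F.pos i)) - e‖ ≤ ε

end Pool.Agent.P.MP_a0f0ad_al.Fi
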