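import Pool.Agent.P.MP_a0f0ad_al.Fi.F.Iface
import Pool.Agent.P.MP_a0f0ad_al.Fi.V.Iface
import Pool.Agent.P.MP_a0f0ad_al.Fi.F.Iface2
import Pool.Agent.P.MP_a0f0ad_al.Fi.F.Basic

/-! Step BIAS of the filiform project. -/

namespace Pool.Agent.P.MP_a0f0ad_al.Fi

open Finset MeasureTheory

theorem p_BIAS (hHOM : S_HOM) (hPUB : S_PUB) (hFHB : S_FHB) (hFLEN : S_FLEN) (hFJUN : S_FJUN) (hFNODE : S_FNODE) (hFBD : S_FBD) :
    S_BIAS := by
  refine ⟨4, by norm_num, fun d S D K C0 d2 sp hK => ?_⟩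
  obtain ⟨YY, B, hB, h1, -⟩ := hFBD d S C0 D.Lam sp.sym
  obtain ⟨C1, c1, h2⟩ := hFHB d K D.Lam B hK
  obtain ⟨c0, c0p, h3⟩ := hFLEN d S D sp
  have d1 : (1 : ℝ) ≤ d := by exact_mod_cast (by omega : 1 ≤ d)
  have hE : 1 ≤ (d : ℝ) * C1 := one_le_mul_of_one_le_of_one_le d1 c1
  have hE2 : 1 ≤ (d : ℝ) * C1 * C1 := one_le_mul_of_one_le_of_one_le hE c1
  have h3c : 0 < 3 / c0 := by positivity
  refine ⟨d * C1 * C1 + 3 / c0, by linarith, fun v η pa u ρ F v0 v1 η0 hη hN nc opt gd fr hm ht => ?_⟩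
  have c := ctx_of hHOM hPUB d2 sp v0 hN nc opt gd
  obtain ⟨i1, i2, h⟩ := Frame.FR_iff.1 fr
  have ok := h.ok c
  have v4 : v ^ 4 ≤ v := pow_le_of_le_one v0.le v1 (by norm_num)
  have k1 : d * C1 * C1 * η ≤ v ^ 4 := by nlinarith [mul_pos h3c η0]
  have k2 : 3 * η ≤ c0 * v := by
    have : 3 / c0 * η ≤ v := by nlinarith [mul_pos (zero_lt_one.trans_le hE2) η0]
    rw [div_mul_eq_mul_div, div_le_iff₀ c0p] at this
    linarith
  have η1 : η ≤ 1 := by nlinarith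
  obtain ⟨ζ, ζ0, hζ⟩ : ∃ ζ : ℝ, 0 < ζ ∧ d * C1 * ζ = η * v :=
    ⟨η * v / (d * C1), by positivity, by field_simp⟩
  have k3 : C1 * ζ ≤ η * v := by nlinarith [mul_pos (zero_lt_one.trans_le c1) ζ0]
  have k4 : ζ ≤ η * v := by nlinarith
  have hn := (hFNODE d S D ρ u pa v F i1 i2 c h).1
  obtain ⟨β, ⟨r, it, lo, hi, b1, b2⟩, b3⟩ := h2 F v ζ ζ0 (by nlinarith) v1 (hm.trans hB)
    (fun i hi => by linarith [h.abs_pos c hi])
    (fun i hi => by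
      have := (h1 _ (le_trans (by exact_mod_cast (ok i hi).2.1) (ht i hi))).2
      refine ⟨this.1, this.2, fun ha => le_trans ?_ (h3 ρ u pa v F i1 i2 c v1 h i hi ha)⟩
      nlinarith)
    (fun j a1 a2 => (hFJUN d S D ρ u pa v F i1 i2 c h j a1 a2).1)
    (fun f e he hf => gd.den f e he
      (fun x hx => by
        obtain ⟨j, a1, a2, rfl⟩ := hn x (Or.inl hx)
        exact (hf j a1 a2).1)
      fun z hz => by
        obtain ⟨j, a1, a2, rfl⟩ := hn z (Or.inr hz)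
        exact ⟨(hf j a1 a2).1, fun _ => (hf j a1 a2).2⟩)
  refine ⟨β, ⟨r, it, lo, hi, b1, fun e e0 he => b2 e e0 (he.trans ?_)⟩, ?_, by nlinarith⟩
  · rw [le_div_iff₀ (by linarith)]
    have k5 : d * C1 * C1 * η ≤ 1 := by linarith
    refine le_of_mul_le_mul_left ?_ (pow_pos (zero_lt_one.trans_le hE) 2)
    have e1 : (d * C1) ^ 2 * (v * ζ) ^ 2 = η ^ 2 * v ^ 4 := by
      rw [← mul_pow, mul_left_comm, hζ]
      ring
    have e2 : (d * C1 * C1 * η) * (d * C1 * C1 * η) ≤ v ^ 4 * 1 :=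
      mul_le_mul k1 k5 (by positivity) (by positivity)
    have e3 : (d * C1) ^ 2 * (η ^ 2 * C1) ≤ (d * C1 * C1 * η) * (d * C1 * C1 * η) := by
      have : 0 ≤ (d * C1) ^ 2 * (η ^ 2 * C1) := by positivity
      nlinarith
    rw [e1]
    nlinarith [mul_le_mul_of_nonneg_left (e3.trans e2) (sq_nonneg η)]
  · have e1 := (neg_le_abs _).trans (abs_dot_le ρ.q β)
    refine le_of_mul_le_mul_left ?_ v0
    have e2 : d * (v * ‖ρ.q‖) * ‖β‖ ≤ d * 1 * (C1 * ζ) := by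
      have := gd.hq
      gcongr
    nlinarith [mul_le_mul_of_nonneg_left e1 v0.le]

end Pool.Agent.P.MP_a0f0ad_al.Fi
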