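import Pool.Agent.P.MP_a0f0ad_al.Fi.F.Iface

/-! Chapter F: unpacked forms of the hypotheses. -/

namespace Pool.Agent.P.MP_a0f0ad_al.Fi

open Finset MeasureTheory

variable {d : ℕ}

/-- the standing hypotheses on a representation -/
structure FCx (S : Finset (G d)) (D : LD d) (ρ : RD d) (u : E d) (pa v : ℝ) : Prop where
  d2 : 2 ≤ d
  sp : D.Spec S
  v0 : 0 < v
  nc : Nonconst ρ.q
  opt : ρ.Opt D u pa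
  gd : ρ.Good0 D u v
  wm : |ρ.m| + 1 ≤ D.Lam
  wM : |ρ.M| + 1 ≤ D.Lam

namespace Frame

/-- the unpacked form of `FR` -/
structure Ph (F : Frame d) (D : LD d) (S : Finset (G d)) (ρ : RD d) (a : ℝ) (i1 i2 : ℕ) :
    Prop where
  h12 : i1 ≤ i2
  h2m : i2 ≤ F.m
  p1 : F.pos i1 = ρ.m
  p2 : F.pos i2 = ρ.M
  pm : F.pos F.m = a
  nu : ∀ i < F.m, 0 < F.nu i
  up : ∀ i, i1 ≤ i → i < i2 → F.Sea D S ρ i 1 ∨ F.Atom D S ρ a i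
  dn : ∀ i < F.m, i < i1 ∨ i2 ≤ i →
    F.Sea D S ρ i (-1) ∨ (F.Atom D S ρ a i ∧ ρ.mult a (F.pos i) = 2)
  aa : ∀ i, i + 1 < F.m → (F.Y i).a = 0 → (F.Y (i + 1)).a ≠ 0
  ss : ∀ i, i + 1 < F.m → (F.Y i).a ≠ 0 → (F.Y (i + 1)).a = (F.Y i).a →
    (F.Y (i + 1)).b ≠ (F.Y i).b
  zu : ∀ z ∈ ρ.Z, ∃ i, i1 ≤ i ∧ i < i2 ∧ (F.Y i).a = 0 ∧ F.pos i = z
  zd : ∀ z ∈ ρ.Z, ρ.mult a z = 2 →
    ∃ i < F.m, (i < i1 ∨ i2 ≤ i) ∧ (F.Y i).a = 0 ∧ F.pos i = z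

theorem FR_iff {F : Frame d} {D : LD d} {S : Finset (G d)} {ρ : RD d} {a : ℝ} :
    F.FR D S ρ a ↔ ∃ i1 i2, F.Ph D S ρ a i1 i2 :=
  ⟨fun ⟨i1, i2, a1, a2, a3, a4, a5, a6, a7, a8, a9, a10, a11, a12⟩ =>
    ⟨i1, i2, a1, a2, a3, a4, a5, a6, a7, a8, a9, a10, a11, a12⟩,
  fun ⟨i1, i2, a1, a2, a3, a4, a5, a6, a7, a8, a9, a10, a11, a12⟩ =>
    ⟨i1, i2, a1, a2, a3, a4, a5, a6, a7, a8, a9, a10, a11, a12⟩⟩

/-- zero slack of all items -/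
def ZS (F : Frame d) (q : Fin d → ℝ) (pa : ℝ) : Prop :=
  ∀ i < F.m, (F.t i : ℝ) = dot q (F.DvI i) + pa * ((F.Y i).a : ℝ)

/-- three items with independent data -/
def Rk (F : Frame d) : Prop :=
  ∃ i j l, i < F.m ∧ j < F.m ∧ l < F.m ∧
    Matrix.det !![(F.Y i).a, (F.Y i).b, (F.t i : ℤ); (F.Y j).a, (F.Y j).b, (F.t j : ℤ);
      (F.Y l).a, (F.Y l).b, (F.t l : ℤ)] ≠ 0

/-- `F'` continues `F` -/
def Pre (F F' : Frame d) : Prop :=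
  F.m ≤ F'.m ∧ ∀ i < F.m, F'.Y i = F.Y i ∧ F'.Yh i = F.Yh i ∧ F'.t i = F.t i ∧ F'.nu i = F.nu i

/-- the conditions on neighbouring items -/
def Ch (F : Frame d) : Prop :=
  ∀ i, i + 1 < F.m → ((F.Y i).a = 0 → (F.Y (i + 1)).a ≠ 0) ∧
    ((F.Y i).a ≠ 0 → (F.Y (i + 1)).a = (F.Y i).a → (F.Y (i + 1)).b ≠ (F.Y i).b)

/-- one more item -/
def snoc (F : Frame d) (Y Yh : G d) (t : ℕ) (nu : ℝ) : Frame d :=
  ⟨F.m + 1, Function.update F.Y F.m Y, Function.update F.Yh F.m Yh, Function.update F.t F.m t,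
    Function.update F.nu F.m nu⟩

end Frame

end Pool.Agent.P.MP_a0f0ad_al.Fi
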