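import Pool.Agent.P.MP_a0f0ad_al.Fi.F.Iface2
import Pool.Agent.P.MP_a0f0ad_al.Fi.F.Basic

/-! Step FATM of the filiform project. -/

namespace Pool.Agent.P.MP_a0f0ad_al.Fi

open Finset MeasureTheory

namespace FatmA

variable {d : ℕ} {S : Finset (G d)} {D : LD d} {ρ : RD d} {a : ℝ} {F : Frame d} {i1 i2 : ℕ}

theorem sum_atoms (h : F.Ph D S ρ a i1 i2) (hD : D.Spec S) (I : Finset ℕ) (Z : Finset ℝ)
    (hI : ∀ i ∈ I, i < F.m) (h1 : ∀ i ∈ I, (F.Y i).a = 0 → F.pos i ∈ Z)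
    (h2 : ∀ i ∈ I, ∀ j ∈ I, i < j → (F.Y i).a = 0 → (F.Y j).a = 0 → F.pos i ≠ F.pos j)
    (h3 : ∀ z ∈ Z, ∃ i ∈ I, (F.Y i).a = 0 ∧ F.pos i = z) (φ : ℝ → ℝ) :
    (∑ i ∈ I, if (F.Y i).a = 0 then F.nu i * ((F.Y i).b : ℝ) * φ (F.pos i) else 0) =
      ∑ z ∈ Z, ρ.mu z / ρ.mult a z * φ z := by
  rw [← sum_filter]
  refine sum_bij (fun i _ => F.pos i) (fun i hi => h1 i (mem_filter.1 hi).1 (mem_filter.1 hi).2)
    (fun i hi j hj e => ?_) (fun z hz => ?_) fun i hi => ?_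
  · rw [mem_filter] at hi hj
    rcases lt_trichotomy i j with k | k | k
    · exact absurd e (h2 i hi.1 j hj.1 k hi.2 hj.2)
    · exact k
    · exact absurd e.symm (h2 j hj.1 i hi.1 k hj.2 hi.2)
  · obtain ⟨i, a1, a2, a3⟩ := h3 z hz
    exact ⟨i, mem_filter.2 ⟨a1, a2⟩, a3⟩
  · rw [mem_filter] at hi
    have k := (h.atom hD (hI i hi.1) hi.2).2.2.1
    have k0 : ρ.mult a (F.pos i) ≠ 0 := by
      rcases ρ.mult_cases a (F.pos i) with e | e <;> rw [e] <;> norm_num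
    rw [← k, mul_div_cancel_right₀ _ k0, mul_comm (F.nu i)]

theorem sep_up (h : F.Ph D S ρ a i1 i2) (hD : D.Spec S) {i j : ℕ} (h1 : i1 ≤ i) (hij : i < j)
    (h2 : j < i2) (ai : (F.Y i).a = 0) (aj : (F.Y j).a = 0) : F.pos i < F.pos j := by
  have := h.h2m
  have k := h.aa i (by omega) ai
  have k' : i + 1 ≠ j := fun e => k (e ▸ aj)
  rcases h.a_up hD (i := i + 1) (by omega) (by omega) with e | e
  · exact (h.mono2 hD h1 i.le_succ (by omega)).trans_lt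
      (e.2.2.trans_le (h.mono2 hD (by omega) (by omega) h2.le))
  · exact absurd e.2.1 k

theorem sep_dn (h : F.Ph D S ρ a i1 i2) (hD : D.Spec S) {i j : ℕ} (hij : i < j) (hm : j < F.m)
    (h2 : j < i1 ∨ i2 ≤ i) (ai : (F.Y i).a = 0) (aj : (F.Y j).a = 0) : F.pos j < F.pos i := by
  have k := h.aa i (by omega) ai
  have k' : i + 1 ≠ j := fun e => k (e ▸ aj)
  rcases h.a_dn hD (i := i + 1) (by omega) (by omega) with e | e
  · rcases h2 with h2 | h2
    · exact ((h.anti1 hD (i := i + 1 + 1) (by omega) h2.le).trans_lt e.2.2).trans_le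
        (h.anti1 hD i.le_succ (by omega))
    · exact ((h.anti3 hD (i := i + 1 + 1) (by omega) (by omega) hm.le).trans_lt e.2.2).trans_le
        (h.anti3 hD h2 i.le_succ (by omega))
  · exact absurd e.2.1 k

end FatmA

open FatmA

theorem p_FATM :
    S_FATM := by
  intro d S D ρ u pa v F i1 i2 c h φ
  have hD := c.sp
  have h12 := h.h12
  have h2m := h.h2m
  have e1 := sum_atoms h hD (Ico i1 i2) ρ.Z (fun i hi => (mem_Ico.1 hi).2.trans_le h2m)
    (fun i hi ha => (h.atom hD ((mem_Ico.1 hi).2.trans_le h2m) ha).1)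
    (fun i hi j hj k ai aj => (sep_up h hD (mem_Ico.1 hi).1 k (mem_Ico.1 hj).2 ai aj).ne)
    (fun z hz => by
      obtain ⟨i, a1, a2, a3⟩ := h.zu z hz
      exact ⟨i, mem_Ico.2 ⟨a1, a2⟩, a3⟩) φ
  refine ⟨e1, ?_⟩
  have e2 := sum_atoms h hD ((range F.m).filter fun i => i < i1 ∨ i2 ≤ i)
    (ρ.Z.filter fun z => ρ.mult u.1 z = 2) (fun i hi => mem_range.1 (mem_filter.1 hi).1)
    (fun i hi ha => by
      rw [mem_filter, mem_range] at hi
      rcases h.a_dn hD hi.1 hi.2 with e | e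
      · exact absurd ha (e.1.a_ne hD (Or.inr rfl))
      · exact mem_filter.2 ⟨e.1.1, e.2.2.2⟩)
    (fun i hi j hj k ai aj => by
      rw [mem_filter, mem_range] at hi hj
      by_cases k' : j < i1 ∨ i2 ≤ i
      · exact (sep_dn h hD k hj.1 k' ai aj).ne'
      · exact (((h.mem1 hD (i := i) (by omega)).2.trans_lt c.a_pos).trans_le
          (h.mem3 hD (i := j) (by omega) hj.1.le).1).ne)
    (fun z hz => by
      obtain ⟨i, a1, a2, a3⟩ := h.zd z (mem_filter.1 hz).1 (mem_filter.1 hz).2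
      exact ⟨i, mem_filter.2 ⟨mem_range.2 a1, a2⟩, a3⟩) φ
  have e3 : ((range F.m).filter fun i => ¬ (i < i1 ∨ i2 ≤ i)) = Ico i1 i2 := by
    ext i
    simp only [mem_filter, mem_range, mem_Ico]
    omega
  rw [← sum_filter_add_sum_filter_not (range F.m) fun i => i < i1 ∨ i2 ≤ i, e3, e1, e2, sum_filter,
    ← sum_add_distrib]
  refine sum_congr rfl fun z _ => ?_
  rcases ρ.mult_cases u.1 z with e | e <;> rw [e]
  · norm_num
  · rw [if_pos rfl]
    ring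

end Pool.Agent.P.MP_a0f0ad_al.Fi
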