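import Pool.Agent.P.MP_a0f0ad_al.Fi.F.Iface2
import Pool.Agent.P.MP_a0f0ad_al.Fi.Z.Bf

/-! Step FBD of the filiform project. -/

namespace Pool.Agent.P.MP_a0f0ad_al.Fi

open Finset MeasureTheory

namespace FbdA

variable {d : ℕ}

theorem finite_words (S : Finset (G d)) (n : ℕ) :
    {g : G d | ∃ w, Wd S w ∧ w.length ≤ n ∧ w.prod = g}.Finite := by
  induction n with
  | zero =>
    refine (Set.finite_singleton (1 : G d)).subset ?_
    rintro g ⟨w, -, hw, rfl⟩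
    rw [List.length_eq_zero_iff.1 (Nat.le_zero.1 hw)]
    simp
  | succ n ih =>
    refine ((S.finite_toSet.image2 (fun s g => s * g) ih).insert (1 : G d)).subset ?_
    rintro g ⟨w, hS, hw, rfl⟩
    cases w with
    | nil => simp
    | cons s w =>
      refine Or.inr ⟨s, hS s (by simp), w.prod, ⟨w, fun t ht => hS t (by simp [ht]), ?_, rfl⟩, ?_⟩
      · simpa using hw
      · simp

theorem exists_c0 (S : Finset (G d)) (hS : Sym S) : ∃ c0 : ℝ, 0 ≤ c0 ∧
    ∀ g : G d, |(g.a : ℝ)| ≤ c0 * len S g ∧ |(g.b : ℝ)| ≤ c0 * len S g := by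
  refine ⟨∑ s ∈ S, (|(s.a : ℝ)| + |(s.b : ℝ)|), sum_nonneg fun s _ => by positivity, fun g => ?_⟩
  obtain ⟨w, hw, rfl⟩ := hS.exists_geo g
  have key : ∀ k < w.length, |((lt w k).a : ℝ)| + |((lt w k).b : ℝ)| ≤
      ∑ s ∈ S, (|(s.a : ℝ)| + |(s.b : ℝ)|) := fun k hk =>
    single_le_sum (f := fun s : G d => |(s.a : ℝ)| + |(s.b : ℝ)|)
      (fun s _ => by positivity) (hw.1.lt_mem hk)
  rw [← hw.2]
  constructor
  · rw [G.prod_a]
    push_cast
    refine (abs_sum_le_sum_abs _ _).trans ?_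
    refine (sum_le_card_nsmul _ _ _ fun k hk => le_trans ?_ (key k (mem_range.1 hk))).trans ?_
    · exact le_add_of_nonneg_right (abs_nonneg _)
    · rw [card_range, nsmul_eq_mul, mul_comm]
  · rw [G.prod_b]
    push_cast
    refine (abs_sum_le_sum_abs _ _).trans ?_
    refine (sum_le_card_nsmul _ _ _ fun k hk => le_trans ?_ (key k (mem_range.1 hk))).trans ?_
    · exact le_add_of_nonneg_left (abs_nonneg _)
    · rw [card_range, nsmul_eq_mul, mul_comm]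

theorem abs_pt (F : Frame d) {L : ℝ} {l : ℕ} (h0 : |F.pos l| ≤ L) (h1 : |F.pos (l + 1)| ≤ L)
    {s : ℝ} (s0 : 0 ≤ s) (s1 : s ≤ 1) : |F.pt l s| ≤ L := by
  have e : F.pt l s = (1 - s) * F.pos l + s * F.pos (l + 1) := by
    rw [F.pos_succ, Frame.pt]; ring
  rw [e]
  refine (abs_add_le _ _).trans ?_
  rw [abs_mul, abs_mul, abs_of_nonneg s0, abs_of_nonneg (sub_nonneg.2 s1)]
  nlinarith [mul_le_mul_of_nonneg_left h0 (sub_nonneg.2 s1), mul_le_mul_of_nonneg_left h1 s0]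

end FbdA

open FbdA in
theorem p_FBD :
    S_FBD := by
  intro d S C0 L hS
  obtain ⟨c0, hc0, hc⟩ := exists_c0 S hS
  obtain ⟨CV, hCV, hV⟩ := exists_Vd_bound d L
  have hCV0 : 0 ≤ CV := zero_le_one.trans hCV
  have hab : ∀ g : G d, (len S g : ℝ) ≤ C0 → |(g.a : ℝ)| ≤ c0 * |C0| ∧ |(g.b : ℝ)| ≤ c0 * |C0| :=
    fun g hg => ⟨(hc g).1.trans (mul_le_mul_of_nonneg_left (hg.trans (le_abs_self _)) hc0),
      (hc g).2.trans (mul_le_mul_of_nonneg_left (hg.trans (le_abs_self _)) hc0)⟩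
  have p1 : 0 ≤ c0 * |C0| := by positivity
  have p2 : 0 ≤ c0 * |C0| * CV := by positivity
  have p3 : 0 ≤ c0 * |C0| * (c0 * CV) := by positivity
  refine ⟨(finite_words S ⌊C0⌋₊).toFinset,
    |C0| + c0 * |C0| + (c0 * |C0| * CV + c0 * |C0| * (c0 * CV)), ?_, fun g hg => ⟨?_, ?_, ?_⟩, ?_⟩
  · linarith [le_abs_self C0]
  · obtain ⟨w, hw, rfl⟩ := hS.exists_geo g
    rw [Set.Finite.mem_toFinset]
    exact ⟨w, hw.1, by rw [hw.2]; exact Nat.le_floor hg, rfl⟩
  · linarith [(hab g hg).1, abs_nonneg C0]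
  · linarith [(hab g hg).2, abs_nonneg C0]
  intro F K0 hOK ht hpos hsum i hi
  have hlen : ∀ l < F.m, (len S (F.Y l) : ℝ) ≤ F.t l := fun l hl => by
    exact_mod_cast (hOK l hl).2.1
  have hG : ‖F.Gam i‖ ≤ c0 * CV := by
    refine (pi_norm_le_iff_of_nonneg (by positivity)).2 fun j => ?_
    unfold Frame.Gam
    refine (norm_sum_le _ _).trans ?_
    have key : ∀ l ∈ range F.m,
        ‖∫ s in clamp ((i : ℝ) - l)..1, F.nu l * ((F.Y l).b : ℝ) * Vd 1 (F.pt l s) j‖ ≤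
          c0 * CV * (F.nu l * (F.t l : ℝ)) := by
      intro l hl
      have hl' := mem_range.1 hl
      have hnu := (hOK l hl').1
      obtain ⟨k0, k1⟩ := clamp_mem ((i : ℝ) - l)
      have hb : |((F.Y l).b : ℝ)| ≤ c0 * F.t l :=
        (hc _).2.trans (mul_le_mul_of_nonneg_left (hlen l hl') hc0)
      have hB : 0 ≤ c0 * CV * (F.nu l * (F.t l : ℝ)) := by positivity
      refine (intervalIntegral.norm_integral_le_of_norm_le_const
        (C := c0 * CV * (F.nu l * (F.t l : ℝ))) fun s hs => ?_).trans ?_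
      · rw [Set.uIoc_of_le k1] at hs
        have h1 : |Vd 1 (F.pt l s) j| ≤ CV :=
          (norm_le_pi_norm (Vd 1 (F.pt l s) : Fin d → ℝ) j).trans
            (hV 1 _ (abs_pt F (hpos l hl'.le) (hpos (l + 1) hl') (k0.trans hs.1.le) hs.2)).1
        rw [Real.norm_eq_abs, abs_mul, abs_mul, abs_of_pos hnu]
        calc F.nu l * |((F.Y l).b : ℝ)| * |Vd 1 (F.pt l s) j|
            ≤ F.nu l * (c0 * F.t l) * CV := by gcongr
          _ = c0 * CV * (F.nu l * (F.t l : ℝ)) := by ring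
      · rw [abs_of_nonneg (sub_nonneg.2 k1)]
        nlinarith
    refine (sum_le_sum key).trans ?_
    rw [← mul_sum]
    exact mul_le_of_le_one_right (by positivity) hsum
  obtain ⟨ha, hb⟩ := hab (F.Y i) ((hlen i hi).trans (ht i hi))
  have h0 : ‖(Vd 0 (F.posT i) : Fin d → ℝ)‖ ≤ CV := by
    rw [F.posT_nat hi.le]
    exact (hV 0 _ (hpos i hi.le)).1
  unfold Frame.DvI Frame.Dv
  refine (norm_add_le _ _).trans ?_
  rw [norm_smul, norm_smul, Real.norm_eq_abs, Real.norm_eq_abs]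
  have e1 : |((F.Y i).b : ℝ)| * ‖(Vd 0 (F.posT i) : Fin d → ℝ)‖ ≤ c0 * |C0| * CV := by gcongr
  have e2 : |((F.Y i).a : ℝ)| * ‖F.Gam i‖ ≤ c0 * |C0| * (c0 * CV) := by gcongr
  linarith [abs_nonneg C0]

end Pool.Agent.P.MP_a0f0ad_al.Fi
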