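import Pool.Agent.P.MP_a0f0ad_al.Fi.F.Iface2
import Pool.Agent.P.MP_a0f0ad_al.Fi.Z.Bl
import Pool.Agent.P.MP_a0f0ad_al.Fi.Z.Bg

/-! Step FBLK of the filiform project. -/

namespace Pool.Agent.P.MP_a0f0ad_al.Fi

open Finset MeasureTheory

namespace FblkA

variable {d : ℕ} {S : Finset (G d)}

theorem ext {r : G d} (hr : r ∈ S) : ∃ s s', Ext S s s' r.a r.b := by
  have hne : (S.filter fun x => x.a = r.a ∧ x.b = r.b).Nonempty :=
    ⟨r, mem_filter.2 ⟨hr, rfl, rfl⟩⟩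
  obtain ⟨s, hs, h1⟩ := exists_min_image _ G.ct hne
  obtain ⟨s', hs', h2⟩ := exists_max_image _ G.ct hne
  rw [mem_filter] at hs hs'
  exact ⟨s, s', hs.1, hs'.1, hs.2.1, hs.2.2, hs'.2.1, hs'.2.2, fun x hx a b =>
    ⟨h1 x (mem_filter.2 ⟨hx, a, b⟩), h2 x (mem_filter.2 ⟨hx, a, b⟩)⟩⟩

theorem len_pow (hS : Sym S) {r : G d} (hr : r ∈ S) (t : ℕ) : len S (r ^ t) ≤ t :=
  (hS.len_pow _ _).trans (by simpa using Nat.mul_le_mul_left _ (len_mem hr))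

theorem blk {D : LD d} (hS : D.Spec S) {k : ℕ} (hk : k ≤ D.n) :
    ∃ t : ℕ, 0 < t ∧ (t : ℤ) * (D.A k).a = D.K0 ∧ t ≤ D.K0 := by
  obtain ⟨t, h1, h2⟩ := hS.dvd_K0 hk
  refine ⟨t, h1, h2, ?_⟩
  have := le_mul_of_one_le_right (Int.natCast_nonneg t) (show 1 ≤ (D.A k).a from (hS.memA k hk).2)
  omega

end FblkA

theorem p_FBLK :
    S_FBLK := by
  intro d S D hS
  refine ⟨fun k hk δ hδ => ?_, fun w hw => ?_⟩
  · obtain ⟨t, -, h2, h3⟩ := FblkA.blk hS hk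
    rcases hδ with rfl | rfl
    · obtain ⟨s, s', h⟩ := FblkA.ext (hS.memA k hk).1
      exact ⟨s, s', t, by rwa [one_mul, one_mul], h2, h3⟩
    · obtain ⟨s, s', h⟩ := FblkA.ext (hS.sym.2.1 _ (hS.memA k hk).1)
      exact ⟨s, s', t, by rwa [neg_one_mul, neg_one_mul, ← G.inv_a, ← G.inv_b], h2, h3⟩
  have hK := hS.K0_pos
  have hw' : w = D.Q ∨ w = -D.Q := (abs_eq hS.Qpos.le).1 hw
  rcases hS.om_Q_nonneg.lt_or_eq with h0 | h0
  · obtain ⟨c1, c2, c3⟩ := hS.wait h0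
    obtain ⟨r, r1, r2, r3⟩ : ∃ r ∈ S, r.a = 0 ∧ (r.b : ℝ) * w = 1 := by
      rcases hw' with rfl | rfl
      · exact ⟨D.C, c1, c2, by rw [mul_comm, c3]⟩
      · exact ⟨D.C⁻¹, hS.sym.2.1 _ c1, by rw [G.inv_a, c2, neg_zero],
          by rw [G.inv_b, Int.cast_neg, neg_mul_neg, mul_comm, c3]⟩
    obtain ⟨s, s', h⟩ := FblkA.ext r1
    have e := h.2.2.2.1
    rw [r2] at h
    exact ⟨s, s', 1, h.2.2.1, by rw [e, r3, Nat.cast_one], one_pos, by omega,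
      fun _ => ⟨rfl, e ▸ h⟩, fun a => absurd a h0.ne'⟩
  · obtain ⟨tn, n1, n2, n3⟩ := FblkA.blk hS (le_refl D.n)
    obtain ⟨t0, z1, z2, z3⟩ := FblkA.blk hS (Nat.zero_le D.n)
    have mn := (hS.memA _ le_rfl).1
    have m0 := (hS.memA _ (Nat.zero_le _)).1
    have key : (tn : ℝ) + t0 = (tn * (D.A D.n).b - t0 * (D.A 0).b) * D.Q := by
      have a1 := hS.a_pos (le_refl D.n)
      have a2 := hS.a_pos (Nat.zero_le D.n)
      have b1 : (tn : ℝ) * (D.A D.n).a = D.K0 := by exact_mod_cast n2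
      have b2 : (t0 : ℝ) * (D.A 0).a = D.K0 := by exact_mod_cast z2
      rw [LD.om, LD.lp, LD.lp, hS.idx_Q le_rfl, hS.idx_negQ le_rfl, div_add_div _ _ a1.ne' a2.ne',
        eq_comm, div_eq_zero_iff, or_iff_left (mul_pos a1 a2).ne'] at h0
      refine mul_left_cancel₀ (mul_pos a1 a2).ne' ?_
      linear_combination (D.K0 : ℝ) * h0 +
        ((D.A 0).a * (1 - (D.A D.n).b * D.Q) : ℝ) * b1 +
        ((D.A D.n).a * (1 + (D.A 0).b * D.Q) : ℝ) * b2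
    rcases hw' with rfl | rfl
    · refine ⟨_, _, tn + t0, ?_, ?_, by omega, by omega, fun a => absurd h0 a.ne, fun _ =>
        ⟨rfl, D.A D.n ^ tn, (D.A 0)⁻¹ ^ t0, tn, t0, rfl, by rw [G.pow_a, n2],
          by rw [G.pow_a, G.inv_a, mul_neg, z2], FblkA.len_pow hS.sym mn _,
          FblkA.len_pow hS.sym (hS.sym.2.1 _ m0) _, rfl⟩⟩
      · rw [G.mul_a, G.pow_a, G.pow_a, G.inv_a, mul_neg, n2, z2, add_neg_cancel]
      · rw [G.mul_b, G.pow_b, G.pow_b, G.inv_b]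
        push_cast
        linear_combination key
    · refine ⟨_, _, t0 + tn, ?_, ?_, by omega, by omega, fun a => absurd h0 a.ne, fun _ =>
        ⟨rfl, D.A 0 ^ t0, (D.A D.n)⁻¹ ^ tn, t0, tn, rfl, by rw [G.pow_a, z2],
          by rw [G.pow_a, G.inv_a, mul_neg, n2], FblkA.len_pow hS.sym m0 _,
          FblkA.len_pow hS.sym (hS.sym.2.1 _ mn) _, rfl⟩⟩
      · rw [G.mul_a, G.pow_a, G.pow_a, G.inv_a, mul_neg, n2, z2, add_neg_cancel]
      · rw [G.mul_b, G.pow_b, G.pow_b, G.inv_b]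
        push_cast
        linear_combination key

end Pool.Agent.P.MP_a0f0ad_al.Fi
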