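import Pool.Agent.P.MP_a0f0ad_al.Fi.F.Iface2
import Pool.Agent.P.MP_a0f0ad_al.Fi.Z.Bp
import Pool.Agent.P.MP_a0f0ad_al.Fi.Z.Bg

/-! Step FCOV of the filiform project. -/

namespace Pool.Agent.P.MP_a0f0ad_al.Fi

open Finset MeasureTheory

namespace FcovA

variable {d r : ℕ}

/-- linear combinations of a finite family of vectors -/
noncomputable def comb (V : Fin r → Fin d → ℝ) : (Fin r → ℝ) →L[ℝ] (Fin d → ℝ) :=
  ∑ l, (ContinuousLinearMap.proj l : (Fin r → ℝ) →L[ℝ] ℝ).smulRight (V l)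

theorem comb_apply (V : Fin r → Fin d → ℝ) (z : Fin r → ℝ) : comb V z = ∑ l, z l • V l := by
  simp [comb]

/-- duality -/
theorem dual (ξ : Fin r → ℝ) {N : ℝ} (hN : 0 ≤ N)
    (h : ∀ (f : Fin d → ℝ) (e : ℝ), 0 ≤ e → (∀ l, |ev f 1 (ξ l)| ≤ e) →
      ∀ j : Fin d, 1 ≤ (j : ℕ) → |f j| ≤ N * e) (y : Fin d → ℝ) (hy : co y 0 = 0) :
    ∃ z : Fin r → ℝ, ‖z‖ ≤ d * N * ‖y‖ ∧ comb (fun l => Vd 1 (ξ l)) z = y := by
  by_contra k
  have hR : 0 ≤ d * N * ‖y‖ := by positivity
  obtain ⟨g, u, h1, h2⟩ := geometric_hahn_banach_closed_point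
    (s := comb (fun l => (Vd 1 (ξ l) : Fin d → ℝ)) '' Metric.closedBall 0 (d * N * ‖y‖)) (x := y)
    ((convex_closedBall _ _).is_linear_image (comb _).toLinearMap.isLinear)
    ((isCompact_closedBall _ _).image (comb _).continuous).isClosed
    fun ⟨z, hz, e⟩ => k ⟨z, mem_closedBall_zero_iff.1 hz, e⟩
  obtain ⟨f, hf⟩ : ∃ f : Fin d → ℝ, ∀ w, g w = dot f w :=
    ⟨fun i => g fun j => if i = j then 1 else 0, fun w =>
      (g.toLinearMap.pi_apply_eq_sum_univ w).trans (sum_congr rfl fun i _ => mul_comm _ _)⟩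
  have h3 := h1 _ ⟨fun l => if 0 ≤ ev f 1 (ξ l) then d * N * ‖y‖ else -(d * N * ‖y‖),
    mem_closedBall_zero_iff.2 ((pi_norm_le_iff_of_nonneg hR).2 fun l => by
      split_ifs
      · exact (Real.norm_of_nonneg hR).le
      · rw [norm_neg]
        exact (Real.norm_of_nonneg hR).le), rfl⟩
  have he : 0 ≤ ∑ l, |ev f 1 (ξ l)| := sum_nonneg fun l _ => abs_nonneg _
  have h4 := h f _ he fun l => single_le_sum (f := fun l => |ev f 1 (ξ l)|)
    (fun l _ => abs_nonneg _) (mem_univ l)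
  rw [hf, comb_apply, dot_sum_right, sum_congr rfl (g := fun l => d * N * ‖y‖ * |ev f 1 (ξ l)|)
    fun l _ => by
      rw [dot_smul_right, ← ev]
      split_ifs with k
      · rw [abs_of_nonneg k]
      · rw [abs_of_neg (not_le.1 k)]
        ring, ← mul_sum] at h3
  have h5 : dot f y ≤ ∑ _j : Fin d, N * (∑ l, |ev f 1 (ξ l)|) * ‖y‖ := by
    refine sum_le_sum fun j _ => ?_
    rcases Nat.eq_zero_or_pos (j : ℕ) with e | e
    · rw [← co_coe y j, e, hy, mul_zero]
      positivity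
    · refine (le_abs_self _).trans ?_
      rw [abs_mul]
      exact mul_le_mul (h4 j e) (norm_le_pi_norm y j) (abs_nonneg _) (by positivity)
  rw [sum_const, card_univ, Fintype.card_fin, nsmul_eq_mul] at h5
  rw [hf] at h2
  linarith

theorem seg {L C ε ξ a b : ℝ} (hC : ∀ x y : ℝ, |x| ≤ L + 1 → |y| ≤ L + 1 →
      ‖(Vd 1 y - Vd 1 x : Fin d → ℝ)‖ ≤ C * |y - x|) (h0 : 0 ≤ C) (h1 : ε ≤ 1) (hξ : |ξ| ≤ L)
    (ha : |a| ≤ ε) (hb : |b| ≤ ε) :
    ‖(Vd 0 (ξ + a) - Vd 0 (ξ + b) - (a - b) • Vd 1 ξ : Fin d → ℝ)‖ ≤ C * ε * |a - b| := by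
  have := norm_le_of_deriv_seg (f := fun t => (Vd 0 t - t • Vd 1 ξ : Fin d → ℝ))
    (f' := fun t => Vd 1 t - (1 : ℝ) • Vd 1 ξ) (x := ξ + b) (y := ξ + a) (B := C * ε)
    (fun t => (hasDerivAt_Vd' 0 t).sub ((hasDerivAt_id' t).smul_const _)) fun t ht => by
      have k : |t - ξ| ≤ ε := by
        rw [abs_le] at ha hb ⊢
        rcases Set.mem_uIcc.1 ht with k | k <;> constructor <;> linarith [k.1, k.2]
      rw [one_smul]
      refine (hC ξ t (by linarith) ?_).trans (mul_le_mul_of_nonneg_left k h0)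
      linarith [abs_sub_abs_le_abs_sub t ξ]
  rw [add_sub_add_left_eq_sub] at this
  convert this using 2
  module

end FcovA

open FcovA in
theorem p_FCOV :
    S_FCOV := by
  intro d L B0
  obtain ⟨CT, hCT, hT⟩ := exists_Vd_taylor d (L + 1)
  obtain ⟨B, hB, hB0⟩ : ∃ B : ℝ, 1 ≤ B ∧ B0 ≤ B := ⟨max 1 B0, le_max_left _ _, le_max_right _ _⟩
  obtain ⟨D, hD⟩ : ∃ D : ℝ, D = 2 * d * B + 1 := ⟨_, rfl⟩
  have hD1 : 1 ≤ D := hD ▸ le_add_of_nonneg_left (by positivity)
  have hK : 1 ≤ B * B * CT := one_le_mul_of_one_le_of_one_le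
    (one_le_mul_of_one_le_of_one_le hB hB) hCT
  have hC : 1 ≤ 2 * D * (B * B * CT) := one_le_mul_of_one_le_of_one_le (by linarith) hK
  refine ⟨2 * D * (B * B * CT), hC, fun r c ξ N ε hr hN hε hsm hc hdu e he hen => ?_⟩
  have hε1 : ε ≤ 1 :=
    (le_mul_of_one_le_left hε (one_le_mul_of_one_le_of_one_le hC hN)).trans hsm
  have hc1 : ∀ l : Fin r, 1 ≤ B * |c l| := fun l =>
    (hc l l.2).2.1.trans (mul_le_mul_of_nonneg_right hB0 (abs_nonneg _))
  have hc0 : ∀ l : Fin r, c l ≠ 0 := fun l e => by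
    have := hc1 l
    rw [e, abs_zero, mul_zero] at this
    linarith
  have h0 : ∀ y : Fin d → ℝ, co (y - co y 0 • Vd 0 0) 0 = 0 := fun y => by
    rcases Nat.eq_zero_or_pos d with rfl | hd
    · simp [co]
    · rw [co_sub, co_smul, co_Vd_zero hd, mul_one, sub_self]
  have hV : ‖(Vd 0 0 : Fin d → ℝ)‖ ≤ 1 := (pi_norm_le_iff_of_nonneg zero_le_one).2 fun j => by
    rcases Nat.eq_zero_or_pos (j : ℕ) with e | e
    · simp [Vd, e]
    · simp [Vd, e.ne']
  choose z hz1 hz2 using fun y : Fin d → ℝ => dual (fun l : Fin r => ξ l) (by linarith)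
    (fun f e he k => hdu f e he fun l hl => k ⟨l, hl⟩) _ (h0 y)
  let A : (Fin r → ℝ) × ℝ →L[ℝ] (Fin d → ℝ) := (comb fun l => c l • Vd 1 (ξ l)).coprod
    ((1 : ℝ →L[ℝ] ℝ).smulRight (Vd 0 0))
  have hA : ∀ w, A w = ∑ l, w.1 l • c l • Vd 1 (ξ l) + w.2 • Vd 0 0 := fun w => by
    simp [A, comb_apply]
  let R : A.NonlinearRightInverse :=
    { toFun := fun y => (fun l => z y l / c l, co y 0)
      nnnorm := ⟨D * N, by positivity⟩
      bound' := fun y => by
        have k1 := abs_co_le y 0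
        have k2 : ‖y - co y 0 • Vd 0 0‖ ≤ 2 * ‖y‖ := by
          refine (norm_sub_le _ _).trans ?_
          rw [norm_smul, Real.norm_eq_abs]
          nlinarith [abs_nonneg (co y 0), norm_nonneg (Vd 0 0 : Fin d → ℝ)]
        change _ ≤ D * N * ‖y‖
        refine max_le ((pi_norm_le_iff_of_nonneg (by positivity)).2 fun l => ?_) (k1.trans
          (le_mul_of_one_le_left (norm_nonneg _) (one_le_mul_of_one_le_of_one_le hD1 hN)))
        have k3 : |z y l| ≤ d * N * (2 * ‖y‖) :=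
          ((norm_le_pi_norm _ l).trans (hz1 y)).trans (by gcongr)
        rw [Real.norm_eq_abs, abs_div, div_le_iff₀ (abs_pos.2 (hc0 l))]
        calc _ ≤ d * N * (2 * ‖y‖) * (B * |c l|) :=
              k3.trans (le_mul_of_one_le_right (by positivity) (hc1 l))
          _ = 2 * d * B * N * ‖y‖ * |c l| := by ring
          _ ≤ _ := by gcongr; linarith
      right_inv' := fun y => by
        have := hz2 y
        rw [comb_apply] at this
        rw [hA, ← eq_sub_iff_add_eq, ← this]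
        refine sum_congr rfl fun l _ => ?_
        rw [smul_smul, div_mul_cancel₀ _ (hc0 l)] }
  have hap : ApproximatesLinearOn (fun w : (Fin r → ℝ) × ℝ =>
      ∑ l : Fin r, c l • (Vd 0 (ξ l + w.1 l) - Vd 0 (ξ l) : Fin d → ℝ) + w.2 • Vd 0 0) A
      (Metric.closedBall 0 ε) ⟨B * B * CT * ε, by positivity⟩ := by
    intro w hw w' hw'
    have k : ∀ {w : (Fin r → ℝ) × ℝ}, w ∈ Metric.closedBall 0 ε → ∀ l, |w.1 l| ≤ ε :=
      fun {w} hw l => (norm_le_pi_norm _ l).trans
        ((norm_fst_le w).trans (mem_closedBall_zero_iff.1 hw))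
    calc _ = ‖∑ l : Fin r, c l • (Vd 0 (ξ l + w.1 l) - Vd 0 (ξ l + w'.1 l) -
          (w.1 l - w'.1 l) • Vd 1 (ξ l) : Fin d → ℝ)‖ := by
          congr 1
          simp only [hA, Prod.fst_sub, Prod.snd_sub, Pi.sub_apply, smul_sub, sub_smul,
            sum_sub_distrib, smul_comm (c _)]
          abel
      _ ≤ ∑ _l : Fin r, B * (CT * ε * ‖w - w'‖) := by
          refine norm_sum_le_of_le _ fun l _ => ?_
          rw [norm_smul]
          refine mul_le_mul ((hc l l.2).2.2.trans hB0) ((seg (fun x y hx hy => (hT 1 x y hx hy).1)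
            (by linarith) hε1 (hc l l.2).1 (k hw l) (k hw' l)).trans ?_) (norm_nonneg _)
            (by linarith)
          exact mul_le_mul_of_nonneg_left ((norm_le_pi_norm (w - w').1 l).trans (norm_fst_le _))
            (by positivity)
      _ ≤ B * (B * (CT * ε * ‖w - w'‖)) := by
          rw [sum_const, card_univ, Fintype.card_fin, nsmul_eq_mul]
          exact mul_le_mul_of_nonneg_right (hr.trans hB0) (by positivity)
      _ = B * B * CT * ε * ‖w - w'‖ := by ring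
  obtain ⟨w, hw, hw'⟩ := hap.surjOn_closedBall_of_nonlinearRightInverse R hε subset_rfl (b := 0)
    (show e ∈ _ by
      have hp : 0 < D * N := by positivity
      simp only [Prod.fst_zero, Prod.snd_zero, Pi.zero_apply, add_zero, sub_self, smul_zero,
        sum_const_zero, zero_smul, mem_closedBall_zero_iff]
      change _ ≤ ((D * N)⁻¹ - B * B * CT * ε) * ε
      refine le_of_mul_le_mul_left ?_ hp
      rw [← mul_assoc, mul_sub, mul_inv_cancel₀ hp.ne']
      have k1 : 2 * (D * N * ‖e‖) ≤ ε := by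
        refine le_trans ?_ hen
        calc _ = 2 * D * 1 * N * ‖e‖ := by ring
          _ ≤ _ := by gcongr
      nlinarith)
  have hs : w.2 • (Vd 0 0 : Fin d → ℝ) = 0 := by
    rcases Nat.eq_zero_or_pos d with rfl | hd
    · exact Subsingleton.elim _ _
    · have := congrArg (co · 0) hw'
      simp only [co_add, co_sum, co_smul, co_sub, co_Vd_zero hd, he, sub_self, mul_zero,
        sum_const_zero, zero_add, mul_one] at this
      rw [this, zero_smul]
  refine ⟨fun l => ξ l + co w.1 l, fun l _ => ?_, ?_⟩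
  · rw [add_sub_cancel_left]
    exact (abs_co_le _ _).trans ((norm_fst_le w).trans (mem_closedBall_zero_iff.1 hw))
  · rw [← hw', sum_range]
    simp only [hs, add_zero, co_coe]

end Pool.Agent.P.MP_a0f0ad_al.Fi
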