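import Pool.Agent.P.MP_a0f0ad_al.Fi.F.Iface2
import Pool.Agent.P.MP_a0f0ad_al.Fi.F.Basic

/-! Step FEX of the filiform project. -/

namespace Pool.Agent.P.MP_a0f0ad_al.Fi

open Finset MeasureTheory

theorem p_FEX (hFEXT : S_FEXT) :
    S_FEX := by
  intro d S D ρ u pa v c
  have ha := c.a_pos
  have hm := c.m_le
  have hM := c.le_M
  have hmM := c.m_lt
  have hK : (0 : ℤ) < D.K0 := by exact_mod_cast c.sp.K0_pos
  have nm : ρ.mult u.1 ρ.m ≠ 2 := fun e => by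
    rcases RD.mult_eq_two.1 e with k | k <;> linarith [k.1, k.2]
  have nM : ρ.mult u.1 ρ.M ≠ 2 := fun e => by
    rcases RD.mult_eq_two.1 e with k | k <;> linarith [k.1, k.2]
  obtain ⟨F1, -, c1, p1, l1, i1, z1⟩ := hFEXT d S D ρ u pa v c (-1)
    {z | z ∈ ρ.Z ∧ ρ.mult u.1 z = 2} ⟨0, fun _ => 1, fun _ => 1, fun _ => 0, fun _ => 0⟩ 0 ρ.m
    (Or.inr rfl) (fun i hi => absurd hi (Nat.not_lt_zero _)) (Frame.pos_zero _) hm (by linarith)
    le_rfl hmM.le (by push_cast; linarith) (fun z hz => hz.1)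
    (fun z hz h1 h2 => ⟨hz, RD.mult_eq_two.2 (Or.inl ⟨by push_cast at h2; linarith,
      by push_cast at h1; linarith⟩)⟩) (fun i hi => absurd hi (Nat.succ_ne_zero _))
  obtain ⟨F2, r2, c2, p2, l2, i2, z2⟩ := hFEXT d S D ρ u pa v c 1 {z | z ∈ ρ.Z} F1 ρ.m ρ.M
    (Or.inl rfl) c1 p1 le_rfl hmM.le hmM.le le_rfl (by push_cast; linarith) (fun z hz => hz)
    (fun z hz _ _ => hz) (fun i hi => by
      rcases (i1 i (Nat.zero_le _) (by omega)).2.2 with k | k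
      · rw [k.a_eq]
        exact ⟨by omega, fun e => by omega⟩
      · exact absurd (by rw [← p1, ← hi, k.1.pos_succ]; exact k.2.2) nm)
  have lt12 : F1.m < F2.m := lt_of_le_of_ne r2.1 fun e =>
    hmM.ne (by rw [← p1, ← p2, ← e, r2.pos le_rfl])
  obtain ⟨F, r3, c3, p3, l3, i3, z3⟩ := hFEXT d S D ρ u pa v c (-1)
    {z | z ∈ ρ.Z ∧ ρ.mult u.1 z = 2} F2 ρ.M u.1 (Or.inr rfl) c2 p2 hmM.le le_rfl (by linarith) hM
    (by push_cast; linarith) (fun z hz => hz.1)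
    (fun z hz h1 h2 => ⟨hz, RD.mult_eq_two.2 (Or.inr ⟨by push_cast at h2; linarith,
      by push_cast at h1; linarith⟩)⟩) (fun i hi => by
      refine ⟨?_, fun _ e => nM e.2⟩
      rcases (i2 i (by omega) (by omega)).2.2 with k | k
      · rw [k.a_eq]
        omega
      · rw [k.1.2.1]
        omega)
  have r1 := r2.trans r3
  have h2m := r3.1
  have all : ∀ i < F.m, 0 < F.nu i ∧ F.t i ≤ 2 * D.K0 := fun i hi => by
    rcases lt_or_ge i F1.m with k | k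
    · rw [(r1.2 i k).2.2.1, (r1.2 i k).2.2.2]
      exact ⟨(i1 i (Nat.zero_le _) k).1, (i1 i (Nat.zero_le _) k).2.1⟩
    rcases lt_or_ge i F2.m with k' | k'
    · rw [(r3.2 i k').2.2.1, (r3.2 i k').2.2.2]
      exact ⟨(i2 i k k').1, (i2 i k k').2.1⟩
    · exact ⟨(i3 i k' hi).1, (i3 i k' hi).2.1⟩
  refine ⟨F, F1.m, F2.m, ⟨r2.1, h2m, (r1.pos le_rfl).trans p1, (r3.pos le_rfl).trans p2, p3,
    fun i hi => (all i hi).1, fun i h1 h2 => ?_, fun i hi h => ?_, fun i hi => (c3 i hi).1,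
    fun i hi => (c3 i hi).2, fun z hz => ?_, fun z hz h => ?_⟩, ?_, fun i hi => (all i hi).2⟩
  · exact (i2 i h1 h2).2.2.imp (r3.sea h2) fun k => r3.atom h2 k.1
  · rcases h with h | h
    · exact (i1 i (Nat.zero_le _) h).2.2.imp (r1.sea h) fun k =>
        ⟨r1.atom h k.1, by rw [r1.pos h.le]; exact k.2.2⟩
    · exact (i3 i h hi).2.2.imp id fun k => ⟨k.1, k.2.2⟩
  · obtain ⟨i, a1, a2, a3, a4⟩ := z2 z hz (by push_cast; linarith [(c.atom hz).1])
      (by push_cast; linarith [(c.atom hz).2.1])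
    exact ⟨i, a1, a2, by rw [(r3.2 i a2).1, a3], by rw [r3.pos a2.le, a4]⟩
  · rcases RD.mult_eq_two.1 h with k | k
    · obtain ⟨i, -, a2, a3, a4⟩ := z1 z ⟨hz, h⟩ (by push_cast; linarith [k.2])
        (by push_cast; linarith [k.1])
      exact ⟨i, by omega, Or.inl a2, by rw [(r1.2 i a2).1, a3], by rw [r1.pos a2.le, a4]⟩
    · obtain ⟨i, a1, a2, a3, a4⟩ := z3 z ⟨hz, h⟩ (by push_cast; linarith [k.2])
        (by push_cast; linarith [k.1])
      exact ⟨i, a2, Or.inr a1, a3, a4⟩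
  · simp only at l1
    omega

end Pool.Agent.P.MP_a0f0ad_al.Fi
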