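import Pool.Agent.P.MP_a0f0ad_al.Fi.F.Iface2
import Pool.Agent.P.MP_a0f0ad_al.Fi.F.Basic

/-! Step FEXT of the filiform project. -/

namespace Pool.Agent.P.MP_a0f0ad_al.Fi

open Finset MeasureTheory Filter Topology

variable {d : ℕ} {S : Finset (G d)} {D : LD d} {ρ : RD d} {u : E d} {pa v : ℝ}

theorem fext_cross {g : ℝ → ℝ} {g' y α β : ℝ} (h : HasDerivAt g g' y) (h0 : g' ≠ 0) (hα : α < y)
    (hβ : y < β) : ∃ x x', α < x ∧ x < y ∧ y < x' ∧ x' < β ∧ (g x - g y) * (g x' - g y) < 0 := by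
  have h1 : ∀ᶠ x in 𝓝[≠] y, 0 < slope g y x * g' :=
    ((hasDerivAt_iff_tendsto_slope.1 h).mul_const g').eventually (lt_mem_nhds (mul_self_pos.2 h0))
  obtain ⟨x, a1, a2⟩ := ((h1.filter_mono (nhdsLT_le_nhdsNE y)).and (Ioo_mem_nhdsLT hα)).exists
  obtain ⟨x', b1, b2⟩ := ((h1.filter_mono (nhdsGT_le_nhdsNE y)).and (Ioo_mem_nhdsGT hβ)).exists
  refine ⟨x, x', a2.1, a2.2, b2.1, b2.2, ?_⟩
  rw [slope_def_field, div_mul_eq_mul_div] at a1 b1
  have a3 := (div_pos_iff.1 a1).resolve_left fun k => by linarith [k.2, a2.2]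
  have b3 := (div_pos_iff.1 b1).resolve_right fun k => by linarith [k.2, b2.1]
  have := mul_neg_of_neg_of_pos a3.1 b3.1
  nlinarith [mul_self_pos.2 h0]

theorem fext_idx (D : LD d) {g : ℝ → ℝ} (hg : Continuous g) {α β x x' : ℝ}
    (h : ∀ y ∈ Set.Ioo α β, ∀ l < D.n, g y ≠ D.th l) (hx : x ∈ Set.Ioo α β)
    (hx' : x' ∈ Set.Ioo α β) : D.idx (g x) = D.idx (g x') := by
  have k : ∀ x ∈ Set.Ioo α β, ∀ x' ∈ Set.Ioo α β, ∀ l < D.n, D.th l < g x → D.th l < g x' :=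
    fun x hx x' hx' l hl a => not_le.1 fun b => by
      obtain ⟨y, c1, c2⟩ := isPreconnected_Ioo.intermediate_value hx' hx hg.continuousOn ⟨b, a.le⟩
      exact h y c1 l hl c2
  unfold LD.idx
  rw [filter_congr fun l hl => ⟨k x hx x' hx' l (mem_range.1 hl), k x' hx' x hx l (mem_range.1 hl)⟩]

theorem fext_atom (hB : S_FBLK) (c : FCx S D ρ u pa v) {F : Frame d} (hF : F.Ch)
    (hx : F.pos F.m ∈ ρ.Z) (hl : ∀ i, i + 1 = F.m → (F.Y i).a ≠ 0) :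
    ∃ F' : Frame d, F.Pre F' ∧ F'.Ch ∧ F'.m = F.m + 1 ∧ 0 < F'.nu F.m ∧ F'.t F.m ≤ 2 * D.K0 ∧
      F'.Atom D S ρ u.1 F.m := by
  obtain ⟨-, -, h1, h2⟩ := c.atom hx
  obtain ⟨Y, Yh, t, a1, a2, a3, a4, a5, a6⟩ := (hB d S D c.sp).2 _ h1
  have t0 : 0 < (Y.b : ℝ) * ev ρ.q 0 (F.pos F.m) := a2 ▸ Nat.cast_pos.2 a3
  have b0 : (Y.b : ℝ) ≠ 0 := left_ne_zero_of_mul t0.ne'
  have m0 : 0 < ρ.mult u.1 (F.pos F.m) := by
    rcases ρ.mult_cases u.1 (F.pos F.m) with e | e <;> rw [e] <;> norm_num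
  refine ⟨F.snoc Y Yh t (ρ.mu (F.pos F.m) / Y.b / ρ.mult u.1 (F.pos F.m)), F.pre_snoc ..,
    hF.snoc _ _ _ _ fun i hi => ⟨fun e => absurd e (hl i hi), fun k e => absurd (e ▸ a1) k⟩, rfl,
    ?_, by rwa [Frame.snoc_t], ?_⟩
  · rw [Frame.snoc_nu]
    refine div_pos ?_ m0
    have : 0 < ρ.mu (F.pos F.m) * Y.b := by
      have := mul_pos h2 t0
      nlinarith [sq_nonneg (ev ρ.q 0 (F.pos F.m))]
    rw [div_eq_mul_inv]
    exact mul_pos_iff.2 (by simpa only [inv_pos, inv_lt_zero] using mul_pos_iff.1 this)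
  · unfold Frame.Atom Frame.FreeE
    rw [Frame.snoc_pos, Frame.snoc_Y, Frame.snoc_Yh, Frame.snoc_t, Frame.snoc_nu]
    exact ⟨hx, a1, by field_simp, a2, a5, a6⟩

theorem fext_btw {δ : ℤ} (hδ : δ = 1 ∨ δ = -1) {x y z : ℝ} (h : δ * x < δ * y) :
    min x y < z ∧ z < max x y ↔ δ * x < δ * z ∧ δ * z < δ * y := by
  rcases hδ with rfl | rfl <;> push_cast at h ⊢
  · rw [min_eq_left (by linarith), max_eq_right (by linarith), one_mul, one_mul, one_mul]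
  · rw [min_eq_right (by linarith), max_eq_left (by linarith)]
    constructor <;> exact fun k => ⟨by linarith [k.2], by linarith [k.1]⟩

theorem fext_sea (hB : S_FBLK) (c : FCx S D ρ u pa v) {F : Frame d} (hF : F.Ch) {δ : ℤ}
    (hδ : δ = 1 ∨ δ = -1) {y : ℝ} (h1 : ρ.m ≤ F.pos F.m) (h2 : F.pos F.m ≤ ρ.M)
    (hy : δ * F.pos F.m < δ * y)
    (hn : ∀ x, δ * F.pos F.m < δ * x → δ * x < δ * y →
      x ∉ ρ.Z ∧ ∀ l < D.n, δ * ev ρ.q 0 x ≠ D.th l)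
    (hl : ∀ i, i + 1 = F.m → (F.Y i).a = δ * D.K0 →
      F.Sea D S ρ i δ ∧ 0 < F.nu i ∧ ∃ l < D.n, δ * ev ρ.q 0 (F.pos F.m) = D.th l) :
    ∃ F' : Frame d, F.Pre F' ∧ F'.Ch ∧ F'.m = F.m + 1 ∧ F'.pos (F.m + 1) = y ∧ 0 < F'.nu F.m ∧
      F'.t F.m ≤ 2 * D.K0 ∧ F'.Sea D S ρ F.m δ := by
  have K0 : (0 : ℝ) < D.K0 := Nat.cast_pos.2 c.sp.K0_pos
  have d2 : (δ : ℝ) * δ = 1 := by rcases hδ with rfl | rfl <;> norm_num
  have hmid : min (F.pos F.m) y < (F.pos F.m + y) / 2 ∧ (F.pos F.m + y) / 2 < max (F.pos F.m) y :=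
    (fext_btw hδ hy).2 ⟨by linarith, by linarith⟩
  obtain ⟨k, hk⟩ : ∃ k, k = D.idx (δ * ev ρ.q 0 ((F.pos F.m + y) / 2)) := ⟨_, rfl⟩
  have kn : k ≤ D.n := hk ▸ D.idx_le _
  obtain ⟨s, s', t, a1, a2, a3⟩ := (hB d S D c.sp).1 k kn δ hδ
  have ea : (s ^ t).a = δ * D.K0 := by
    rw [G.pow_a, a1.2.2.1, ← a2]
    ring
  have hp : F.pos F.m + δ * (y - F.pos F.m) / D.K0 * ((s ^ t).a : ℝ) = y := by
    rw [ea]
    push_cast
    field_simp
    linear_combination (y - F.pos F.m) * d2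
  have hi : ∀ x, min (F.pos F.m) y < x → x < max (F.pos F.m) y →
      x ∉ ρ.Z ∧ D.idx (δ * ev ρ.q 0 x) = k ∧ ∀ l < D.n, δ * ev ρ.q 0 x ≠ D.th l := fun x b1 b2 =>
    have e := fun x (b : x ∈ Set.Ioo (min (F.pos F.m) y) (max (F.pos F.m) y)) =>
      hn x ((fext_btw hδ hy).1 b).1 ((fext_btw hδ hy).1 b).2
    ⟨(e x ⟨b1, b2⟩).1, hk ▸ fext_idx D (g := fun x => δ * ev ρ.q 0 x) (by fun_prop)
      (fun x b => (e x b).2) ⟨b1, b2⟩ hmid, (e x ⟨b1, b2⟩).2⟩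
  refine ⟨F.snoc (s ^ t) (s' ^ t) t (δ * (y - F.pos F.m) / D.K0), F.pre_snoc ..,
    hF.snoc _ _ _ _ fun i e => ⟨fun _ => ?_, fun _ e1 e2 => ?_⟩, rfl, by rwa [Frame.snoc_pos_succ],
    ?_, by rw [Frame.snoc_t]; omega, k, kn, s, s', a1, by rwa [Frame.snoc_t],
    by rw [Frame.snoc_t, Frame.snoc_Y], by rw [Frame.snoc_t, Frame.snoc_Yh], ?_⟩
  · have := c.sp.K0_pos
    rw [ea]
    rcases hδ with rfl | rfl <;> omega
  · obtain ⟨b1, b2, l, b3, b4⟩ := hl i e (e1.symm.trans ea)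
    have b0 := b1.a_eq
    obtain ⟨k', kn', r, r', b5, b6, b7, -, b8⟩ := b1
    have hlt : δ * F.pos i < δ * F.pos F.m := by
      rw [← e, Frame.pos_succ, b0]
      push_cast
      nlinarith [mul_pos b2 K0]
    rw [e] at b8
    have ekk : k' = k := by
      have p := c.sp.a_pos kn
      have p' := c.sp.a_pos kn'
      have q1 : (t : ℝ) * (D.A k).a = D.K0 := by exact_mod_cast a2
      have q2 : (F.t i : ℝ) * (D.A k').a = D.K0 := by exact_mod_cast b6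
      rw [b7, G.pow_b, G.pow_b, a1.2.2.2.1, b5.2.2.2.1] at e2
      have q3 : (t : ℝ) * (δ * (D.A k).b) = F.t i * (δ * (D.A k').b) := by exact_mod_cast e2
      have q4 : D.kap k = D.kap k' := by
        unfold LD.kap
        rw [div_eq_div_iff p.ne' p'.ne']
        refine mul_left_cancel₀ K0.ne' ?_
        linear_combination (δ * (D.A k).a * (D.A k').a) * q3 -
          (t * (D.A k).b - F.t i * (D.A k').b) * (D.A k).a * (D.A k').a * d2 -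
          (D.A k).b * (D.A k').a * q1 + (D.A k').b * (D.A k).a * q2
      rcases lt_trichotomy k' k with h | h | h
      exacts [absurd q4 (c.sp.kap_lt h kn).ne', h, absurd q4 (c.sp.kap_lt h kn').ne]
    have hq : ev ρ.q 1 (F.pos F.m) ≠ 0 := c.lev_ne h1 h2 b3 (by
      rcases hδ with rfl | rfl
      exacts [Or.inl (by simpa using b4), Or.inr (by simpa using b4)])
    have hd := (hasDerivAt_ev ρ.q 0 (F.pos F.m)).const_mul (δ : ℝ)
    have δ0 : (δ : ℝ) ≠ 0 := left_ne_zero_of_mul (d2 ▸ one_ne_zero)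
    have fin : ∀ x x', D.idx (δ * ev ρ.q 0 x) = D.idx (δ * ev ρ.q 0 x') →
        ¬ (δ * ev ρ.q 0 x - δ * ev ρ.q 0 (F.pos F.m)) *
          (δ * ev ρ.q 0 x' - δ * ev ρ.q 0 (F.pos F.m)) < 0 := fun x x' e3 e4 => by
      have w := c.sp.th_lt_iff b3 (δ * ev ρ.q 0 x)
      rw [e3, ← c.sp.th_lt_iff b3] at w
      rw [b4] at e4
      rcases mul_neg_iff.1 e4 with z | z
      · linarith [w.1 (by linarith [z.1]), z.2]
      · linarith [w.2 (by linarith [z.2]), z.1]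
    rcases hδ with rfl | rfl <;> push_cast at hy hlt
    · obtain ⟨x, x', z1, z2, z3, z4, z5⟩ := fext_cross (α := F.pos i) (β := y) hd
        (mul_ne_zero δ0 hq) (by linarith) (by linarith)
      exact fin x x' (by rw [(b8 x (min_lt_of_left_lt z1) (lt_max_of_lt_right z2)).2.1,
        (hi x' (min_lt_of_left_lt z3) (lt_max_of_lt_right z4)).2.1, ekk]) z5
    · obtain ⟨x, x', z1, z2, z3, z4, z5⟩ := fext_cross (α := y) (β := F.pos i) hd
        (mul_ne_zero δ0 hq) (by linarith) (by linarith)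
      exact fin x x' (by rw [(b8 x' (min_lt_of_right_lt z3) (lt_max_of_lt_left z4)).2.1,
        (hi x (min_lt_of_right_lt z1) (lt_max_of_lt_left z2)).2.1, ekk]) z5
  · rw [Frame.snoc_nu]
    exact div_pos (by linarith) K0
  · rwa [Frame.snoc_pos, Frame.snoc_pos_succ, hp]

theorem fext_brk (c : FCx S D ρ u pa v) {δ : ℤ} (hδ : δ = 1 ∨ δ = -1) :
    ∃ B : Finset ℝ, B.card ≤ (D.n + 2) * d ∧
      ∀ x, x ∈ B ↔ x ∈ ρ.Z ∨ ∃ l < D.n, δ * ev ρ.q 0 x = D.th l := by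
  classical
  have hc : ∀ w, (c.nc.finite_level w).1.toFinset.card ≤ d := fun w => by
    have := (c.nc.finite_level w).2
    rw [Set.ncard_eq_toFinset_card _ (c.nc.finite_level w).1] at this
    omega
  refine ⟨ρ.Z ∪ (range D.n).biUnion fun l => (c.nc.finite_level (δ * D.th l)).1.toFinset, ?_,
    fun x => ?_⟩
  · have h1 : ρ.Z ⊆ (c.nc.finite_level D.Q).1.toFinset ∪ (c.nc.finite_level (-D.Q)).1.toFinset :=
      fun z hz => by
        simpa using (abs_eq c.sp.Qpos.le).1 (c.atom hz).2.2.1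
    have h2 := (card_le_card h1).trans ((card_union_le _ _).trans (add_le_add (hc _) (hc _)))
    have h3 := card_biUnion_le_card_mul (range D.n)
      (fun l => (c.nc.finite_level (δ * D.th l)).1.toFinset) d fun l _ => hc _
    rw [card_range] at h3
    refine (card_union_le _ _).trans ?_
    rw [add_mul]
    omega
  · simp only [mem_union, mem_biUnion, mem_range, Set.Finite.mem_toFinset, Set.mem_ofPred_eq]
    refine or_congr_right (exists_congr fun l => and_congr_right fun _ => ?_)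
    rcases hδ with rfl | rfl <;> push_cast <;> constructor <;> intro h <;> linarith

theorem p_FEXT (hFBLK : S_FBLK) :
    S_FEXT := by
  classical
  intro d S D ρ u pa v c δ W F0 x0 x1 hδ hF hp h1 h2 h3 h4 h5 hW hZ hl
  obtain ⟨B, hB, mB⟩ := fext_brk c hδ
  have δ0 : (δ : ℝ) ≠ 0 := by rcases hδ with rfl | rfl <;> norm_num
  have K0 : δ * (D.K0 : ℤ) ≠ 0 := by
    have := c.sp.K0_pos
    rcases hδ with rfl | rfl <;> omega
  have key : ∀ (N : ℕ) (F0 : Frame d) (x0 : ℝ),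
      ((insert x1 B).filter fun b => δ * x0 < δ * b ∧ δ * b ≤ δ * x1).card ≤ N → F0.Ch →
      F0.pos F0.m = x0 → ρ.m ≤ x0 → x0 ≤ ρ.M → δ * x0 ≤ δ * x1 →
      (∀ z ∈ ρ.Z, δ * x0 < δ * z → δ * z < δ * x1 → z ∈ W) →
      (∀ i, i + 1 = F0.m → ((F0.Y i).a = 0 → x0 ∉ W) ∧ (δ * x0 < δ * x1 → x0 ∉ W →
        (F0.Y i).a = δ * D.K0 → F0.Sea D S ρ i δ ∧ 0 < F0.nu i ∧
          ∃ l < D.n, δ * ev ρ.q 0 x0 = D.th l)) →
      ∃ F : Frame d, F0.Pre F ∧ F.Ch ∧ F.pos F.m = x1 ∧ F.m ≤ F0.m + (2 * N + 1) ∧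
        (∀ i, F0.m ≤ i → i < F.m → 0 < F.nu i ∧ F.t i ≤ 2 * D.K0 ∧
          (F.Sea D S ρ i δ ∨ (F.Atom D S ρ u.1 i ∧ F.pos i ∈ W))) ∧
        ∀ z ∈ W, δ * x0 ≤ δ * z → δ * z ≤ δ * x1 →
          ∃ i, F0.m ≤ i ∧ i < F.m ∧ (F.Y i).a = 0 ∧ F.pos i = z := by
    intro N
    induction N using Nat.strong_induction_on with
    | _ N ih =>
    intro F0 x0 hN hF hp h1 h2 h5 hZ hl
    obtain ⟨F1, r1, c1, p1, l1, i1, z1, s1⟩ : ∃ F1 : Frame d, F0.Pre F1 ∧ F1.Ch ∧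
        F1.pos F1.m = x0 ∧ F1.m ≤ F0.m + 1 ∧
        (∀ i, F0.m ≤ i → i < F1.m → 0 < F1.nu i ∧ F1.t i ≤ 2 * D.K0 ∧
          F1.Atom D S ρ u.1 i ∧ F1.pos i ∈ W) ∧
        (x0 ∈ W → ∃ i, F0.m ≤ i ∧ i < F1.m ∧ (F1.Y i).a = 0 ∧ F1.pos i = x0) ∧
        (δ * x0 < δ * x1 → ∀ i, i + 1 = F1.m → (F1.Y i).a = δ * D.K0 →
          F1.Sea D S ρ i δ ∧ 0 < F1.nu i ∧ ∃ l < D.n, δ * ev ρ.q 0 x0 = D.th l) := by
      by_cases hx : x0 ∈ W
      · obtain ⟨F1, a1, a2, a3, a4, a5, a6⟩ := fext_atom hFBLK c hF (hp ▸ hW _ hx)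
          fun i hi e => (hl i hi).1 e hx
        have e := (a1.pos le_rfl).trans hp
        refine ⟨F1, a1, a2, by rw [a3, a6.pos_succ, e], a3.le, fun i b1 b2 => ?_,
          fun _ => ⟨_, le_rfl, by omega, a6.2.1, e⟩, fun _ i b1 b2 => ?_⟩
        · obtain rfl : i = F0.m := by omega
          exact ⟨a4, a5, a6, e ▸ hx⟩
        · obtain rfl : i = F0.m := by omega
          exact absurd (b2.symm.trans a6.2.1) K0
      · exact ⟨F0, .refl _, hF, hp, by omega, fun i b1 b2 => by omega, fun k => absurd k hx,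
          fun k i hi => (hl i hi).2 k hx⟩
    rcases h5.lt_or_eq with h6 | h6
    swap
    · have e := mul_left_cancel₀ δ0 h6
      refine ⟨F1, r1, c1, p1.trans e, by omega, fun i b1 b2 => ?_, fun z hz b1 b2 => ?_⟩
      · exact ⟨(i1 i b1 b2).1, (i1 i b1 b2).2.1, Or.inr (i1 i b1 b2).2.2⟩
      · obtain rfl : z = x0 := mul_left_cancel₀ δ0 (by linarith)
        exact z1 hz
    obtain ⟨y, y1, y2⟩ := exists_min_image
      ((insert x1 B).filter fun b => δ * x0 < δ * b ∧ δ * b ≤ δ * x1) (fun b => δ * b)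
      ⟨x1, mem_filter.2 ⟨mem_insert_self _ _, h6, le_rfl⟩⟩
    obtain ⟨y3, y4, y5⟩ := mem_filter.1 y1
    have y6 : ∀ x ∈ B, δ * x0 < δ * x → ¬ δ * x < δ * y := fun x hx a b =>
      absurd (y2 x (mem_filter.2 ⟨mem_insert_of_mem hx, a, by linarith⟩)) (not_le.2 b)
    obtain ⟨F2, r2, c2, m2, p2, n2, t2, s2⟩ := fext_sea hFBLK c c1 hδ (y := y) (p1 ▸ h1) (p1 ▸ h2)
      (p1 ▸ y4) (fun x a b => ⟨fun k => y6 x ((mB x).2 (Or.inl k)) (p1 ▸ a) b,
        fun l k k' => y6 x ((mB x).2 (Or.inr ⟨l, k, k'⟩)) (p1 ▸ a) b⟩) (p1 ▸ s1 h6)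
    have hlt : ((insert x1 B).filter fun b => δ * y < δ * b ∧ δ * b ≤ δ * x1).card < N :=
      lt_of_lt_of_le (card_lt_card ⟨fun b hb => mem_filter.2 ⟨(mem_filter.1 hb).1,
        y4.trans (mem_filter.1 hb).2.1, (mem_filter.1 hb).2.2⟩,
        fun k => lt_irrefl _ (mem_filter.1 (k y1)).2.1⟩) hN
    have ym : ρ.m ≤ y ∧ y ≤ ρ.M := by
      rcases hδ with rfl | rfl <;> push_cast at y4 y5 <;> constructor <;> linarith
    obtain ⟨F, r3, c3, p3, l3, i3, z3⟩ := ih _ hlt F2 y le_rfl c2 (m2 ▸ p2) ym.1 ym.2 y5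
      (fun z hz a b => hZ z hz (y4.trans a) b) fun i hi => by
        obtain rfl : i = F1.m := by omega
        refine ⟨fun e => absurd (s2.a_eq.symm.trans e) K0, fun a b _ => ⟨s2, n2, ?_⟩⟩
        rcases mem_insert.1 y3 with e | e
        · exact absurd a (by rw [e]; exact lt_irrefl _)
        · exact ((mB y).1 e).resolve_left fun k => b (hZ y k y4 a)
    have r4 := r2.trans r3
    have h7 := r1.1
    have h8 := r3.1
    refine ⟨F, r1.trans r4, c3, p3, by omega, fun i b1 b2 => ?_, fun z hz b1 b2 => ?_⟩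
    · rcases lt_trichotomy i F1.m with k | rfl | k
      · obtain ⟨e1, e2, e3, e4⟩ := i1 i b1 k
        rw [(r4.2 i k).2.2.1, (r4.2 i k).2.2.2, r4.pos k.le]
        exact ⟨e1, e2, Or.inr ⟨r4.atom k e3, e4⟩⟩
      · have k : F1.m < F2.m := by omega
        rw [(r3.2 _ k).2.2.1, (r3.2 _ k).2.2.2]
        exact ⟨n2, t2, Or.inl (r3.sea k s2)⟩
      · exact i3 i (by omega) b2
    · rcases b1.lt_or_eq with b3 | b3
      · obtain ⟨i, e1, e2⟩ := z3 z hz (not_lt.1 (y6 z ((mB z).2 (Or.inl (hW z hz))) b3)) b2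
        exact ⟨i, by omega, e2⟩
      · obtain rfl : x0 = z := mul_left_cancel₀ δ0 b3
        obtain ⟨i, e1, e2, e3, e4⟩ := z1 hz
        exact ⟨i, e1, by omega, by rw [(r4.2 i e2).1, e3], by rw [r4.pos e2.le, e4]⟩
  obtain ⟨F, a1, a2, a3, a4, a5⟩ := key ((D.n + 2) * d + 1) F0 x0
    ((card_filter_le _ _).trans ((card_insert_le _ _).trans (by omega))) hF hp h1 h2 h5 hZ
    fun i hi => ⟨(hl i hi).2, fun _ _ e => absurd e (hl i hi).1⟩
  exact ⟨F, a1, a2, a3, by rw [mul_assoc]; omega, a5⟩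

end Pool.Agent.P.MP_a0f0ad_al.Fi
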