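import Pool.Agent.P.MP_a0f0ad_al.Fi.F.Iface2
import Pool.Agent.P.MP_a0f0ad_al.Fi.Z.Bf
import Pool.Agent.P.MP_a0f0ad_al.Fi.N.Basic

/-! Step FHB of the filiform project. -/

namespace Pool.Agent.P.MP_a0f0ad_al.Fi

open Finset MeasureTheory

namespace FhbA

variable {d : ℕ}

theorem coef {B : ℝ} {g h : G d} (ha : h.a ≠ 0) (ho : g.b * h.a - h.b * g.a ≠ 0)
    (hg : |(g.a : ℝ)| ≤ B ∧ |(g.b : ℝ)| ≤ B) (hh : |(h.a : ℝ)| ≤ B ∧ |(h.b : ℝ)| ≤ B) :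
    1 ≤ B * |(g.b : ℝ) - (h.b : ℝ) / h.a * g.a| ∧
      |(g.b : ℝ) - (h.b : ℝ) / h.a * g.a| ≤ B + B * B := by
  have h1 : (1 : ℝ) ≤ |(h.a : ℝ)| := by exact_mod_cast Int.one_le_abs ha
  have h2 : (1 : ℝ) ≤ |(g.b : ℝ) * h.a - h.b * g.a| := by exact_mod_cast Int.one_le_abs ho
  have h3 : (h.a : ℝ) ≠ 0 := by exact_mod_cast ha
  constructor
  · refine h2.trans (le_trans ?_ (mul_le_mul_of_nonneg_right hh.1 (abs_nonneg _)))
    rw [← abs_mul]
    refine le_of_eq (congrArg _ ?_)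
    field_simp
  · refine (abs_sub _ _).trans (add_le_add hg.2 ?_)
    rw [abs_mul, abs_div]
    exact mul_le_mul ((div_le_self (abs_nonneg _) h1).trans hh.2) hg.1 (abs_nonneg _)
      ((abs_nonneg _).trans hh.1)

theorem dv_diff (F : Frame d) {h : ℕ} (hh : h < F.m) (ha : (F.Y h).a ≠ 0) (g : G d) {s s0 : ℝ}
    (h0 : 0 ≤ s) (h1 : s ≤ 1) (k0 : 0 ≤ s0) (k1 : s0 ≤ 1) :
    F.Dv g (h + s) - F.Dv g (h + s0) = ((g.b : ℝ) - ((F.Y h).b : ℝ) / ((F.Y h).a : ℝ) * g.a) •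
      (Vd 0 (F.pt h s) - Vd 0 (F.pt h s0)) := by
  rw [F.Dv_sea hh ha g h0 h1, F.Dv_sea hh ha g k0 k1, smul_sub]
  abel

/-- the units at one junction -/
theorem junc (F : Frame d) {B η : ℝ} (hη : 0 < η)
    (hY : ∀ i < F.m, |((F.Y i).a : ℝ)| ≤ B ∧ |((F.Y i).b : ℝ)| ≤ B ∧
      ((F.Y i).a ≠ 0 → 3 * η ≤ |F.nu i * ((F.Y i).a : ℝ)|))
    {i : ℕ} (hi : i + 1 < F.m) (ho : F.om (i + 1) ≠ 0) :
    ∃ (g h : ℕ) (bp σ lo hi : ℝ) (τ : ℝ → ℝ), (g < F.m ∧ h < F.m ∧ (h : ℝ) < lo ∧ hi < h + 1) ∧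
      |σ| = 1 ∧ (1 ≤ B * |bp| ∧ |bp| ≤ B + B * B) ∧ ∀ t, η / 2 ≤ t → t ≤ 5 * η / 2 →
        (lo ≤ τ t ∧ τ t ≤ hi) ∧ F.Dv (F.Y g) (τ t) - F.DvI g =
          bp • (Vd 0 (F.pos (i + 1) + σ * t) - Vd 0 (F.pos (i + 1))) := by
  have hi' : i < F.m := by omega
  have b0 := hY i hi'
  have b1 := hY _ hi
  rw [Frame.om, Nat.add_sub_cancel] at ho
  have key : ∀ D : ℝ, 3 * η ≤ |D| → 0 < η / 2 / |D| ∧ 5 * η / 2 / |D| < 1 ∧ |(D / |D|)| = 1 ∧
      ∀ t, η / 2 ≤ t → t ≤ 5 * η / 2 → η / 2 / |D| ≤ t / |D| ∧ t / |D| ≤ 5 * η / 2 / |D| := by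
    intro D hD
    have : 0 < |D| := by linarith
    refine ⟨by positivity, (div_lt_one this).2 (by linarith), ?_, fun t h1 h2 => ⟨?_, ?_⟩⟩
    · rw [abs_div, abs_abs, div_self this.ne']
    all_goals gcongr
  by_cases ha : (F.Y (i + 1)).a = 0
  · have ha' : (F.Y i).a ≠ 0 := fun e => ho (by simp [ha, e])
    obtain ⟨k1, k2, k3, k4⟩ := key _ (b0.2.2 ha')
    refine ⟨i + 1, i, _, -(_ / _), i + (1 - 5 * η / 2 / |F.nu i * ((F.Y i).a : ℝ)|),
      i + (1 - η / 2 / |F.nu i * ((F.Y i).a : ℝ)|),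
      fun t => i + (1 - t / |F.nu i * ((F.Y i).a : ℝ)|), ⟨hi, hi', by linarith, by linarith⟩,
      (abs_neg _).trans k3, coef ha' (fun e => ho (by linarith)) ⟨b1.1, b1.2.1⟩ ⟨b0.1, b0.2.1⟩,
      fun t h1 h2 => ?_⟩
    obtain ⟨k5, k6⟩ := k4 t h1 h2
    refine ⟨⟨by linarith, by linarith⟩, ?_⟩
    rw [Frame.DvI, Nat.cast_succ, dv_diff F hi' ha' _ (by linarith) (by linarith) zero_le_one
      le_rfl, F.pt_one, Frame.pt, F.pos_succ]
    congr 3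
    ring
  · obtain ⟨k1, k2, k3, k4⟩ := key _ (b1.2.2 ha)
    refine ⟨i, i + 1, _, _, (i + 1 : ℕ) + η / 2 / |F.nu (i + 1) * ((F.Y (i + 1)).a : ℝ)|,
      (i + 1 : ℕ) + 5 * η / 2 / |F.nu (i + 1) * ((F.Y (i + 1)).a : ℝ)|,
      fun t => (i + 1 : ℕ) + t / |F.nu (i + 1) * ((F.Y (i + 1)).a : ℝ)|,
      ⟨hi', hi, by linarith, by linarith⟩, k3, coef ha ho ⟨b0.1, b0.2.1⟩ ⟨b1.1, b1.2.1⟩,
      fun t h1 h2 => ?_⟩
    obtain ⟨k5, k6⟩ := k4 t h1 h2
    refine ⟨⟨by linarith, by linarith⟩, ?_⟩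
    rw [← F.Dv_item hi' zero_le_one le_rfl, show (i : ℝ) + 1 = (i + 1 : ℕ) + 0 by simp,
      dv_diff F hi ha _ (by linarith) (by linarith) le_rfl zero_le_one, F.pt_zero, Frame.pt]
    congr 3
    ring

/-- two small values near a point -/
theorem two {L Kb η e p σ : ℝ} {g : Fin d → ℝ} (hK : ∀ (k : ℕ) (x y : ℝ), |x| ≤ L + 2 →
      |y| ≤ L + 2 → |ev g k y - ev g k x| ≤ Kb * ‖g‖ * |y - x| ∧
        |ev g k y - ev g k x - (y - x) * ev g (k + 1) x| ≤ Kb * ‖g‖ * (y - x) ^ 2)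
    (hK0 : 0 ≤ Kb) (hη : 0 < η) (hη1 : η ≤ 1) (hp : |p| ≤ L) (hσ : |σ| = 1) (he : 0 ≤ e)
    (h1 : |ev g 0 (p + σ * (1 * η))| ≤ e) (h2 : |ev g 0 (p + σ * (2 * η))| ≤ e) :
    |ev g 0 p| ≤ 2 * e / η + 5 * Kb * ‖g‖ * η ∧ |ev g 1 p| ≤ 2 * e / η + 5 * Kb * ‖g‖ * η := by
  have a : ∀ n : ℝ, 0 ≤ n → |σ * (n * η)| = n * η := fun n hn => by
    rw [abs_mul, hσ, one_mul, abs_of_nonneg (by positivity)]
  have b : ∀ n : ℝ, 0 ≤ n → n ≤ 2 → |p + σ * (n * η)| ≤ L + 2 := fun n hn hn2 =>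
    (abs_add_le _ _).trans (by rw [a n hn]; nlinarith)
  obtain ⟨c1, c2⟩ := hK 0 p _ (by linarith) (b 1 zero_le_one one_le_two)
  obtain ⟨-, c3⟩ := hK 0 p _ (by linarith) (b 2 zero_le_two le_rfl)
  rw [add_sub_cancel_left] at c1 c2 c3
  rw [← sq_abs (σ * _), a _ (by norm_num)] at c2 c3
  rw [a _ (by norm_num)] at c1
  have c4 : 0 ≤ Kb * ‖g‖ * η := by positivity
  constructor
  · have : e ≤ 2 * e / η := by
      rw [le_div_iff₀ hη]
      nlinarith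
    have := abs_sub_abs_le_abs_sub (ev g 0 p) (ev g 0 (p + σ * (1 * η)))
    rw [abs_sub_comm] at c1
    linarith
  · have c5 : |σ * (1 * η) * ev g (0 + 1) p| ≤ 2 * e + 5 * (Kb * ‖g‖ * η ^ 2) := by
      rw [abs_le] at h1 h2 c2 c3 ⊢
      constructor <;> linarith [h1.1, h1.2, h2.1, h2.2, c2.1, c2.2, c3.1, c3.2]
    rw [abs_mul, a _ zero_le_one, one_mul] at c5
    refine le_of_mul_le_mul_left (c5.trans_eq ?_) hη
    field_simp

theorem abs_le_dv (f : Fin d → ℝ) (j : Fin d) (hj : 1 ≤ (j : ℕ)) : |f j| ≤ ‖dv f‖ := by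
  refine le_trans ?_ (norm_le_pi_norm (dv f) ⟨j - 1, by omega⟩)
  simp only [dv, Nat.sub_add_cancel hj, co_coe, Real.norm_eq_abs, abs_mul]
  refine le_mul_of_one_le_left (abs_nonneg _) (le_trans ?_ (le_abs_self _))
  exact le_add_of_nonneg_left (Nat.cast_nonneg _)

end FhbA

open FhbA in
theorem p_FHB (hFCOV : S_FCOV) :
    S_FHB := by
  intro d K L B0 hK
  obtain ⟨B, hB, hB0⟩ : ∃ B : ℝ, 1 ≤ B ∧ B0 ≤ B := ⟨max 1 B0, le_max_left _ _, le_max_right _ _⟩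
  have hK1 : (1 : ℝ) ≤ (K : ℝ) ^ 2 := one_le_pow₀ (by exact_mod_cast hK)
  obtain ⟨B', hB1, hB2⟩ : ∃ B' : ℝ, 2 * B ≤ B' ∧ (K : ℝ) ^ 2 * (B + B * B) ≤ B' :=
    ⟨max _ _, le_max_left _ _, le_max_right _ _⟩
  obtain ⟨C1, hC1, hcov⟩ := hFCOV d (L + 2) B'
  obtain ⟨Kb, hKb, hbd⟩ := n_bd d (L + 2)
  obtain ⟨CT, hCT, hT⟩ := exists_Vd_taylor d (L + 2)
  obtain ⟨C, c1, c2, c3⟩ : ∃ C : ℝ, 16 * C1 ^ 2 ≤ C ∧ 10 * Kb ≤ C ∧ B' * (B' * (CT * 2)) ≤ C :=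
    ⟨max _ (max _ _), le_max_left _ _, le_max_of_le_right (le_max_left _ _),
      le_max_of_le_right (le_max_right _ _)⟩
  have hC : 1 ≤ C := by linarith
  refine ⟨C, hC, fun F v η hη hv hv1 hm hpos hY hom hden => ?_⟩
  have hηv : η ≤ v := (le_mul_of_one_le_left hη.le hC).trans hv
  have hv0 : 0 < v := hη.trans_le hηv
  have hη1 : η ≤ 1 := hηv.trans hv1
  have hvη : 0 < v * η := mul_pos hv0 hη
  choose! g h bp σ lo hi τ p1 p2 p3 p4 using fun (i : ℕ) (hi : i + 1 < F.m) =>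
    junc F (B := B) hη (fun i hi => ⟨(hY i hi).1.trans hB0, (hY i hi).2.1.trans hB0,
      (hY i hi).2.2⟩) hi (hom _ (by omega) hi)
  obtain ⟨n, hn⟩ : ∃ n : ℕ → ℝ, n = fun l => if l % 2 = 0 then 1 else 2 := ⟨_, rfl⟩
  have hn1 : ∀ l, 1 ≤ n l ∧ n l ≤ 2 := fun l => by
    simp only [hn]
    split_ifs <;> norm_num
  have hl : ∀ l < 2 * (F.m - 1), l / 2 + 1 < F.m := fun l hl => by omega
  have hr : ((2 * (F.m - 1) : ℕ) : ℝ) ≤ B' := by
    have : ((2 * (F.m - 1) : ℕ) : ℝ) ≤ (2 * F.m : ℕ) := Nat.cast_le.2 (by omega)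
    push_cast at this ⊢
    linarith
  have ha : ∀ l < 2 * (F.m - 1), |σ (l / 2) * (n l * η)| = n l * η := fun l k => by
    rw [abs_mul, p2 _ (hl l k), one_mul, abs_of_nonneg (mul_nonneg (by linarith [hn1 l]) hη.le)]
  have hξ : ∀ l < 2 * (F.m - 1), |F.pos (l / 2 + 1) + σ (l / 2) * (n l * η)| ≤ L + 2 :=
    fun l k => (abs_add_le _ _).trans (add_le_add (hpos _ (hl l k).le) (by
      rw [ha l k]
      nlinarith [hn1 l]))
  have hc : ∀ l < 2 * (F.m - 1), 1 ≤ B' * |(K : ℝ) ^ 2 * bp (l / 2)| ∧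
      |(K : ℝ) ^ 2 * bp (l / 2)| ≤ B' := fun l k => by
    obtain ⟨k1, k2⟩ := p3 _ (hl l k)
    rw [abs_mul, abs_of_nonneg (by linarith : (0 : ℝ) ≤ (K : ℝ) ^ 2)]
    exact ⟨k1.trans (mul_le_mul (by linarith) (le_mul_of_one_le_left (abs_nonneg _) hK1)
      (abs_nonneg _) (by linarith)), (mul_le_mul_of_nonneg_left k2 (by linarith)).trans hB2⟩
  have hcv := hcov (2 * (F.m - 1)) (fun l => (K : ℝ) ^ 2 * bp (l / 2))
    (fun l => F.pos (l / 2 + 1) + σ (l / 2) * (n l * η)) (4 / (v * η)) (v * η / (4 * C1)) hr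
    (by rw [le_div_iff₀ hvη]; nlinarith) (by positivity) (le_of_eq (by field_simp))
    (fun l k => ⟨hξ l k, hc l k⟩) fun f e he hf j hj => by
      have k := hden (dv f) (2 * e / η + 5 * Kb * ‖dv f‖ * η) (by positivity) fun j h1 h2 => by
        obtain ⟨i, rfl⟩ : ∃ i, j = i + 1 := ⟨j - 1, by omega⟩
        have k1 := hf (2 * i) (by omega)
        have k2 := hf (2 * i + 1) (by omega)
        simp only [hn, show 2 * i / 2 = i by omega, show (2 * i + 1) / 2 = i by omega,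
          show 2 * i % 2 = 0 by omega, show (2 * i + 1) % 2 = 1 by omega, if_true, one_ne_zero,
          if_false] at k1 k2
        exact two (fun k x y hx hy => (hbd (dv f) k x y hx hy).2) (by linarith) hη hη1
          (hpos _ h2.le) (p2 i h2) he (by rwa [ev_dv]) (by rwa [ev_dv])
      refine (abs_le_dv f j hj).trans ?_
      have k3 : 10 * Kb * η * ‖dv f‖ ≤ v * ‖dv f‖ := by
        gcongr
        exact (mul_le_mul_of_nonneg_right c2 hη.le).trans hv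
      have k4 : v * ‖dv f‖ ≤ 4 * e / η := by
        have : 4 * e / η = 2 * (2 * e / η) := by ring
        linarith
      rw [le_div_iff₀ hη] at k4
      rw [div_mul_eq_mul_div, le_div_iff₀ hvη]
      linarith
  refine ⟨∑ l ∈ range (2 * (F.m - 1)), ((K : ℝ) ^ 2 * bp (l / 2)) •
    (Vd 0 (F.pos (l / 2 + 1) + σ (l / 2) * (n l * η)) - Vd 0 (F.pos (l / 2 + 1))),
    ⟨2 * (F.m - 1), fun l => g (l / 2), fun l => lo (l / 2), fun l => hi (l / 2),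
      fun l k => ⟨(p1 _ (hl l k)).1, _, (p1 _ (hl l k)).2⟩, fun e he hen => ?_⟩, ?_⟩
  · obtain ⟨x, x1, x2⟩ := hcv e he (by
      calc _ ≤ C1 * (4 / (v * η)) * ((v * η) ^ 2 / (16 * C1 ^ 2)) := by
            gcongr
            exact hen.trans (by gcongr)
        _ = _ := by field_simp; norm_num)
    have hε : v * η / (4 * C1) ≤ η / 2 := by
      rw [div_le_div_iff₀ (by positivity) (by positivity)]
      nlinarith
    have key : ∀ l < 2 * (F.m - 1), _ := fun l k => p4 _ (hl l k)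
      (n l * η + σ (l / 2) * (x l - (F.pos (l / 2 + 1) + σ (l / 2) * (n l * η))))
      (by
        have := (x1 l k).trans hε
        rw [← one_mul |_|, ← p2 _ (hl l k), ← abs_mul, abs_le] at this
        nlinarith [hn1 l, this.1])
      (by
        have := (x1 l k).trans hε
        rw [← one_mul |_|, ← p2 _ (hl l k), ← abs_mul, abs_le] at this
        nlinarith [hn1 l, this.2])
    refine ⟨_, fun l k => (key l k).1, ?_⟩
    rw [← x2, ← sum_add_distrib]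
    refine sum_congr rfl fun l k => ?_
    have k := mem_range.1 k
    have k2 : σ (l / 2) * σ (l / 2) = 1 := by rw [← abs_mul_abs_self, p2 _ (hl l k), one_mul]
    rw [(key l k).2, smul_smul, ← smul_add, add_comm (_ - _), sub_add_sub_cancel]
    congr 3
    linear_combination (x l - (F.pos (l / 2 + 1) + σ (l / 2) * (n l * η))) * k2
  · calc _ ≤ ∑ _l ∈ range (2 * (F.m - 1)), B' * (CT * (2 * η)) := by
          refine norm_sum_le_of_le _ fun l k => ?_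
          have k := mem_range.1 k
          rw [norm_smul]
          refine mul_le_mul (hc l k).2 ((hT 0 _ _ ((hpos _ (hl l k).le).trans (by linarith))
            (hξ l k)).1.trans ?_) (norm_nonneg _) (by linarith)
          rw [add_sub_cancel_left, ha l k]
          gcongr
          exact (hn1 l).2
      _ ≤ B' * (B' * (CT * (2 * η))) := by
          rw [sum_const, card_range, nsmul_eq_mul]
          have : 0 ≤ B' := by linarith
          gcongr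
      _ = B' * (B' * (CT * 2)) * η := by ring
      _ ≤ _ := by gcongr

end Pool.Agent.P.MP_a0f0ad_al.Fi
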