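import Pool.Agent.P.MP_a0f0ad_al.Fi.F.Iface2
import Pool.Agent.P.MP_a0f0ad_al.Fi.F.Basic

/-! Step FINT of the filiform project. -/

namespace Pool.Agent.P.MP_a0f0ad_al.Fi

open Finset MeasureTheory

namespace FintA

variable {d : ℕ} {S : Finset (G d)} {D : LD d} {ρ : RD d} {a : ℝ} {F : Frame d} {i i1 i2 : ℕ}
  {δ : ℤ}

theorem item1 (hD : D.Spec S) (hδ : δ = 1 ∨ δ = -1) (hν : 0 < F.nu i)
    (h : F.Sea D S ρ i δ ∨ F.Atom D S ρ a i) (g : ℝ → ℝ) :
    ∫ s in (0 : ℝ)..1, F.nu i * ((F.Y i).b : ℝ) * g (F.pt i s) =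
      (∫ x in F.pos i..F.pos (i + 1), D.kp (δ * ev ρ.q 0 x) * g x) +
        if (F.Y i).a = 0 then F.nu i * ((F.Y i).b : ℝ) * g (F.pos i) else 0 := by
  rcases h with h | h
  · obtain ⟨k, -, h1, -, h2, -⟩ := h.data hD hδ hν
    rw [if_neg (h.a_ne hD hδ), add_zero, ← F.int_item]
    refine intervalIntegral.integral_congr_Ioo_of_le zero_le_one fun s hs => ?_
    rw [LD.kp, (h2 s hs.1 hs.2).2.1, h1]
    ring
  · rw [if_pos h.2.1, h.pos_succ, intervalIntegral.integral_same, zero_add]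
    simp [Frame.pt, h.2.1]

theorem item2 (hD : D.Spec S) (hδ : δ = 1 ∨ δ = -1) (hν : 0 < F.nu i)
    (h : F.Sea D S ρ i δ ∨ F.Atom D S ρ a i) :
    F.nu i * (F.t i : ℝ) =
      (∫ x in F.pos i..F.pos (i + 1), δ * (((D.A (D.idx (δ * ev ρ.q 0 x))).a : ℝ))⁻¹) +
        if (F.Y i).a = 0 then F.nu i * ((F.Y i).b : ℝ) * ev ρ.q 0 (F.pos i) else 0 := by
  rcases h with h | h
  · obtain ⟨k, hk, -, h1, h2, -⟩ := h.data hD hδ hν
    rw [if_neg (h.a_ne hD hδ), add_zero, ← F.int_item,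
      intervalIntegral.integral_congr_Ioo_of_le zero_le_one (g := fun _ => F.nu i * (F.t i : ℝ))
        fun s hs => ?_]
    · simp
    · have h3 := (hD.a_pos hk).ne'
      dsimp only
      rw [(h2 s hs.1 hs.2).2.1, h.a_eq]
      push_cast
      rw [← h1]
      rcases hδ with rfl | rfl <;> push_cast <;> field_simp
  · rw [if_pos h.2.1, h.pos_succ, intervalIntegral.integral_same, zero_add, h.2.2.2.1, mul_assoc]

theorem path (h : F.Ph D S ρ a i1 i2) {P N : ℝ → ℝ}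
    (hP : ∀ s t, IntervalIntegrable P volume s t) (hN : ∀ s t, IntervalIntegrable N volume s t)
    (w c : ℕ → ℝ)
    (hu : ∀ i, i1 ≤ i → i < i2 → w i = (∫ x in F.pos i..F.pos (i + 1), P x) + c i)
    (hd : ∀ i < F.m, i < i1 ∨ i2 ≤ i → w i = (∫ x in F.pos i..F.pos (i + 1), N x) + c i) :
    ∑ i ∈ range F.m, w i = (∫ x in ρ.m..ρ.M, P x) - (∫ x in ρ.m..0, N x) -
      (∫ x in a..ρ.M, N x) + ∑ i ∈ range F.m, c i := by
  have h12 := h.h12
  have h2m := h.h2m
  rw [← sub_eq_iff_eq_add, ← sum_sub_distrib, ← sum_range_add_sum_Ico _ (h12.trans h2m),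
    ← sum_Ico_consecutive _ h12 h2m,
    sum_congr (s₁ := range i1) rfl fun i hi =>
      sub_eq_iff_eq_add.2 (hd i (by have := mem_range.1 hi; omega) (.inl (mem_range.1 hi))),
    sum_congr (s₁ := Ico i1 i2) rfl fun i hi =>
      sub_eq_iff_eq_add.2 (hu i (mem_Ico.1 hi).1 (mem_Ico.1 hi).2),
    sum_congr (s₁ := Ico i2 F.m) rfl fun i hi =>
      sub_eq_iff_eq_add.2 (hd i (mem_Ico.1 hi).2 (.inr (mem_Ico.1 hi).1)),
    intervalIntegral.sum_integral_adjacent_intervals fun k _ => hN _ _,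
    intervalIntegral.sum_integral_adjacent_intervals_Ico h12 fun k _ => hP _ _,
    intervalIntegral.sum_integral_adjacent_intervals_Ico h2m fun k _ => hN _ _,
    F.pos_zero, h.p1, h.p2, h.pm, intervalIntegral.integral_symm ρ.m 0,
    intervalIntegral.integral_symm a ρ.M]
  ring

end FintA

open FintA in
theorem p_FINT (hFATM : S_FATM) :
    S_FINT := by
  intro d S D ρ u pa v F i1 i2 c h
  have hD := c.sp
  have hA := fun φ => (hFATM d S D ρ u pa v F i1 i2 c h φ).2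
  have c1 : Continuous (ev ρ.q 0) := continuous_ev ρ.q 0
  have c0 : Continuous fun x => -ev ρ.q 0 x := c1.neg
  have hu := c.opt.1.2.2.2.2.2
  have hm : ∀ i, i < i2 → i < F.m := fun i hi => hi.trans_le h.h2m
  constructor
  · funext j
    have c2 : Continuous fun x => (Vd 0 x : Fin d → ℝ) j := by fun_prop
    rw [Frame.yF, path h (hD.ii_kp c1 c2) (hD.ii_kp c0 c2) _ _
      (fun i h1 h2 => by
        simpa only [Int.cast_one, one_mul] using
          item1 hD (.inl rfl) (h.nu i (hm i h2)) (h.up i h1 h2) fun x => Vd 0 x j)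
      (fun i h1 h2 => by
        simpa only [Int.cast_neg, Int.cast_one, neg_one_mul] using
          item1 hD (.inr rfl) (h.nu i h1) ((h.dn i h1 h2).imp_right And.left) fun x => Vd 0 x j),
      hA fun x => Vd 0 x j, hu]
    simp only [Pi.add_apply, Finset.sum_apply, Pi.smul_apply, smul_eq_mul, LD.Yq]
  · have e1 : ∀ s t, ∫ x in s..t, D.lp (ev ρ.q 0 x) =
        (∫ x in s..t, (((D.A (D.idx (ev ρ.q 0 x))).a : ℝ))⁻¹) -
          ∫ x in s..t, D.kp (ev ρ.q 0 x) * ev ρ.q 0 x := fun s t => by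
      rw [← intervalIntegral.integral_sub (hD.ii_inv_a c1 s t) (hD.ii_kp c1 c1 s t)]
      simp only [LD.lp_eq]
    have e2 : ∀ s t, ∫ x in s..t, D.lp (-ev ρ.q 0 x) =
        (∫ x in s..t, (((D.A (D.idx (-ev ρ.q 0 x))).a : ℝ))⁻¹) +
          ∫ x in s..t, D.kp (-ev ρ.q 0 x) * ev ρ.q 0 x := fun s t => by
      rw [← intervalIntegral.integral_add (hD.ii_inv_a c0 s t) (hD.ii_kp c0 c1 s t)]
      simp only [LD.lp_eq, mul_neg, sub_neg_eq_add]
    rw [path h (hD.ii_inv_a c1) (N := fun x => -(((D.A (D.idx (-ev ρ.q 0 x))).a : ℝ))⁻¹)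
      (fun s t => (hD.ii_inv_a c0 s t).neg) _ _
      (fun i h1 h2 => by
        simpa only [Int.cast_one, one_mul] using
          item2 hD (.inl rfl) (h.nu i (hm i h2)) (h.up i h1 h2))
      (fun i h1 h2 => by
        simpa only [Int.cast_neg, Int.cast_one, neg_one_mul] using
          item2 hD (.inr rfl) (h.nu i h1) ((h.dn i h1 h2).imp_right And.left)),
      hA, ← c.opt.2.1, LD.Bf, hu, dot_add_right, hD.dot_Yq, dot_sum_right, e1, e2, e2]
    simp only [dot_smul_right, intervalIntegral.integral_neg, ev]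
    ring

end Pool.Agent.P.MP_a0f0ad_al.Fi
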