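import Pool.Agent.P.MP_a0f0ad_al.Fi.F.Iface2
import Pool.Agent.P.MP_a0f0ad_al.Fi.F.Basic

/-! Step FJUN of the filiform project. -/

namespace Pool.Agent.P.MP_a0f0ad_al.Fi

open Finset MeasureTheory

namespace FjunA

open Filter Topology

variable {d : ℕ}

theorem ev01 : ∀ᶠ s in 𝓝[>] (0 : ℝ), 0 < s ∧ s < 1 := Ioo_mem_nhdsGT zero_lt_one

theorem dir (q : Fin d → ℝ) {c σ y : ℝ}
    (h : ∀ s : ℝ, 0 < s → s < 1 → c * ev q 0 (y + s * σ) ≤ c * ev q 0 y) :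
    c * σ * ev q 1 y ≤ 0 := by
  have h1 : HasDerivAt (fun s : ℝ => y + s * σ) σ 0 := by
    simpa using ((hasDerivAt_id (0 : ℝ)).mul_const σ).const_add y
  have h2 : HasDerivAt (fun s : ℝ => c * ev q 0 (y + s * σ)) (c * (ev q 1 (y + 0 * σ) * σ)) 0 :=
    (HasDerivAt.comp (h₂ := ev q 0) (h := fun s : ℝ => y + s * σ) (0 : ℝ)
      (hasDerivAt_ev q 0 (y + 0 * σ)) h1).const_mul c
  have h3 := h2.tendsto_slope_zero_right
  have h4 := le_of_tendsto h3 (b := 0) (ev01.mono fun s hs => by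
    simp only [zero_add, zero_mul, add_zero, smul_eq_mul]
    exact mul_nonpos_of_nonneg_of_nonpos (inv_nonneg.2 hs.1.le) (by linarith [h s hs.1 hs.2]))
  simp only [zero_mul, add_zero] at h4
  linarith

theorem lim (q : Fin d → ℝ) {c σ y w : ℝ}
    (h : ∀ s : ℝ, 0 < s → s < 1 → c * ev q 0 (y + s * σ) ≤ w) : c * ev q 0 y ≤ w := by
  have h1 : Continuous fun s : ℝ => c * ev q 0 (y + s * σ) := by fun_prop
  have h2 := (h1.tendsto 0).mono_left (nhdsWithin_le_nhds (s := Set.Ioi 0))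
  simpa using le_of_tendsto h2 (ev01.mono fun s hs => h s hs.1 hs.2)

theorem idx_lim {S : Finset (G d)} {D : LD d} (hD : D.Spec S) (q : Fin d → ℝ) {c σ y : ℝ} {k : ℕ}
    (hk : k ≤ D.n) (h : ∀ s : ℝ, 0 < s → s < 1 → D.idx (c * ev q 0 (y + s * σ)) = k)
    (hQ : |c * ev q 0 y| = D.Q) : D.kap k = D.kp (c * ev q 0 y) := by
  rw [LD.kp]
  congr 1
  rcases abs_cases (c * ev q 0 y) with e | e
  · rw [hD.idx_Q (by linarith [e.1])]
    by_contra k1
    have k2 : k < D.n := lt_of_le_of_ne hk k1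
    have := lim q fun s h0 h1 => ((hD.idx_eq_iff hk _).1 (h s h0 h1)).2 k2
    linarith [(hD.thQ k k2).2, e.1]
  · rw [hD.idx_negQ (by linarith [e.1])]
    by_contra k1
    have k2 : 0 < k := Nat.pos_of_ne_zero k1
    have := lim q (c := -c) (w := -D.th 0) fun s h0 h1 => by
      linarith [((hD.idx_eq_iff hk _).1 (h s h0 h1)).1 0 k2]
    linarith [(hD.thQ 0 (k2.trans_le hk)).1, e.1]

theorem tha (D : LD d) {w : ℝ} (h : |w| = D.Q) : w ∈ D.ThA := by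
  rcases abs_cases w with a | a
  · exact Or.inl (a.1 ▸ h)
  · exact Or.inr (Or.inl (by linarith [a.1]))

theorem mul_le {b x y Q : ℝ} (h : 0 < b * y) (hy : |y| = Q) (hx : |x| ≤ Q) : b * x ≤ b * y := by
  rw [← abs_of_pos h, abs_mul, hy]
  exact (le_abs_self _).trans (by rw [abs_mul]; gcongr)

theorem be_sign {S : Finset (G d)} {D : LD d} (hD : D.Spec S) (h0 : D.om D.Q = 0) {y : ℝ}
    (hy : |y| = D.Q) : ∃ c : ℝ, 0 < c ∧ D.be y = c * y := by
  have h1 := hD.be_Q_pos h0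
  have h2 := hD.Qpos
  refine ⟨D.be D.Q / D.Q, by positivity, ?_⟩
  rcases abs_cases y with e | e
  · rw [show y = D.Q by linarith [e.1]]; field_simp
  · rw [show y = -D.Q by linarith [e.1], D.be_neg]; field_simp

end FjunA

theorem p_FJUN :
    S_FJUN := by
  intro d S D ρ u pa v F i1 i2 c h j hj1 hj
  obtain ⟨i, rfl⟩ : ∃ i, j = i + 1 := ⟨j - 1, by omega⟩
  have hD := c.sp
  have hi : i < F.m := by omega
  have eom : F.om (i + 1) = (F.Y i).b * (F.Y (i + 1)).a - (F.Y (i + 1)).b * (F.Y i).a := by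
    simp [Frame.om]
  have n1 := h.nu i hi
  have n2 := h.nu (i + 1) hj
  have e1 : ∀ s : ℝ, F.pos (i + 1) + s * -(F.nu i * ((F.Y i).a : ℝ)) = F.pt i (1 - s) := fun s => by
    rw [Frame.pt, F.pos_succ]; ring
  have f1 : ∀ s : ℝ, 0 < s → s < 1 →
      |ev ρ.q 0 (F.pos (i + 1) + s * -(F.nu i * ((F.Y i).a : ℝ)))| ≤ D.Q := fun s h0 h1 => by
    rw [e1]; exact c.feas _ (h.mem_pt c hi (by linarith) (by linarith))
  have f2 : ∀ s : ℝ, 0 < s → s < 1 →
      |ev ρ.q 0 (F.pos (i + 1) + s * (F.nu (i + 1) * ((F.Y (i + 1)).a : ℝ)))| ≤ D.Q :=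
    fun s h0 h1 => c.feas _ (h.mem_pt c hj h0.le h1.le)
  have atm : ∀ l < F.m, (F.Y l).a = 0 → |ev ρ.q 0 (F.pos l)| = D.Q ∧
      0 < ((F.Y l).b : ℝ) * ev ρ.q 0 (F.pos l) := fun l hl ha => by
    obtain ⟨k1, -, k2, -⟩ := h.atom hD hl ha
    obtain ⟨-, -, k3, k4⟩ := c.atom k1
    refine ⟨k3, ?_⟩
    rw [← k2] at k4
    have k5 : 0 < F.nu l * ρ.mult u.1 (F.pos l) := by
      have := h.nu l hl
      rcases ρ.mult_cases u.1 (F.pos l) with e | e <;> rw [e] <;> positivity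
    exact (mul_pos_iff_of_pos_left k5).1 (by linarith)
  by_cases a1 : (F.Y i).a = 0
  · have a2 := h.aa i hj a1
    obtain ⟨k1, k2⟩ := atm i hi a1
    rw [← (h.atom hD hi a1).pos_succ] at k1 k2
    have k3 := FjunA.dir ρ.q fun s h0 h1 => FjunA.mul_le k2 k1 (f2 s h0 h1)
    have b0 : (F.Y i).b ≠ 0 := fun e => by simp [e] at k2
    rw [eom, a1, mul_zero, sub_zero]
    refine ⟨mul_ne_zero b0 a2, FjunA.tha D k1, ?_⟩
    push_cast
    exact nonpos_of_mul_nonpos_right (by linarith) n2 |> fun k => k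
  by_cases a2 : (F.Y (i + 1)).a = 0
  · obtain ⟨k1, k2⟩ := atm (i + 1) hj a2
    have k3 := FjunA.dir ρ.q fun s h0 h1 => FjunA.mul_le k2 k1 (f1 s h0 h1)
    have b0 : (F.Y (i + 1)).b ≠ 0 := fun e => by simp [e] at k2
    rw [eom, a2, mul_zero, zero_sub]
    refine ⟨neg_ne_zero.2 (mul_ne_zero b0 a1), FjunA.tha D k1, ?_⟩
    push_cast
    exact nonpos_of_mul_nonpos_right (by linarith) n1 |> fun k => k
  obtain ⟨δ, hδ, s1⟩ := h.sea hD hi a1
  obtain ⟨δ', hδ', s2⟩ := h.sea hD hj a2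
  obtain ⟨k, hk, b1, -, g1, -⟩ := s1.data hD hδ n1
  obtain ⟨k', hk', b2, -, g2, -⟩ := s2.data hD hδ' n2
  have z1 := s1.a_eq
  have z2 := s2.a_eq
  have r1 : ((F.Y i).a : ℝ) = δ * D.K0 := by exact_mod_cast z1
  have r2 : ((F.Y (i + 1)).a : ℝ) = δ' * D.K0 := by exact_mod_cast z2
  have hK : (0 : ℝ) < D.K0 := Nat.cast_pos.2 hD.K0_pos
  have hKz := hD.K0_pos
  have x1 : ∀ s : ℝ, 0 < s → s < 1 →
      D.idx (δ * ev ρ.q 0 (F.pos (i + 1) + s * -(F.nu i * ((F.Y i).a : ℝ)))) = k :=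
    fun s h0 h1 => by rw [e1]; exact (g1 _ (by linarith) (by linarith)).2.1
  have x2 : ∀ s : ℝ, 0 < s → s < 1 →
      D.idx (δ' * ev ρ.q 0 (F.pos (i + 1) + s * (F.nu (i + 1) * ((F.Y (i + 1)).a : ℝ)))) = k' :=
    fun s h0 h1 => (g2 s h0 h1).2.1
  have rom : (F.om (i + 1) : ℝ) = (D.kap k - D.kap k') * (δ * δ') * (D.K0 : ℝ) ^ 2 := by
    rw [eom]; push_cast; rw [b1, b2, r1, r2]; ring
  have pK : 0 < F.nu (i + 1) * D.K0 := by positivity
  have pK2 : 0 < (D.K0 : ℝ) ^ 2 := by positivity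
  suffices H : (F.om (i + 1) : ℝ) ≠ 0 ∧ ev ρ.q 0 (F.pos (i + 1)) ∈ D.ThA ∧
      (F.om (i + 1) : ℝ) * ev ρ.q 1 (F.pos (i + 1)) ≤ 0 from ⟨by exact_mod_cast H.1, H.2⟩
  by_cases hdd : δ = δ'
  · subst hdd
    have d2 : (δ : ℝ) * δ = 1 := by rcases hδ with e | e <;> simp [e]
    have eσ : (δ : ℝ) * (F.nu (i + 1) * ((F.Y (i + 1)).a : ℝ)) = F.nu (i + 1) * D.K0 := by
      rw [r2]; linear_combination F.nu (i + 1) * D.K0 * d2
    have mem : ∀ l < D.n, δ * ev ρ.q 0 (F.pos (i + 1)) = D.th l →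
        ev ρ.q 0 (F.pos (i + 1)) ∈ D.ThA := fun l hl e =>
      Or.inr (Or.inr ⟨l, hl, by
        rcases hδ with e' | e' <;> rw [e'] at e <;> push_cast at e
        · left; linarith
        · right; linarith⟩)
    rw [rom, d2, mul_one]
    rcases lt_trichotomy k k' with t | t | t
    · have t1 := t.trans_le hk'
      have t2 := hD.kap_lt t hk'
      have l2 : ∀ s : ℝ, 0 < s → s < 1 → -(δ : ℝ) * ev ρ.q 0 (F.pos (i + 1) +
          s * (F.nu (i + 1) * ((F.Y (i + 1)).a : ℝ))) ≤ -D.th k := fun s h0 h1 => by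
        linarith [((hD.idx_eq_iff hk' _).1 (x2 s h0 h1)).1 k t]
      have l1 := FjunA.lim ρ.q fun s h0 h1 => ((hD.idx_eq_iff hk _).1 (x1 s h0 h1)).2 t1
      have l3 := FjunA.lim ρ.q l2
      have l4 := FjunA.dir ρ.q (c := -(δ : ℝ)) fun s h0 h1 => (l2 s h0 h1).trans (by linarith)
      rw [neg_mul, eσ] at l4
      have l5 : 0 ≤ ev ρ.q 1 (F.pos (i + 1)) := nonneg_of_mul_nonneg_right (by linarith) pK
      have l6 : (D.kap k - D.kap k') * (D.K0 : ℝ) ^ 2 < 0 := mul_neg_of_neg_of_pos (by linarith) pK2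
      exact ⟨l6.ne, mem k t1 (by linarith), mul_nonpos_of_nonpos_of_nonneg l6.le l5⟩
    · exfalso
      refine h.ss i hj a1 (z2.trans z1.symm) ?_
      have : ((F.Y (i + 1)).b : ℝ) = (F.Y i).b := by rw [b1, b2, r1, r2, t]
      exact_mod_cast this
    · have t1 := t.trans_le hk
      have t2 := hD.kap_lt t hk
      have l2 := fun s h0 h1 => ((hD.idx_eq_iff hk' _).1 (x2 s h0 h1)).2 t1
      have l1 := FjunA.lim ρ.q (c := -(δ : ℝ)) (w := -D.th k') fun s h0 h1 => by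
        linarith [((hD.idx_eq_iff hk _).1 (x1 s h0 h1)).1 k' t]
      have l3 := FjunA.lim ρ.q l2
      have l4 := FjunA.dir ρ.q (c := (δ : ℝ)) fun s h0 h1 => (l2 s h0 h1).trans (by linarith)
      rw [eσ] at l4
      have l5 : ev ρ.q 1 (F.pos (i + 1)) ≤ 0 := nonpos_of_mul_nonpos_right l4 pK
      have l6 : 0 < (D.kap k - D.kap k') * (D.K0 : ℝ) ^ 2 := mul_pos (by linarith) pK2
      exact ⟨l6.ne', mem k' t1 (by linarith), mul_nonpos_of_nonneg_of_nonpos l6.le l5⟩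
  have up : ∀ l, i1 ≤ l → l < i2 → 0 ≤ (F.Y l).a := fun l l1 l2 => by
    rcases h.a_up hD l1 l2 with e | e <;> omega
  have dn : ∀ l < F.m, l < i1 ∨ i2 ≤ l → (F.Y l).a ≤ 0 := fun l l1 l2 => by
    rcases h.a_dn hD l1 l2 with e | e <;> omega
  have fin : |ev ρ.q 0 (F.pos (i + 1))| = D.Q → D.om D.Q = 0 → δ = -δ' →
      (F.om (i + 1) : ℝ) ≠ 0 ∧ ev ρ.q 0 (F.pos (i + 1)) ∈ D.ThA ∧
      (F.om (i + 1) : ℝ) * ev ρ.q 1 (F.pos (i + 1)) ≤ 0 := by
    intro t1 t2 t3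
    have hQ := hD.Qpos
    have y0 : ev ρ.q 0 (F.pos (i + 1)) ≠ 0 := fun e => by rw [e, abs_zero] at t1; linarith
    obtain ⟨κ, κ0, hκ⟩ := FjunA.be_sign hD t2 t1
    have l1 := FjunA.idx_lim hD ρ.q hk x1 (by rcases hδ with e | e <;> simpa [e] using t1)
    have l2 := FjunA.idx_lim hD ρ.q hk' x2 (by rcases hδ' with e | e <;> simpa [e] using t1)
    have l3 := FjunA.dir ρ.q fun s h0 h1 => FjunA.mul_le (mul_self_pos.2 y0) t1 (f2 s h0 h1)
    have l4 : (F.om (i + 1) : ℝ) = δ' * (κ * (D.K0 : ℝ) ^ 2 * ev ρ.q 0 (F.pos (i + 1))) := by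
      rw [rom, l1, l2, t3]
      rw [LD.be] at hκ
      rcases hδ' with e | e <;> rw [e] <;> push_cast <;> simp only [neg_mul, one_mul, neg_neg]
      · linear_combination (D.K0 : ℝ) ^ 2 * hκ
      · linear_combination -(D.K0 : ℝ) ^ 2 * hκ
    have d0 : (δ' : ℝ) ≠ 0 := by rcases hδ' with e | e <;> simp [e]
    refine ⟨by rw [l4]; positivity, FjunA.tha D t1, ?_⟩
    rw [r2] at l3
    have l5 : δ' * ev ρ.q 0 (F.pos (i + 1)) * ev ρ.q 1 (F.pos (i + 1)) ≤ 0 :=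
      nonpos_of_mul_nonpos_right (by linarith) pK
    have l6 := mul_nonpos_of_nonneg_of_nonpos (mul_pos κ0 pK2).le l5
    rw [l4]; linarith
  rcases hδ with e | e <;> rcases hδ' with e' | e'
  · exact absurd (e.trans e'.symm) hdd
  · have t1 : i1 ≤ i ∧ i < i2 := by
      by_contra k
      have := dn i hi (by omega)
      rw [e] at z1; omega
    have t2 : i + 1 = i2 := by
      by_contra k
      have := up (i + 1) (by omega) (by omega)
      rw [e'] at z2; omega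
    have t3 : F.pos (i + 1) = ρ.M := t2 ▸ h.p2
    have t4 : ρ.M ∉ ρ.Z := fun k => by
      obtain ⟨l, l1, l2, l3, l4⟩ := h.zu _ k
      have l5 : l ≠ i := fun k' => a1 (k' ▸ l3)
      have l6 := h.mono2 hD l1 (show l ≤ i by omega) t1.2.le
      rcases h.a_up hD t1.1 t1.2 with k' | k'
      · linarith [k'.2.2]
      · exact a1 k'.2.1
    have := c.abs_M (h.lt_M c (by omega)) t4
    exact fin (t3 ▸ this.1) this.2 (by rw [e, e']; rfl)
  · have t1 : i1 ≤ i + 1 ∧ i + 1 < i2 := by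
      by_contra k
      have := dn (i + 1) hj (by omega)
      rw [e'] at z2; omega
    have t2 : i + 1 = i1 := by
      by_contra k
      have := up i (by omega) (by omega)
      rw [e] at z1; omega
    have t3 : F.pos (i + 1) = ρ.m := t2 ▸ h.p1
    have t4 : ρ.m ∉ ρ.Z := fun k => by
      obtain ⟨l, l1, l2, l3, l4⟩ := h.zu _ k
      have l5 : l ≠ i + 1 := fun k' => a2 (k' ▸ l3)
      have l6 := h.mono2 hD (show i1 ≤ i + 1 + 1 by omega) (show i + 1 + 1 ≤ l by omega) l2.le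
      rcases h.a_up hD t1.1 t1.2 with k' | k'
      · linarith [k'.2.2]
      · exact a2 k'.2.1
    have := c.abs_m (h.m_neg c (by omega)) t4
    exact fin (t3 ▸ this.1) this.2 (by rw [e, e'])
  · exact absurd (e.trans e'.symm) hdd

end Pool.Agent.P.MP_a0f0ad_al.Fi
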