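import Pool.Agent.P.MP_a0f0ad_al.Fi.Z.Defs

/-! Chapter F: frames of representations. -/

namespace Pool.Agent.P.MP_a0f0ad_al.Fi

open Finset MeasureTheory

-- deps: HOM PUB FEX FNODE FJUN FINT FZS FBD
/-- a good representation has a frame -/
def S_TF : Prop :=
  ∀ (d : ℕ) (S : Finset (G d)) (D : LD d), 2 ≤ d → D.Spec S → ∃ (YY : Finset (G d)) (C : ℝ),
    ∀ (v : ℝ) (u p : E d) (ρ : RD d), 0 < v → D.NN u ≤ 1 → ρ.q = p.2 → Nonconst ρ.q →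
      ρ.Opt D u p.1 → ρ.Good0 D u v →
      ∃ F : Frame d, F.FR D S ρ u.1 ∧ F.FP S D.K0 YY C u p (D.NN u)

-- deps: HOM PUB FHB FLEN FJUN FNODE FBD
/-- cheap movable units -/
def S_BIAS : Prop :=
  ∃ k : ℕ, 0 < k ∧ ∀ (d : ℕ) (S : Finset (G d)) (D : LD d) (K : ℕ) (C0 : ℝ), 2 ≤ d → D.Spec S →
    0 < K → ∃ C : ℝ, 0 < C ∧ ∀ (v η pa : ℝ) (u : E d) (ρ : RD d) (F : Frame d), 0 < v → v ≤ 1 → 0 < η →
      C * η ≤ v ^ k → D.NN u ≤ 1 → Nonconst ρ.q → ρ.Opt D u pa → ρ.Good0 D u v →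
      F.FR D S ρ u.1 → (F.m : ℝ) ≤ C0 → (∀ i < F.m, (F.t i : ℝ) ≤ C0) →
      ∃ β : Fin d → ℝ, F.HasB K β (η ^ k) ∧ -dot ρ.q β ≤ η ∧ ‖β‖ ≤ 1

-- deps:
/-- the closed subgroup lemma -/
def S_KRON : Prop :=
  ∀ (n : ℕ) (H : AddSubgroup (Fin n → ℝ)) (P : Submodule ℝ (Fin n → ℝ)),
    (∀ f : (Fin n → ℝ) →ₗ[ℝ] ℝ, (∀ h ∈ H, ∃ z : ℤ, f h = z) → ∀ e ∈ P, f e = 0) →
    (P : Set (Fin n → ℝ)) ⊆ closure (H : Set (Fin n → ℝ))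

-- deps: HOM PUB FRK FKD
/-- density of the kernel lattice -/
def S_KR : Prop :=
  ∀ (d : ℕ) (S YY : Finset (G d)) (D : LD d) (C v : ℝ) (u p : E d) (ρ : RD d) (F : Frame d),
    2 ≤ d → D.Spec S → 0 < v → D.NN u ≤ 1 → ρ.q = p.2 → Nonconst ρ.q → ρ.Opt D u p.1 →
    ρ.Good0 D u v → d < ρ.eN D u.1 → ρ.NR D u.1 → F.FR D S ρ u.1 →
    F.FP S D.K0 YY C u p (D.NN u) → F.KR S D.K0 p.2

-- deps: MARK PEN HOM KKT PUB OPTC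
/-- frames for a constant dual polynomial -/
def S_FLAT : Prop :=
  ∀ (d : ℕ) (S : Finset (G d)) (D : LD d), 3 ≤ d → D.Spec S → ∃ (YY : Finset (G d)) (C : ℝ),
    ∀ᵐ u : E d, 0 < u.1 → D.NN u ≤ 1 → ∀ p, Grad D.NN p u → ¬ Nonconst p.2 →
      ∃ F : Frame d, F.FP S D.K0 YY C u p (D.NN u) ∧
        (∀ e : Fin d → ℝ, co e 0 = 0 → e ∈ F.Cone S D.K0) ∧
        ∀ K : ℕ, 0 < K → ∃ β ρ, 0 < ρ ∧ F.HasB K β ρ ∧ ‖β‖ ≤ 1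

end Pool.Agent.P.MP_a0f0ad_al.Fi
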