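import Pool.Agent.P.MP_a0f0ad_al.Fi.F.Iface2
import Pool.Agent.P.MP_a0f0ad_al.Fi.F.Iface
import Pool.Agent.P.MP_a0f0ad_al.Fi.F.Basic

/-! Step FKD of the filiform project. -/

namespace Pool.Agent.P.MP_a0f0ad_al.Fi

open Finset MeasureTheory

namespace FkdA

theorem rat {m A B C : ℕ} (a b t : ℕ → ℤ) (ph : ℕ → ℝ) (hA : A < m) (hB : B < m) (hC : C < m)
    (hD : Matrix.det !![a A, b A, t A; a B, b B, t B; a C, b C, t C] ≠ 0)
    (H : ∀ k : ℕ → ℤ, ∑ i ∈ range m, k i * a i = 0 → ∑ i ∈ range m, k i * b i = 0 →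
      ∑ i ∈ range m, k i * t i = 0 → ∃ z : ℤ, ∑ i ∈ range m, (k i : ℝ) * ph i = z) :
    ∃ x y w : ℝ, ∀ i < m, ∃ r : ℚ, ph i - (x * a i + y * b i + w * t i) = r := by
  obtain ⟨Dl, hDl⟩ : ∃ Dl : ℤ, Dl = a A * b B * t C - a A * t B * b C - b A * a B * t C +
    b A * t B * a C + t A * a B * b C - t A * b B * a C := ⟨_, rfl⟩
  have h0 : Dl ≠ 0 := by
    rw [Matrix.det_fin_three] at hD
    simpa [hDl] using hD
  have h1 : (Dl : ℝ) ≠ 0 := by exact_mod_cast h0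
  refine ⟨(ph A * b B * t C - ph A * t B * b C - b A * ph B * t C + b A * t B * ph C +
      t A * ph B * b C - t A * b B * ph C) / Dl,
    (a A * ph B * t C - a A * t B * ph C - ph A * a B * t C + ph A * t B * a C +
      t A * a B * ph C - t A * ph B * a C) / Dl,
    (a A * b B * ph C - a A * ph B * b C - b A * a B * ph C + b A * ph B * a C +
      ph A * a B * b C - ph A * b B * a C) / Dl, fun i hi => ?_⟩
  obtain ⟨cA, hcA⟩ : ∃ c : ℤ, c = a i * b B * t C - a i * t B * b C - b i * a B * t C +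
    b i * t B * a C + t i * a B * b C - t i * b B * a C := ⟨_, rfl⟩
  obtain ⟨cB, hcB⟩ : ∃ c : ℤ, c = a A * b i * t C - a A * t i * b C - b A * a i * t C +
    b A * t i * a C + t A * a i * b C - t A * b i * a C := ⟨_, rfl⟩
  obtain ⟨cC, hcC⟩ : ∃ c : ℤ, c = a A * b B * t i - a A * t B * b i - b A * a B * t i +
    b A * t B * a i + t A * a B * b i - t A * b B * a i := ⟨_, rfl⟩
  have e : ∀ φ : ℕ → ℤ, ∑ l ∈ range m, ((if l = i then Dl else 0) - (if l = A then cA else 0) -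
      (if l = B then cB else 0) - if l = C then cC else 0) * φ l =
      Dl * φ i - cA * φ A - cB * φ B - cC * φ C := fun φ => by
    simp [sub_mul, sum_sub_distrib, hi, hA, hB, hC]
  obtain ⟨z, hz⟩ := H (fun l => (if l = i then Dl else 0) - (if l = A then cA else 0) -
      (if l = B then cB else 0) - if l = C then cC else 0)
    (by rw [e, hDl, hcA, hcB, hcC]; ring) (by rw [e, hDl, hcA, hcB, hcC]; ring)
    (by rw [e, hDl, hcA, hcB, hcC]; ring)
  have e2 : (Dl : ℝ) * ph i - cA * ph A - cB * ph B - cC * ph C = z := by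
    rw [← hz]
    simp [sub_mul, sum_sub_distrib, hi, hA, hB, hC, apply_ite (Int.cast : ℤ → ℝ)]
  refine ⟨z / Dl, ?_⟩
  push_cast
  rw [← e2, hcA, hcB, hcC]
  push_cast
  field_simp
  ring

theorem two {a b a' b' : ℤ} {X Y : ℝ} {r r' : ℚ} (h : b * a' - b' * a ≠ 0)
    (h1 : b * X + a * Y = r) (h2 : b' * X + a' * Y = r') :
    (∃ s : ℚ, X = s) ∧ ∃ s : ℚ, Y = s := by
  have h0 : (b : ℝ) * a' - b' * a ≠ 0 := by exact_mod_cast h
  refine ⟨⟨(r * a' - r' * a) / (b * a' - b' * a), ?_⟩, ⟨(r' * b - r * b') / (b * a' - b' * a), ?_⟩⟩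
  all_goals
    push_cast
    rw [eq_div_iff h0, ← h1, ← h2]
    ring

end FkdA

theorem p_FKD (hKRON : S_KRON) (hFJUN : S_FJUN) (hFNODE : S_FNODE) :
    S_FKD := by
  classical
  intro d S D ρ u pa v F i1 i2 c h hZ hR hN e he0 heq ε hε
  have hd : 0 < d := lt_of_lt_of_le two_pos c.d2
  let H : AddSubgroup (Fin d → ℝ) :=
    { carrier := {y | ∃ (k : ℕ → ℤ) (α : ℕ → ℝ), ∑ i ∈ range F.m, k i * (F.Y i).a = 0 ∧
        ∑ i ∈ range F.m, k i * (F.Y i).b = 0 ∧ ∑ i ∈ range F.m, k i * (F.t i : ℤ) = 0 ∧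
        (∀ i, ¬ F.Free S D.K0 i → α i = 0) ∧
        ∑ i ∈ range F.m, ((k i : ℝ) • F.DvI i + α i • Vd 1 (F.pos i)) = y}
      zero_mem' := ⟨0, 0, by simp, by simp, by simp, fun _ _ => rfl, by simp⟩
      add_mem' := by
        rintro _ _ ⟨k, α, a1, a2, a3, a4, rfl⟩ ⟨k', α', b1, b2, b3, b4, rfl⟩
        refine ⟨k + k', α + α', ?_, ?_, ?_, fun i hi => by simp [a4 i hi, b4 i hi], ?_⟩
        · simp [add_mul, sum_add_distrib, a1, b1]
        · simp [add_mul, sum_add_distrib, a2, b2]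
        · simp [add_mul, sum_add_distrib, a3, b3]
        · rw [← sum_add_distrib]
          exact sum_congr rfl fun i _ => by simp only [Pi.add_apply, Int.cast_add, add_smul]; abel
      neg_mem' := by
        rintro _ ⟨k, α, a1, a2, a3, a4, rfl⟩
        refine ⟨-k, -α, by simp [a1], by simp [a2], by simp [a3], fun i hi => by simp [a4 i hi], ?_⟩
        rw [← sum_neg_distrib]
        exact sum_congr rfl fun i _ => by simp only [Pi.neg_apply, Int.cast_neg, neg_smul]; abel }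
  let P : Submodule ℝ (Fin d → ℝ) :=
    { carrier := {y | co y 0 = 0 ∧ dot ρ.q y = 0}
      zero_mem' := ⟨co_zero 0, by simp⟩
      add_mem' := fun a b => ⟨by rw [co_add, a.1, b.1, add_zero],
        by rw [dot_add_right, a.2, b.2, add_zero]⟩
      smul_mem' := fun r y a => ⟨by rw [co_smul, a.1, mul_zero],
        by rw [dot_smul_right, a.2, mul_zero]⟩ }
  suffices hs : ∀ g : (Fin d → ℝ) →ₗ[ℝ] ℝ, (∀ y ∈ H, ∃ z : ℤ, g y = z) → ∀ y ∈ P, g y = 0 by
    obtain ⟨_, ⟨k, α, a1, a2, a3, a4, rfl⟩, b⟩ :=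
      Metric.mem_closure_iff.1 (hKRON d H P hs (show e ∈ P from ⟨he0, heq⟩)) ε hε
    exact ⟨k, α, a1, a2, a3, a4, by rw [← dist_eq_norm, dist_comm]; exact b.le⟩
  intro g hg y0 hy0
  obtain ⟨f, hf⟩ : ∃ f : Fin d → ℝ, ∀ y, g y = dot f y :=
    ⟨fun j => g (Pi.single j 1), fun y => by
      conv_lhs => rw [← (Pi.basisFun ℝ (Fin d)).sum_repr y]
      simp [dot, mul_comm]⟩
  have fr : ∀ i, F.Free S D.K0 i → ev f 1 (F.pos i) = 0 := fun i hi => by
    by_contra hne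
    obtain ⟨z, hz⟩ := hg _ ⟨0, fun l => if l = i then 1 / 2 / ev f 1 (F.pos i) else 0, by simp,
      by simp, by simp, fun l hl => if_neg fun e : l = i => hl (e ▸ hi), rfl⟩
    have : (2 * z : ℤ) = (1 : ℝ) := by
      push_cast
      rw [← hz, hf]
      simp only [Pi.zero_apply, Int.cast_zero, zero_smul, zero_add, ite_smul, sum_ite_eq',
        mem_range, hi.1, if_true, dot_smul_right]
      change 2 * (1 / 2 / ev f 1 (F.pos i) * ev f 1 (F.pos i)) = 1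
      field_simp
    have : (2 * z : ℤ) = 1 := by exact_mod_cast this
    omega
  obtain ⟨A, B, C, hA, hB, hC, hD⟩ := hR
  obtain ⟨x, y, w, hps⟩ := FkdA.rat (fun i => (F.Y i).a) (fun i => (F.Y i).b)
    (fun i => (F.t i : ℤ)) (fun i => dot f (F.DvI i)) hA hB hC hD fun k a1 a2 a3 => by
      obtain ⟨z, hz⟩ := hg _ ⟨k, 0, a1, a2, a3, fun _ _ => rfl, rfl⟩
      exact ⟨z, by rw [← hz, hf, dot_sum_right]; simp [dot_smul_right]⟩
  obtain ⟨e0, he⟩ : ∃ e0 : Fin d → ℝ, ∀ y, dot e0 y = co y 0 :=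
    ⟨Pi.single ⟨0, hd⟩ 1, fun y => by rw [dot_single_left, co, dif_pos hd]⟩
  obtain ⟨ft, hft⟩ : ∃ ft : Fin d → ℝ, ∀ z, dot ft z = dot f z - y * co z 0 - w * dot ρ.q z :=
    ⟨f - y • e0 - w • ρ.q, fun z => by
      rw [dot_sub_left, dot_sub_left, dot_smul_left, dot_smul_left, he]⟩
  have ps : ∀ i < F.m, ∃ r : ℚ, dot ft (F.DvI i) - (F.Y i).a * (x + w * pa) = r := fun i hi => by
    obtain ⟨r, hr⟩ := hps i hi
    have := hZ i hi
    refine ⟨r, ?_⟩
    rw [← hr, hft, Frame.DvI, F.co_Dv hd, ← Frame.DvI]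
    push_cast
    rw [this]; ring
  have jn : ∀ j, 1 ≤ j → j < F.m → (∃ r : ℚ, ev ft 0 (F.pos j) = r) ∧
      ∃ r : ℚ, dot ft (F.Gam j) - (x + w * pa) = r := fun j h1 h2 => by
    obtain ⟨i, rfl⟩ := Nat.exists_eq_add_of_le' h1
    obtain ⟨r, hr⟩ := ps i (by omega)
    obtain ⟨r', hr'⟩ := ps (i + 1) h2
    rw [(F.dot_DvI (by omega) ft).2] at hr
    rw [(F.dot_DvI h2 ft).1] at hr'
    exact FkdA.two (r := r) (r' := r') (hFJUN d S D ρ u pa v F i1 i2 c h (i + 1) h1 h2).1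
      (by rw [← hr, Nat.add_sub_cancel]; ring) (by rw [← hr']; ring)
  obtain ⟨n1, n2⟩ := hFNODE d S D ρ u pa v F i1 i2 c h
  have nd : ∀ z, z ∈ ρ.lev D u.1 ∨ z ∈ ρ.Z → ∃ r : ℚ, ev ft 0 z = r := fun z hz => by
    obtain ⟨j, a1, a2, rfl⟩ := n1 z hz
    exact (jn j a1 a2).1
  obtain ⟨c0, c1, hc⟩ := hN ft (fun z hz => nd z (Or.inl hz)) fun z hz =>
    ⟨nd z (Or.inr hz), fun hT => by
      obtain ⟨i, -, -, -, rfl, a⟩ := n2 z hz hT.2.1
      have b1 : dot f _ = 0 := fr i (a hT.2.2)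
      have b2 : dot ρ.q _ = 0 := hT.2.2
      rw [ev, hft, b1, b2, co_Vd_succ]; ring, fun hp => by
      obtain ⟨i, a1, a2, a3, rfl, -⟩ := n2 z hz hp
      obtain ⟨r, hr⟩ := (jn i a1 (by omega)).2
      obtain ⟨r', hr'⟩ := (jn (i + 1) (by omega) a2).2
      have b := F.dot_Gam_atom (by omega) a3.2.1 ft
      rw [← a3.2.2.1]
      rcases ρ.mult_cases u.1 (F.pos i) with k | k <;> rw [k]
      · exact ⟨r - r', by push_cast; rw [← hr, ← hr', b]; ring⟩
      · exact ⟨2 * (r - r'), by push_cast; rw [← hr, ← hr', b]; ring⟩⟩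
  have hz : ft - c0 • e0 - c1 • ρ.q = 0 := pol_eq_zero.1 (Polynomial.funext fun z => by
    have := ev_eq_eval (ft - c0 • e0 - c1 • ρ.q) 0 z
    rw [Function.iterate_zero_apply] at this
    rw [← this, ev_sub, ev_sub, ev_smul, ev_smul, hc, ev, ev, he, co_Vd_zero hd]
    simp)
  have := congrArg (fun z => dot z y0) hz
  simp only [dot_sub_left, dot_smul_left, he, hft, hy0.1, hy0.2, dot_zero_left] at this
  rw [hf]
  linarith

end Pool.Agent.P.MP_a0f0ad_al.Fi
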