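import Pool.Agent.P.MP_a0f0ad_al.Fi.T.Lglue
import Pool.Agent.P.MP_a0f0ad_al.Fi.T.Tsgn
import Pool.Agent.P.MP_a0f0ad_al.Fi.T.Lalt
import Pool.Agent.P.MP_a0f0ad_al.Fi.T.Lbb
import Pool.Agent.P.MP_a0f0ad_al.Fi.T.Lcon
import Pool.Agent.P.MP_a0f0ad_al.Fi.T.Lfp
import Pool.Agent.P.MP_a0f0ad_al.Fi.T.Lfq
import Pool.Agent.P.MP_a0f0ad_al.Fi.T.Lft
import Pool.Agent.P.MP_a0f0ad_al.Fi.T.Lhb
import Pool.Agent.P.MP_a0f0ad_al.Fi.T.Lnb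
import Pool.Agent.P.MP_a0f0ad_al.Fi.T.Lnq
import Pool.Agent.P.MP_a0f0ad_al.Fi.T.Lnul
import Pool.Agent.P.MP_a0f0ad_al.Fi.T.Lpow
import Pool.Agent.P.MP_a0f0ad_al.Fi.T.Lqe
import Pool.Agent.P.MP_a0f0ad_al.Fi.T.Lqr
import Pool.Agent.P.MP_a0f0ad_al.Fi.T.Lqv
import Pool.Agent.P.MP_a0f0ad_al.Fi.T.Lsw
import Pool.Agent.P.MP_a0f0ad_al.Fi.T.Lth
import Pool.Agent.P.MP_a0f0ad_al.Fi.T.Lvar

/-! Step FLAT of the filiform project. -/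

namespace Pool.Agent.P.MP_a0f0ad_al.Fi

open Finset MeasureTheory

theorem p_FLAT (_hMARK : S_MARK) (hPEN : S_PEN) (hHOM : S_HOM) (hKKT : S_KKT) (_hPUB : S_PUB)
    (hOPTC : S_OPTC) : S_FLAT :=
  flat_glue hHOM hOPTC p_LFP p_LCON (p_LHB p_LPOW)
    (p_LTH (p_LNB p_LNUL) p_LBB (p_LSW p_TSGN) (p_LVAR hPEN) p_LFT)
    (p_LQR hKKT (p_LNQ p_LNUL)) (p_LQV p_LALT p_LFQ) (p_LQE p_LALT p_LFQ)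

end Pool.Agent.P.MP_a0f0ad_al.Fi
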