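import Pool.Agent.P.MP_a0f0ad_al.Fi.F.Iface2
import Pool.Agent.P.MP_a0f0ad_al.Fi.F.Basic

/-! Step FLEN of the filiform project. -/

namespace Pool.Agent.P.MP_a0f0ad_al.Fi

open Finset MeasureTheory

namespace FlenA

theorem rolle {d : ℕ} (q : Fin d → ℝ) (k : ℕ) {x y : ℝ} (hne : x ≠ y)
    (h : ev q k x = ev q k y) : ∃ z, min x y < z ∧ z < max x y ∧ ev q (k + 1) z = 0 := by
  rcases hne.lt_or_gt with e | e
  · obtain ⟨z, hz, h0⟩ := exists_hasDerivAt_eq_zero e (continuous_ev q k).continuousOn h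
      fun z _ => hasDerivAt_ev q k z
    exact ⟨z, by rw [min_eq_left e.le]; exact hz.1, by rw [max_eq_right e.le]; exact hz.2, h0⟩
  · obtain ⟨z, hz, h0⟩ := exists_hasDerivAt_eq_zero e (continuous_ev q k).continuousOn h.symm
      fun z _ => hasDerivAt_ev q k z
    exact ⟨z, by rw [min_eq_right e.le]; exact hz.1, by rw [max_eq_left e.le]; exact hz.2, h0⟩

theorem btw {x y z : ℝ} (h1 : min x y < z) (h2 : z < max x y) :
    |z - x| ≤ |y - x| ∧ |z - y| ≤ |x - y| ∧ ∀ L, |x| ≤ L → |y| ≤ L → |z| ≤ L := by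
  rcases le_total x y with e | e
  · rw [min_eq_left e] at h1
    rw [max_eq_right e] at h2
    refine ⟨?_, ?_, fun L hx hy => ?_⟩
    · rw [abs_of_nonneg (by linarith), abs_of_nonneg (by linarith)]; linarith
    · rw [abs_of_nonpos (by linarith), abs_of_nonpos (by linarith)]; linarith
    · rw [abs_le] at *; constructor <;> linarith [hx.1, hy.2]
  · rw [min_eq_right e] at h1
    rw [max_eq_left e] at h2
    refine ⟨?_, ?_, fun L hx hy => ?_⟩
    · rw [abs_of_nonpos (by linarith), abs_of_nonpos (by linarith)]; linarith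
    · rw [abs_of_nonneg (by linarith), abs_of_nonneg (by linarith)]; linarith
    · rw [abs_le] at *; constructor <;> linarith [hy.1, hx.2]

end FlenA

open FlenA in
theorem p_FLEN (hFJUN : S_FJUN) :
    S_FLEN := by
  intro d S D hD
  obtain ⟨c0, hc0, hc1, -, -, hsep, -⟩ := hD.exists_slack
  obtain ⟨K, hK1, hK⟩ := n_bd d D.Lam
  have hK0 : 0 < K := by linarith
  refine ⟨c0 / K, div_pos hc0 hK0, fun ρ u pa v F i1 i2 c hv h i hi ha => ?_⟩
  by_contra hn
  rw [not_le] at hn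
  have v0 := c.v0
  have hν := h.nu i hi
  have hne0 : F.nu i * ((F.Y i).a : ℝ) ≠ 0 := mul_ne_zero hν.ne' (by exact_mod_cast ha)
  have hps := F.pos_succ i
  have hl : |F.pos (i + 1) - F.pos i| < c0 / K * v ^ 2 := by
    rw [hps, add_sub_cancel_left]; exact hn
  have hne : F.pos i ≠ F.pos (i + 1) := fun e => hne0 (by linarith)
  have w1 : |F.pos i| ≤ D.Lam := by linarith [h.abs_pos c hi.le]
  have w2 : |F.pos (i + 1)| ≤ D.Lam := by linarith [h.abs_pos c (i := i + 1) hi]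
  have hlip : ∀ y, |y| ≤ D.Lam → |y - F.pos i| ≤ |F.pos (i + 1) - F.pos i| →
      |ev ρ.q 0 y - ev ρ.q 0 (F.pos i)| < c0 * v := fun y hy hy' => by
    have h1 := (hK ρ.q 0 (F.pos i) y w1 hy).2.1
    have h2 := c.gd.hq
    have h3 : K * |y - F.pos i| < c0 * v ^ 2 := by
      have := mul_lt_mul_of_pos_left (hy'.trans_lt hl) hK0
      rwa [← mul_assoc, mul_div_cancel₀ _ hK0.ne'] at this
    have h4 : v * (K * ‖ρ.q‖ * |y - F.pos i|) ≤ K * |y - F.pos i| := by
      have := mul_le_mul_of_nonneg_right h2 (mul_nonneg hK0.le (abs_nonneg (y - F.pos i)))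
      linarith
    have h5 := mul_le_mul_of_nonneg_left h1 v0.le
    refine lt_of_mul_lt_mul_left ?_ v0.le
    nlinarith
  have hcv : c0 * v ≤ v := mul_le_of_le_one_left v0.le hc1
  have hcv' : c0 * v ≤ c0 := mul_le_of_le_one_right hc0.le hv
  have h12 := hlip _ w2 le_rfl
  have hend : ∀ x, x = 0 ∨ x = u.1 → ev ρ.q 0 x ∈ D.ThA ∨ ∀ w ∈ D.ThA, v ≤ |ev ρ.q 0 x - w| :=
    fun x hx => (c.gd.r3 x hx).imp_left fun k => by
      have := (c.atom k.1).2.2.1
      rcases abs_cases (ev ρ.q 0 x) with e | e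
      · exact Or.inl (by linarith [e.1])
      · exact Or.inr (Or.inl (by linarith [e.1]))
  have e1 : ev ρ.q 0 (F.pos i) ∈ D.ThA ∨
      (i = 0 ∧ ∀ w ∈ D.ThA, v ≤ |ev ρ.q 0 (F.pos i) - w|) := by
    rcases Nat.eq_zero_or_pos i with rfl | hi0
    · exact (hend _ (Or.inl F.pos_zero)).imp_right fun k => ⟨rfl, k⟩
    · exact Or.inl (hFJUN d S D ρ u pa v F i1 i2 c h i hi0 hi).2.1
  have e2 : ev ρ.q 0 (F.pos (i + 1)) ∈ D.ThA ∨
      (i + 1 = F.m ∧ ∀ w ∈ D.ThA, v ≤ |ev ρ.q 0 (F.pos (i + 1)) - w|) := by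
    rcases (Nat.succ_le_of_lt hi).eq_or_lt with e | e
    · exact (hend _ (Or.inr (by rw [← h.pm, ← e]))).imp_right fun k => ⟨e, k⟩
    · exact Or.inl (hFJUN d S D ρ u pa v F i1 i2 c h (i + 1) (by omega) e).2.1
  rcases e1 with e1 | ⟨e0, e1⟩ <;> rcases e2 with e2 | ⟨em, e2⟩
  · have heq : ev ρ.q 0 (F.pos i) = ev ρ.q 0 (F.pos (i + 1)) := by
      by_contra e
      have := hsep _ e2 _ e1 (Ne.symm e)
      linarith
    obtain ⟨y, y1, y2, y3⟩ := rolle ρ.q 0 hne heq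
    obtain ⟨b1, -, b3⟩ := btw y1 y2
    have wy := b3 _ w1 w2
    obtain ⟨δ, -, k, -, s, s', -, -, -, -, hx⟩ := h.sea hD hi ha
    rcases c.gd.r2 y wy _ e1 ((hlip y wy b1).le.trans hcv) with r | ⟨z, hz, r1, -⟩
    · rw [zero_add] at y3
      rw [y3, abs_zero] at r
      exact absurd r (not_le.2 (pow_pos v0 2))
    · have hyz : y ≠ z := fun e => (hx y y1 y2).1 (e ▸ hz.1)
      rw [zero_add] at y3
      obtain ⟨t, t1, t2, t3⟩ := rolle ρ.q 1 hyz (y3.trans hz.2.2.symm)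
      have := (c.gd.r1 z hz).2.2.2 t ((btw t1 t2).2.1.trans r1)
      rw [show (1 + 1 : ℕ) = 2 from rfl] at t3
      rw [t3, abs_zero] at this
      linarith
  · linarith [e2 _ e1]
  · have := e1 _ e2
    rw [abs_sub_comm] at this
    linarith
  · subst e0
    rw [em, h.pm, F.pos_zero, sub_zero, abs_of_pos c.a_pos] at hl
    have h1 := c.gd.ha
    have h2 : c0 / K ≤ 1 := (div_le_one hK0).2 (hc1.trans hK1)
    have h3 : c0 / K * v ^ 2 ≤ v ^ 2 := mul_le_of_le_one_left (by positivity) h2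
    nlinarith

end Pool.Agent.P.MP_a0f0ad_al.Fi
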