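import Pool.Agent.P.MP_a0f0ad_al.Fi.F.Iface2
import Pool.Agent.P.MP_a0f0ad_al.Fi.F.Basic

/-! Step FNODE of the filiform project. -/

namespace Pool.Agent.P.MP_a0f0ad_al.Fi

open Finset MeasureTheory

namespace FnodeA

variable {d : ℕ} {S : Finset (G d)} {D : LD d} {ρ : RD d} {u : E d} {pa v a x : ℝ} {F : Frame d}
  {i j i1 i2 k : ℕ}

theorem dn (h : F.Ph D S ρ a i1 i2) (hD : D.Spec S) (hij : i ≤ j) (hj : j ≤ F.m)
    (hph : j ≤ i1 ∨ i2 ≤ i) (h1 : x ≤ F.pos i) (h2 : F.pos j < x) (hk : k < D.n)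
    (hx : -ev ρ.q 0 x = D.th k) : ∃ l, i ≤ l ∧ l < j ∧ F.pos l = x := by
  obtain ⟨l, a1, a2, a3, a4⟩ := cover_dn (f := F.pos) hij h1 h2
  refine ⟨l, a1, a2, ?_⟩
  rcases h.a_dn hD (i := l) (by omega) (by omega) with s | s
  · by_contra hne
    obtain ⟨_, -, _, _, -, -, -, -, hs⟩ := s.1
    refine (hs x (min_lt_iff.2 (Or.inr a4))
      (lt_max_iff.2 (Or.inl (lt_of_le_of_ne a3 (Ne.symm hne))))).2.2 k hk ?_
    rw [← hx]
    push_cast
    ring
  · linarith [s.2.2.1]

theorem up (h : F.Ph D S ρ a i1 i2) (hD : D.Spec S) (h1 : ρ.m < x) (h2 : x < ρ.M) (hk : k < D.n)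
    (hx : ev ρ.q 0 x = D.th k) : ∃ l, i1 ≤ l ∧ l < i2 ∧ F.pos l = x := by
  obtain ⟨l, a1, a2, a3, a4⟩ := cover_up (f := F.pos) (x := x) h.h12 (by rw [h.p1]; exact h1.le)
    (by rw [h.p2]; exact h2)
  refine ⟨l, a1, a2, ?_⟩
  rcases h.a_up hD a1 a2 with s | s
  · by_contra hne
    obtain ⟨_, -, _, _, -, -, -, -, hs⟩ := s.1
    refine (hs x (min_lt_iff.2 (Or.inl (lt_of_le_of_ne a3 hne)))
      (lt_max_iff.2 (Or.inr a4))).2.2 k hk ?_
    rw [← hx]
    push_cast
    ring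
  · linarith [s.2.2]

end FnodeA

theorem p_FNODE :
    S_FNODE := by
  intro d S D ρ u pa v F i1 i2 c h
  have l12 := h.lt12 c
  have h2m := h.h2m
  have hm := c.m_le
  have hM := c.le_M
  have hmM := c.m_lt
  have hstep : ∀ i, (F.Y i).a = 0 → F.pos (i + 1) = F.pos i := fun i ha => by
    simp [Frame.pos_succ, ha]
  refine ⟨?_, ?_⟩
  · rintro x ((⟨a1, a2, k, hk, e⟩ | ⟨⟨a1, a2⟩ | ⟨a1, a2⟩, k, hk, e⟩ | ⟨a1, a2, -⟩ | ⟨a1, a2, -⟩) | hz)
    · obtain ⟨l, b1, b2, b3⟩ := FnodeA.up h c.sp a1 a2 hk e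
      have : l ≠ i1 := fun e => by rw [e, h.p1] at b3; linarith
      exact ⟨l, by omega, by omega, b3⟩
    · obtain ⟨l, b1, b2, b3⟩ := FnodeA.dn h c.sp (Nat.zero_le i1) (by omega) (Or.inl le_rfl)
        (by rw [F.pos_zero]; exact a2.le) (by rw [h.p1]; exact a1) hk e
      have : l ≠ 0 := fun e => by rw [e, F.pos_zero] at b3; linarith
      exact ⟨l, by omega, by omega, b3⟩
    · obtain ⟨l, b1, b2, b3⟩ := FnodeA.dn h c.sp h2m le_rfl (Or.inr le_rfl)
        (by rw [h.p2]; exact a2.le) (by rw [h.pm]; exact a1) hk e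
      exact ⟨l, by omega, b2, b3⟩
    · have : i1 ≠ 0 := fun e => by
        have := h.p1
        rw [e, F.pos_zero] at this
        linarith
      exact ⟨i1, by omega, by omega, by rw [h.p1, a1]⟩
    · have : i2 ≠ F.m := fun e => by
        have := h.p2
        rw [e, h.pm] at this
        linarith
      exact ⟨i2, by omega, by omega, by rw [h.p2, a1]⟩
    · obtain ⟨i, b1, b2, b3, b4⟩ := h.zu x hz
      rcases Nat.eq_zero_or_pos i with rfl | hi
      · have e1 := hstep 0 b3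
        have : i2 ≠ 0 + 1 := fun e => by
          have p1 := h.p1
          have p2 := h.p2
          rw [Nat.le_zero.1 b1] at p1
          rw [e] at p2
          linarith
        exact ⟨0 + 1, le_rfl, by omega, e1.trans b4⟩
      · exact ⟨i, hi, by omega, b4⟩
  · intro z hz hp
    obtain ⟨i, b1, b2, b3, b4⟩ := h.zu z hz
    have e1 := hstep i b3
    have hA := h.atom c.sp (by omega : i < F.m) b3
    have n1 : i ≠ 0 := fun e => by
      have p1 := h.p1
      rw [(by omega : i1 = 0), F.pos_zero] at p1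
      rw [e, F.pos_zero] at b4
      exact hp (Or.inl ⟨b4.symm, p1.symm⟩)
    have n2 : i + 1 ≠ F.m := fun e => by
      have p2 := h.p2
      rw [(by omega : i2 = F.m), h.pm] at p2
      rw [e, h.pm, b4] at e1
      exact hp (Or.inr ⟨e1.symm, p2.symm⟩)
    refine ⟨i, by omega, by omega, hA, b4, fun hq => ⟨by omega, b3, ?_⟩⟩
    rcases c.sp.om_Q_nonneg.lt_or_eq with e | e
    · have hom : D.om (ev ρ.q 0 z) = D.om D.Q := by rw [← Bm.om_abs D, (c.atom hz).2.2.1]
      have z1 : z ≠ ρ.m := fun e2 => by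
        have hne : ρ.m ≠ 0 := fun e3 => hp (Or.inl ⟨e2.trans e3, e3⟩)
        have h3 := c.opt.2.2.2.2.2.1 (lt_of_le_of_ne hm hne)
        rw [RD.Dm, ← e2, hq, hom] at h3
        linarith
      have z2 : z ≠ ρ.M := fun e2 => by
        have hne : u.1 ≠ ρ.M := fun e3 => hp (Or.inr ⟨e2.trans e3.symm, e3.symm⟩)
        have h3 := c.opt.2.2.2.1 (lt_of_le_of_ne hM hne)
        rw [RD.DM, ← e2, hq, hom] at h3
        linarith
      have m1 : i ≠ i1 := fun e2 => z1 (by rw [← b4, e2, h.p1])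
      have m2 : i + 1 ≠ i2 := fun e2 => z2 (by rw [← b4, ← e1, e2, h.p2])
      have hK := c.sp.K0_pos
      have s1 : (F.Y (i + 1)).a = D.K0 := by
        rcases h.a_up c.sp (i := i + 1) (by omega) (by omega) with s | s
        · exact s.2.1
        · exact absurd s.2.1 (h.aa i (by omega) b3)
      have s2 : (F.Y (i - 1)).a = D.K0 := by
        rcases h.a_up c.sp (i := i - 1) (by omega) (by omega) with s | s
        · exact s.2.1
        · have := h.aa (i - 1) (by omega) s.2.1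
          rw [(by omega : i - 1 + 1 = i)] at this
          exact absurd b3 this
      exact Or.inr ⟨by omega, by omega, s2.trans s1.symm, by omega⟩
    · exact Or.inl (hA.2.2.2.2.2 e.symm)

end Pool.Agent.P.MP_a0f0ad_al.Fi
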