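import Pool.Agent.P.MP_a0f0ad_al.Fi.F.KrB

/-! Step FRK of the filiform project. -/

namespace Pool.Agent.P.MP_a0f0ad_al.Fi

open Finset MeasureTheory

namespace FrkA

/-- a one-sided maximum with vanishing first derivative -/
theorem sec {φ φ1 φ2 : ℝ → ℝ} (h0 : ∀ x, HasDerivAt φ (φ1 x) x) (h1 : ∀ x, HasDerivAt φ1 (φ2 x) x)
    (hc : Continuous φ2) {z y : ℝ} (hyz : y ≠ z) (hz : φ1 z = 0)
    (hm : ∀ x ∈ Set.uIcc z y, φ x ≤ φ z) : φ2 z ≤ 0 := by
  by_contra hp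
  rw [not_le] at hp
  obtain ⟨δ, hδ, hb⟩ := Metric.eventually_nhds_iff.1 (hc.continuousAt.eventually (lt_mem_nhds hp))
  have c0 : Continuous φ := continuous_iff_continuousAt.2 fun x => (h0 x).continuousAt
  have c1 : Continuous φ1 := continuous_iff_continuousAt.2 fun x => (h1 x).continuousAt
  rcases lt_or_gt_of_ne hyz with e | e
  · have hw : max y (z - δ) < z := max_lt e (by linarith)
    obtain ⟨s, hs, e1⟩ := exists_hasDerivAt_eq_slope _ _ hw c0.continuousOn fun x _ => h0 x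
    obtain ⟨t, ht, e2⟩ := exists_hasDerivAt_eq_slope _ _ hs.2 c1.continuousOn fun x _ => h1 x
    have a1 : 0 ≤ φ1 s := e1 ▸ div_nonneg (sub_nonneg.2 (hm _ (Set.mem_uIcc.2
      (Or.inr ⟨le_max_left _ _, hw.le⟩)))) (sub_pos.2 hw).le
    have a2 : φ2 t ≤ 0 := e2 ▸ div_nonpos_of_nonpos_of_nonneg (by linarith) (sub_pos.2 hs.2).le
    refine a2.not_gt (hb ?_)
    rw [Real.dist_eq, abs_lt]
    constructor <;> linarith [ht.1, ht.2, hs.1, le_max_right y (z - δ)]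
  · have hw : z < min y (z + δ) := lt_min e (by linarith)
    obtain ⟨s, hs, e1⟩ := exists_hasDerivAt_eq_slope _ _ hw c0.continuousOn fun x _ => h0 x
    obtain ⟨t, ht, e2⟩ := exists_hasDerivAt_eq_slope _ _ hs.1 c1.continuousOn fun x _ => h1 x
    have a1 : φ1 s ≤ 0 := e1 ▸ div_nonpos_of_nonpos_of_nonneg (sub_nonpos.2 (hm _ (Set.mem_uIcc.2
      (Or.inl ⟨hw.le, min_le_left _ _⟩)))) (sub_pos.2 hw).le
    have a2 : φ2 t ≤ 0 := e2 ▸ div_nonpos_of_nonpos_of_nonneg (by linarith) (sub_pos.2 hs.1).le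
    refine a2.not_gt (hb ?_)
    rw [Real.dist_eq, abs_lt]
    constructor <;> linarith [ht.1, ht.2, hs.2, min_le_right y (z + δ)]

variable {d : ℕ}

theorem touch {D : LD d} {q : Fin d → ℝ} {m M z : ℝ} (hf : D.Feas q m M) (hmM : m < M)
    (h1 : m ≤ z) (h2 : z ≤ M) (hQ : |ev q 0 z| = D.Q) (hz : ev q 1 z = 0) :
    ev q 0 z * ev q 2 z ≤ 0 := by
  obtain ⟨y, hy, hy1, hy2⟩ : ∃ y, y ≠ z ∧ m ≤ y ∧ y ≤ M := by
    rcases h1.eq_or_lt with e | e
    · exact ⟨M, by rw [← e]; exact hmM.ne', hmM.le, le_rfl⟩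
    · exact ⟨m, e.ne, le_rfl, hmM.le⟩
  refine sec (φ := fun x => ev q 0 z * ev q 0 x) (φ1 := fun x => ev q 0 z * ev q 1 x)
    (φ2 := fun x => ev q 0 z * ev q 2 x) (fun x => (hasDerivAt_ev q 0 x).const_mul _)
    (fun x => (hasDerivAt_ev q 1 x).const_mul _) (by fun_prop) hy (by simp [hz]) fun x hx => ?_
  refine (le_abs_self _).trans ?_
  rw [abs_mul, ← abs_mul_abs_self]
  exact mul_le_mul_of_nonneg_left
    ((hf x (Set.uIcc_subset_Icc ⟨h1, h2⟩ ⟨hy1, hy2⟩ hx)).trans hQ.ge) (abs_nonneg _)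

end FrkA

theorem p_FRK (hFJUN : S_FJUN) (hFNODE : S_FNODE) :
    S_FRK := by
  intro d S D ρ u pa v F i1 i2 hC hP
  have hJ := hFJUN d S D ρ u pa v F i1 i2 hC hP
  obtain ⟨hN1, hN2⟩ := hFNODE d S D ρ u pa v F i1 i2 hC hP
  have hd : 1 ≤ d := one_le_two.trans hC.d2
  obtain ⟨o, ho, ho1, ho2, ho3⟩ := KrB.exists_one hd
  have den : ∀ f : Fin d → ℝ, (∀ x, x ∈ ρ.lev D u.1 ∨ x ∈ ρ.Z → ev f 0 x = 0) →
      (∀ z ∈ ρ.Z, ¬ ρ.Pin u.1 z → ev f 1 z = 0) → f = 0 := fun f h1 h2 => by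
    have := hC.gd.den f 0 le_rfl (fun x hx => by rw [h1 x (Or.inl hx), abs_zero])
      fun z hz => ⟨by rw [h1 z (Or.inr hz), abs_zero], fun hp => by rw [h2 z hz hp, abs_zero]⟩
    exact norm_eq_zero.1 (le_antisymm (nonpos_of_mul_nonpos_right this hC.v0) (norm_nonneg _))
  obtain ⟨x0, hx0⟩ : ∃ x, x ∈ ρ.lev D u.1 ∨ x ∈ ρ.Z := by
    by_contra hn
    obtain ⟨j, -, hj⟩ := hC.nc
    exact hj (congrFun (den ρ.q (fun x hx => (hn ⟨x, hx⟩).elim)
      fun z hz => (hn ⟨z, Or.inr hz⟩).elim) j)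
  obtain ⟨j0, hj1, hj2, hj3⟩ := hN1 x0 hx0
  obtain ⟨r1, r2, r3, r4, r5, -⟩ := hC.opt.1
  refine ⟨fun hZ => ?_, ?_⟩
  · by_contra hR
    have ho0 : (F.om j0 : ℝ) ≠ 0 := by exact_mod_cast (hJ j0 hj1 hj2).1
    obtain ⟨x, y, hxy⟩ : ∃ x y : ℝ, ∀ i < F.m,
        (F.t i : ℝ) = x * ((F.Y i).a : ℝ) + y * ((F.Y i).b : ℝ) := by
      refine ⟨(((F.Y (j0 - 1)).b : ℝ) * F.t j0 - ((F.Y j0).b : ℝ) * F.t (j0 - 1)) / F.om j0,
        (((F.Y j0).a : ℝ) * F.t (j0 - 1) - ((F.Y (j0 - 1)).a : ℝ) * F.t j0) / F.om j0,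
        fun i hi => ?_⟩
      have h := not_not.1 fun h => hR ⟨j0 - 1, j0, i, by omega, hj2, hi, h⟩
      simp only [Matrix.det_fin_three, Matrix.of_apply, Matrix.cons_val', Matrix.cons_val_zero,
        Matrix.cons_val_one, Matrix.cons_val_fin_one, Matrix.cons_val] at h
      have h' := congrArg (Int.cast : ℤ → ℝ) h
      field_simp
      rw [Frame.om]
      push_cast at h' ⊢
      linear_combination -h'
    have key : ∀ j, 1 ≤ j → j < F.m → ev (ρ.q - y • o) 0 (F.pos j) = 0 ∧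
        dot (ρ.q - y • o) (F.Gam j) = x - pa := fun j h1 h2 => by
      have hz : ∀ i < F.m, dot (ρ.q - y • o) (F.DvI i) - (x - pa) * (F.Y i).a = 0 := fun i hi => by
        rw [dot_sub_left, dot_smul_left, ho1, Frame.DvI, F.co_Dv hd, ← Frame.DvI]
        linear_combination hxy i hi - hZ i hi
      have hs := KrB.solve F (ρ.q - y • o) h1 h2 (x - pa)
      rw [hz j h2, hz (j - 1) (by omega)] at hs
      have hne : (F.om j : ℝ) ≠ 0 := by exact_mod_cast (hJ j h1 h2).1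
      exact ⟨(mul_eq_zero.1 (hs.1.trans (by ring))).resolve_left hne,
        sub_eq_zero.1 ((mul_eq_zero.1 (hs.2.trans (by ring))).resolve_left hne)⟩
    have h0 := den (ρ.q - y • o) (fun z hz => by
      obtain ⟨j, a1, a2, rfl⟩ := hN1 z hz
      exact (key j a1 a2).1) fun z hz hp => by
      obtain ⟨i, a1, a2, a3, rfl, -⟩ := hN2 z hz hp
      have h1 := KrB.jump F (ρ.q - y • o) (by omega) a3.2.1
      rw [(key i a1 (by omega)).2, (key (i + 1) (by omega) a2).2, sub_self] at h1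
      refine (mul_eq_zero.1 h1.symm).resolve_left fun e => ?_
      have h2 := (r5 _ hz).2.2.2
      rw [← a3.2.2.1, mul_comm _ (F.nu i), e] at h2
      simp at h2
    obtain ⟨j, a1, a2⟩ := hC.nc
    have h1 := congrFun h0 j
    have h2 : o j = 0 := not_not.1 fun e => ho ⟨j, a1, e⟩
    exact a2 (by simpa [h2] using h1)
  · by_cases hq : ev ρ.q 1 x0 = 0
    · have hx : |x0| ≤ D.Lam := by
        have : ρ.m ≤ x0 ∧ x0 ≤ ρ.M := by
          have ha : 0 ≤ u.1 := hC.v0.le.trans hC.gd.ha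
          rcases hx0 with (h | ⟨h | h, -⟩ | h | h) | h
          · exact ⟨h.1.le, h.2.1.le⟩
          · exact ⟨h.1.le, by linarith [h.2]⟩
          · exact ⟨by linarith [h.1], h.2.le⟩
          · exact ⟨h.1.ge, by linarith [h.1]⟩
          · exact ⟨by linarith [h.1], h.1.le⟩
          · exact ⟨(r5 _ h).1, (r5 _ h).2.1⟩
        rw [abs_le]
        constructor <;> linarith [this.1, this.2, hC.wm, hC.wM, neg_abs_le ρ.m, le_abs_self ρ.M]
      obtain ⟨z, hz, -⟩ := (hC.gd.r2 x0 hx _ (hj3 ▸ (hJ j0 hj1 hj2).2.1)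
        (by simpa using hC.v0.le)).resolve_left (by rw [hq, abs_zero]; exact (pow_pos hC.v0 2).not_ge)
      obtain ⟨i, a1, a2, a3, rfl, a4⟩ := hN2 z hz.1 hz.2.1
      refine ⟨_, (F.free_mem_cone (a4 hz.2.2) 0).2, ?_⟩
      obtain ⟨b1, b2, b3, b4⟩ := r5 _ hz.1
      have h1 := FrkA.touch r4 r3 b1 b2 b3 hz.2.2
      have h2 := (hC.gd.r1 _ hz).2.2.2 (F.pos i) (by simpa using hC.v0.le)
      have h3 : ev ρ.q 2 (F.pos i) ≠ 0 := abs_pos.1 (hC.v0.trans_le h2)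
      have h4 : 0 < ((F.Y i).b : ℝ) * ev ρ.q 0 (F.pos i) := by
        rw [← a3.2.2.1] at b4
        have hn := hP.nu i (by omega)
        rcases KrB.mult_pos ρ u.1 (F.pos i) with e | e <;> rw [e] at b4 <;> nlinarith
      rw [dot_smul_right, ← ev]
      have h5 : ev ρ.q 0 (F.pos i) ≠ 0 := fun e => by simp [e] at h4
      have h6 := lt_of_le_of_ne h1 (mul_ne_zero h5 h3)
      by_contra h7
      nlinarith [mul_pos h4 (neg_pos.2 h6), mul_nonneg (not_lt.1 h7) (mul_self_nonneg (ev ρ.q 0 (F.pos i)))]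
    · refine ⟨_, F.junction_mem_cone S D.K0 hj1 hj2, ?_⟩
      rw [dot_smul_right, ← ev]
      exact lt_of_le_of_ne (hJ j0 hj1 hj2).2.2
        (mul_ne_zero (by exact_mod_cast (hJ j0 hj1 hj2).1) (hj3 ▸ hq))

end Pool.Agent.P.MP_a0f0ad_al.Fi
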