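import Pool.Agent.P.MP_a0f0ad_al.Fi.F.Iface2
import Pool.Agent.P.MP_a0f0ad_al.Fi.F.Basic

/-! Step FZS of the filiform project. -/

namespace Pool.Agent.P.MP_a0f0ad_al.Fi

open Finset MeasureTheory

namespace FzsA

variable {d : ℕ} {S : Finset (G d)} {D : LD d} {ρ : RD d} {u : E d} {pa v : ℝ} {F : Frame d}
  {i i1 i2 : ℕ}

/-- the defect of the height covector at the start of item `j` -/
noncomputable def H (D : LD d) (ρ : RD d) (pa : ℝ) (F : Frame d) (δ : ℤ) (j : ℕ) : ℝ :=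
  dot ρ.q (F.Gam j) + pa - δ * D.lp (δ * ev ρ.q 0 (F.pos j))

/-- the contribution of an atom item -/
noncomputable def At (F : Frame d) (φ : ℝ → ℝ) (i : ℕ) : ℝ :=
  if (F.Y i).a = 0 then F.nu i * ((F.Y i).b : ℝ) * φ (F.pos i) else 0

theorem sq_one {δ : ℤ} (hδ : δ = 1 ∨ δ = -1) : (δ : ℝ) * δ = 1 := by
  rcases hδ with rfl | rfl <;> norm_num

theorem step_sea {δ : ℤ} (hD : D.Spec S) (hδ : δ = 1 ∨ δ = -1) (hi : i < F.m)
    (hν : 0 < F.nu i) (h : F.Sea D S ρ i δ) :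
    H D ρ pa F δ i = H D ρ pa F δ (i + 1) + At F (ev ρ.q 1) i := by
  have ha := h.a_ne hD hδ
  have ha' : ((F.Y i).a : ℝ) ≠ 0 := by exact_mod_cast ha
  obtain ⟨k, -, hb, -, -, hl⟩ := h.data hD hδ hν
  have e0 := hl 0 le_rfl zero_le_one
  have e1 := hl 1 zero_le_one le_rfl
  rw [F.pt_zero] at e0
  rw [F.pt_one] at e1
  obtain ⟨f0, f1⟩ := F.dot_DvI hi ρ.q
  have f2 : dot ρ.q (F.Gam i) - dot ρ.q (F.Gam (i + 1 : ℕ)) =
      D.kap k * (ev ρ.q 0 (F.pos (i + 1)) - ev ρ.q 0 (F.pos i)) := by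
    apply mul_left_cancel₀ ha'
    rw [hb] at f0 f1
    linear_combination f1 - f0
  have s1 := sq_one hδ
  simp only [H, At, if_neg ha, e0, e1]
  linear_combination f2 + D.kap k * (ev ρ.q 0 (F.pos i) - ev ρ.q 0 (F.pos (i + 1))) * s1

theorem step_atom {δ : ℤ} {a : ℝ} (hi : i < F.m) (h : F.Atom D S ρ a i) :
    H D ρ pa F δ i = H D ρ pa F δ (i + 1) + At F (ev ρ.q 1) i := by
  have ha : (F.Y i).a = 0 := h.2.1
  have f := F.dot_Gam_atom hi ha ρ.q
  simp only [H, At, if_pos ha, h.pos_succ]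
  linear_combination f

theorem tele {f g : ℕ → ℝ} {i j : ℕ} (hij : i ≤ j)
    (h : ∀ l, i ≤ l → l < j → f l = f (l + 1) + g l) : f i = f j + ∑ l ∈ Ico i j, g l := by
  induction j, hij using Nat.le_induction with
  | base => simp
  | succ j hj ih =>
    rw [Finset.sum_Ico_succ_top hj, ih fun l h1 h2 => h l h1 (by omega), h j hj (by omega)]
    ring

theorem fin_sea {δ : ℤ} (hD : D.Spec S) (hδ : δ = 1 ∨ δ = -1) (hi : i < F.m)
    (hν : 0 < F.nu i) (h : F.Sea D S ρ i δ) (h0 : H D ρ pa F δ i = 0) :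
    (F.t i : ℝ) = dot ρ.q (F.DvI i) + pa * ((F.Y i).a : ℝ) := by
  have ha : ((F.Y i).a : ℝ) = δ * D.K0 := by exact_mod_cast h.a_eq
  obtain ⟨k, hk, hb, ht, -, hl⟩ := h.data hD hδ hν
  have e0 := hl 0 le_rfl zero_le_one
  rw [F.pt_zero] at e0
  have f0 := (F.dot_DvI hi ρ.q).1
  have s1 := sq_one hδ
  have hA : ((D.A k).a : ℝ) ≠ 0 := (hD.a_pos hk).ne'
  have ht' : (F.t i : ℝ) = D.K0 * ((D.A k).a : ℝ)⁻¹ := by
    rw [← ht]
    field_simp
  simp only [H, e0] at h0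
  rw [f0, hb, ht', ha]
  linear_combination (-(δ : ℝ) * D.K0) * h0 +
    (D.K0 * δ * D.kap k * ev ρ.q 0 (F.pos i) - D.K0 * ((D.A k).a : ℝ)⁻¹) * s1

theorem fin_atom {a : ℝ} (hi : i < F.m) (h : F.Atom D S ρ a i) :
    (F.t i : ℝ) = dot ρ.q (F.DvI i) + pa * ((F.Y i).a : ℝ) := by
  have f0 := (F.dot_DvI hi ρ.q).1
  rw [f0, h.2.2.2.1, h.2.1]
  simp

theorem flip (j : ℕ) :
    H D ρ pa F (-1) j = H D ρ pa F 1 j + D.om (ev ρ.q 0 (F.pos j)) := by
  simp only [H, LD.om]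
  push_cast
  rw [one_mul, neg_one_mul (ev ρ.q 0 (F.pos j)), one_mul]
  ring

variable (c : FCx S D ρ u pa v) (h : F.Ph D S ρ u.1 i1 i2)
include c h

theorem step_dn (hi : i < F.m) (h2 : i < i1 ∨ i2 ≤ i) :
    H D ρ pa F (-1) i = H D ρ pa F (-1) (i + 1) + 0 := by
  rcases h.a_dn c.sp hi h2 with ⟨k, ha, -⟩ | ⟨k, ha, -, hm⟩
  · rw [step_sea c.sp (Or.inr rfl) hi (h.nu i hi) k, At, if_neg (k.a_ne c.sp (Or.inr rfl))]
  · rw [step_atom hi k, At, if_pos ha, c.crit_of_mult k.1 hm, mul_zero]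

theorem step_up (h1 : i1 ≤ i) (h2 : i < i2) :
    H D ρ pa F 1 i = H D ρ pa F 1 (i + 1) + At F (ev ρ.q 1) i := by
  have hi : i < F.m := lt_of_lt_of_le h2 h.h2m
  rcases h.up i h1 h2 with k | k
  · exact step_sea c.sp (Or.inl rfl) hi (h.nu i hi) k
  · exact step_atom hi k

theorem ph3 (h1 : i2 ≤ i) (h2 : i ≤ F.m) : H D ρ pa F (-1) i = ρ.DM D := by
  rw [tele (f := H D ρ pa F (-1)) (g := fun _ => 0) h2 fun l a1 a2 =>
    step_dn c h a2 (Or.inr (h1.trans a1))]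
  have e := c.opt.2.2.2.2.2.2
  simp only [H, F.Gam_last, h.pm, dot_zero_right, Finset.sum_const_zero]
  push_cast
  rw [neg_one_mul (ev ρ.q 0 u.1)]
  linear_combination e

theorem top : H D ρ pa F 1 i2 = -(ρ.muAt ρ.M * ev ρ.q 1 ρ.M) := by
  have e1 := ph3 c h le_rfl h.h2m
  rw [flip, h.p2, RD.DM] at e1
  linear_combination e1

omit h in
theorem mult_M : ρ.mult u.1 ρ.M = 1 := by
  have := c.a_pos
  have := c.le_M
  rw [RD.mult, if_neg]
  rintro (⟨-, k⟩ | ⟨-, k⟩) <;> linarith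

omit h in
theorem mult_m : ρ.mult u.1 ρ.m = 1 := by
  have := c.a_pos
  have := c.m_le
  rw [RD.mult, if_neg]
  rintro (⟨k, -⟩ | ⟨k, -⟩) <;> linarith

omit c h in
theorem sum_at (x y : ℝ) : (∑ z ∈ ρ.Z, if z = x then ρ.mu x * y else 0) = ρ.muAt x * y := by
  rw [Finset.sum_ite_eq' ρ.Z x fun _ => ρ.mu x * y, RD.muAt]
  split_ifs <;> simp

theorem ph2 (hF : S_FATM) (h1 : i1 ≤ i) (h2 : i < i2) (k : F.Sea D S ρ i 1) :
    H D ρ pa F 1 i = 0 := by
  have ha := k.a_ne c.sp (Or.inl rfl)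
  have hp : F.pos i < F.pos (i + 1) := by
    rcases h.a_up c.sp h1 h2 with ⟨-, -, k'⟩ | ⟨-, k', -⟩
    · exact k'
    · exact absurd k' ha
  have hM : F.pos i < ρ.M := hp.trans_le (h.mem2 c.sp (by omega) (by omega)).2
  have hm : ρ.m ≤ F.pos i := (h.mem2 c.sp h1 h2.le).1
  have e := (hF d S D ρ u pa v F i1 i2 c h fun x => if F.pos i < x then ev ρ.q 1 x else 0).1
  have e1 : (∑ l ∈ Ico i1 i2, At F (fun x => if F.pos i < x then ev ρ.q 1 x else 0) l) =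
      ∑ l ∈ Ico i i2, At F (ev ρ.q 1) l := by
    rw [← Finset.sum_Ico_consecutive _ h1 h2.le, Finset.sum_eq_zero, zero_add]
    · refine Finset.sum_congr rfl fun l hl => ?_
      rw [mem_Ico] at hl
      rcases eq_or_lt_of_le hl.1 with rfl | hl1
      · simp only [At, if_neg ha]
      · have : F.pos i < F.pos l := hp.trans_le (h.mono2 c.sp (by omega) hl1 hl.2.le)
        simp only [At, if_pos this]
    · intro l hl
      rw [mem_Ico] at hl
      have : ¬ F.pos i < F.pos l := not_lt.2 (h.mono2 c.sp hl.1 hl.2.le h2.le)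
      simp only [At, if_neg this, mul_zero, ite_self]
  have e2 : (∑ z ∈ ρ.Z, ρ.mu z / ρ.mult u.1 z * if F.pos i < z then ev ρ.q 1 z else 0) =
      ρ.muAt ρ.M * ev ρ.q 1 ρ.M := by
    rw [← sum_at]
    refine Finset.sum_congr rfl fun z hz => ?_
    by_cases hz1 : z = ρ.M
    · rw [if_pos hz1, hz1, if_pos hM, mult_M c, div_one]
    · rw [if_neg hz1]
      split_ifs with hz2
      · rw [c.crit hz (hm.trans_lt hz2) (lt_of_le_of_ne (c.atom hz).2.1 hz1), mul_zero]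
      · exact mul_zero _
  rw [tele (f := H D ρ pa F 1) h2.le fun l a1 a2 => step_up c h (h1.trans a1) a2, top c h, ← e1]
  simp only [At]
  rw [e, e2]
  ring

theorem bot (hF : S_FATM) : H D ρ pa F (-1) i1 = ρ.Dm D := by
  have e := (hF d S D ρ u pa v F i1 i2 c h (ev ρ.q 1)).1
  have e2 : (∑ z ∈ ρ.Z, ρ.mu z / ρ.mult u.1 z * ev ρ.q 1 z) =
      ρ.muAt ρ.M * ev ρ.q 1 ρ.M + ρ.muAt ρ.m * ev ρ.q 1 ρ.m := by
    rw [← sum_at, ← sum_at, ← Finset.sum_add_distrib]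
    refine Finset.sum_congr rfl fun z hz => ?_
    have hne : ρ.m ≠ ρ.M := c.m_lt.ne
    by_cases hz1 : z = ρ.M
    · rw [if_pos hz1, hz1, if_neg hne.symm, mult_M c, div_one, add_zero]
    · rw [if_neg hz1, zero_add]
      by_cases hz2 : z = ρ.m
      · rw [if_pos hz2, hz2, mult_m c, div_one]
      · rw [if_neg hz2, c.crit hz (lt_of_le_of_ne (c.atom hz).1 (Ne.symm hz2))
          (lt_of_le_of_ne (c.atom hz).2.1 hz1), mul_zero]
  rw [flip, tele (f := H D ρ pa F 1) h.h12 fun l a1 a2 => step_up c h a1 a2, top c h, h.p1,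
    RD.Dm]
  simp only [At]
  rw [e, e2]
  ring

theorem ph1 (hF : S_FATM) (h1 : i ≤ i1) : H D ρ pa F (-1) i = ρ.Dm D := by
  have := h.h12
  have := h.h2m
  rw [tele (f := H D ρ pa F (-1)) (g := fun _ => 0) h1 fun l _ a2 =>
    step_dn c h (by omega) (Or.inl a2), bot c h hF]
  simp

end FzsA

theorem p_FZS (hFATM : S_FATM) :
    S_FZS := by
  intro d S D ρ u pa v F i1 i2 c h i hi
  by_cases h2 : i < i1 ∨ i2 ≤ i
  · rcases h.dn i hi h2 with k | ⟨k, -⟩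
    · refine FzsA.fin_sea c.sp (Or.inr rfl) hi (h.nu i hi) k ?_
      rcases h2 with h2 | h2
      · rw [FzsA.ph1 c h hFATM h2.le]
        exact c.opt.2.2.2.2.2.1 (h.m_neg c (by omega))
      · rw [FzsA.ph3 c h h2 hi.le]
        exact c.opt.2.2.2.1 (h.lt_M c (by omega))
    · exact FzsA.fin_atom hi k
  · have h3 : i1 ≤ i := by omega
    have h4 : i < i2 := by omega
    rcases h.up i h3 h4 with k | k
    · exact FzsA.fin_sea c.sp (Or.inl rfl) hi (h.nu i hi) k (FzsA.ph2 c h hFATM h3 h4 k)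
    · exact FzsA.fin_atom hi k

end Pool.Agent.P.MP_a0f0ad_al.Fi
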