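import Pool.Agent.P.MP_a0f0ad_al.Fi.F.Iface
import Pool.Agent.P.MP_a0f0ad_al.Fi.V.Iface
import Pool.Agent.P.MP_a0f0ad_al.Fi.F.Iface2
import Pool.Agent.P.MP_a0f0ad_al.Fi.F.Basic

/-! Step KR of the filiform project. -/

namespace Pool.Agent.P.MP_a0f0ad_al.Fi

open Finset MeasureTheory

theorem p_KR (hHOM : S_HOM) (hPUB : S_PUB) (hFRK : S_FRK) (hFKD : S_FKD) :
    S_KR := by
  intro d S YY D C v u p ρ F d2 sp v0 hN hq nc opt gd _ hNR hFR hFP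
  have c := ctx_of hHOM hPUB d2 sp v0 hN nc opt gd
  obtain ⟨i1, i2, hP⟩ := Frame.FR_iff.1 hFR
  have hZ : F.ZS ρ.q p.1 := fun i hi => hq ▸ (hFP.2.2.2.2.2.2 i hi).2.2.2
  obtain ⟨h1, h2⟩ := hFRK d S D ρ u p.1 v F i1 i2 c hP
  rw [← hq]
  exact ⟨h1 hZ, hFKD d S D ρ u p.1 v F i1 i2 c hP hZ (h1 hZ) hNR, h2⟩

end Pool.Agent.P.MP_a0f0ad_al.Fi
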