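import Pool.Agent.P.MP_a0f0ad_al.Fi.F.Iface2
import Pool.Agent.P.MP_a0f0ad_al.Fi.Z.Bf
import Pool.Agent.P.MP_a0f0ad_al.Fi.Z.Bq

/-! Tools for the steps FRK and FKD. -/

namespace Pool.Agent.P.MP_a0f0ad_al.Fi

open Finset MeasureTheory

namespace KrB

variable {d : ℕ} (F : Frame d) (g : Fin d → ℝ)

theorem form0 {i : ℕ} (hi : i < F.m) : dot g (F.DvI i) =
    ((F.Y i).b : ℝ) * ev g 0 (F.pos i) + ((F.Y i).a : ℝ) * dot g (F.Gam i) := by
  rw [Frame.DvI, Frame.Dv, F.posT_nat hi.le, dot_add_right, dot_smul_right, dot_smul_right, ev]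

theorem form1 {j : ℕ} (h1 : 1 ≤ j) (hj : j < F.m) : dot g (F.DvI (j - 1)) =
    ((F.Y (j - 1)).b : ℝ) * ev g 0 (F.pos j) + ((F.Y (j - 1)).a : ℝ) * dot g (F.Gam j) := by
  obtain ⟨i, rfl⟩ := Nat.exists_eq_add_of_le' h1
  rw [Nat.add_sub_cancel, ← F.Gam_sea (show i < F.m by omega) zero_le_one le_rfl, F.pt_one,
    dot_add_right, dot_smul_right, dot_smul_right, ev, add_comm]
  push_cast
  rfl

theorem jump {i : ℕ} (hi : i < F.m) (ha : (F.Y i).a = 0) :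
    dot g (F.Gam i) - dot g (F.Gam (i + 1 : ℕ)) =
      F.nu i * ((F.Y i).b : ℝ) * ev g 1 (F.pos i) := by
  have := F.Gam_atom hi ha le_rfl zero_le_one
  rw [add_zero] at this
  rw [this, dot_add_right, dot_smul_right, ev]
  ring

/-- the constant polynomial one -/
theorem exists_one (hd : 1 ≤ d) : ∃ o : Fin d → ℝ, ¬ Nonconst o ∧ (∀ y, dot o y = co y 0) ∧
    (∀ x, ev o 0 x = 1) ∧ ∀ x, ev o 1 x = 0 := by
  have h : ∀ y : Fin d → ℝ, dot (Pi.single ⟨0, hd⟩ 1) y = co y 0 := fun y => by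
    rw [dot_single_left, co, dif_pos (show 0 < d from hd)]
  refine ⟨Pi.single ⟨0, hd⟩ 1, ?_, h, fun x => ?_, fun x => ?_⟩
  · rintro ⟨j, h1, h2⟩
    exact h2 (Pi.single_eq_of_ne (fun e => by rw [e] at h1; simp at h1) _)
  · rw [ev, h, co_Vd_zero hd]
  · rw [ev, h, co_Vd_succ 0]

theorem eq_zero_of_ev {f : Fin d → ℝ} (h : ∀ x, ev f 0 x = 0) : f = 0 :=
  pol_eq_zero.1 (Polynomial.funext fun x => by simpa [ev_eq_eval] using h x)

/-- solving the two equations of a junction -/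
theorem solve {j : ℕ} (h1 : 1 ≤ j) (hj : j < F.m) (x : ℝ) :
    (F.om j : ℝ) * ev g 0 (F.pos j) =
      ((F.Y j).a : ℝ) * (dot g (F.DvI (j - 1)) - x * (F.Y (j - 1)).a) -
        ((F.Y (j - 1)).a : ℝ) * (dot g (F.DvI j) - x * (F.Y j).a) ∧
    (F.om j : ℝ) * (dot g (F.Gam j) - x) =
      ((F.Y (j - 1)).b : ℝ) * (dot g (F.DvI j) - x * (F.Y j).a) -
        ((F.Y j).b : ℝ) * (dot g (F.DvI (j - 1)) - x * (F.Y (j - 1)).a) := by
  rw [form0 F g hj, form1 F g h1 hj, Frame.om]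
  push_cast
  constructor <;> ring

theorem mult_pos (ρ : RD d) (a z : ℝ) : ρ.mult a z = 1 ∨ ρ.mult a z = 2 := by
  unfold RD.mult
  split_ifs <;> simp

end KrB

end Pool.Agent.P.MP_a0f0ad_al.Fi
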