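import Pool.Agent.P.MP_a0f0ad_al.Fi.F.Iface

/-! Step KRON of the filiform project. -/

namespace Pool.Agent.P.MP_a0f0ad_al.Fi

open Finset MeasureTheory

namespace KronA

/-- a discrete subgroup is separated from any nonzero vector by an integral functional -/
theorem sep {E : Type*} [NormedAddCommGroup E] [NormedSpace ℝ E] [FiniteDimensional ℝ E]
    (L : Submodule ℤ E) [DiscreteTopology L] (w : E) (hw : w ≠ 0) :
    ∃ g : E →ₗ[ℝ] ℝ, (∀ x ∈ L, ∃ z : ℤ, g x = z) ∧ g w ≠ 0 := by
  classical
  by_cases hU : w ∈ Submodule.span ℝ (L : Set E)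
  · let f := (Submodule.span ℝ (L : Set E)).subtype
    let L₀ := L.comap (f.restrictScalars ℤ)
    have h_img : f '' L₀ = L := by
      rw [← LinearMap.coe_restrictScalars ℤ f, ← Submodule.map_coe (f.restrictScalars ℤ),
        Submodule.map_comap_eq_self]
      exact fun x hx ↦ LinearMap.mem_range.mpr ⟨⟨x, Submodule.subset_span hx⟩, rfl⟩
    have : DiscreteTopology L₀ := by
      refine DiscreteTopology.preimage_of_continuous_injective (L : Set E) ?_
        (Submodule.injective_subtype _)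
      exact LinearMap.continuous_of_finiteDimensional f
    have : IsZLattice ℝ L₀ := ⟨by
      rw [← (Submodule.map_injective_of_injective (Submodule.injective_subtype _)).eq_iff,
        Submodule.map_span, Submodule.map_top, Submodule.range_subtype, h_img]⟩
    let b := Module.Free.chooseBasis ℤ L₀
    let B := b.ofZLatticeBasis ℝ L₀
    have hne : (⟨w, hU⟩ : Submodule.span ℝ (L : Set E)) ≠ 0 := fun h => hw (congrArg Subtype.val h)
    obtain ⟨i, hi⟩ : ∃ i, B.repr ⟨w, hU⟩ i ≠ 0 := by
      by_contra hc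
      push Not at hc
      exact hne (B.repr.injective (by rw [map_zero]; exact Finsupp.ext hc))
    obtain ⟨g, hg⟩ := LinearMap.exists_extend (B.coord i)
    have hg' : ∀ x : Submodule.span ℝ (L : Set E), g x = B.repr x i := fun x =>
      LinearMap.congr_fun hg x
    refine ⟨g, fun x hx => ?_, ?_⟩
    · have hx' : x ∈ Submodule.span ℝ (L : Set E) := Submodule.subset_span hx
      have h0 : (⟨x, hx'⟩ : Submodule.span ℝ (L : Set E)) ∈ L₀ := hx
      refine ⟨b.repr ⟨_, h0⟩ i, ?_⟩
      have h1 := hg' ⟨x, hx'⟩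
      have h2 := b.ofZLatticeBasis_repr_apply ℝ L₀ ⟨_, h0⟩ i
      exact h1.trans h2
    · have h1 := hg' ⟨w, hU⟩
      exact fun h => hi (h1.symm.trans h)
  · obtain ⟨g, hg, hgw⟩ := LinearMap.exists_extend_of_notMem
      (0 : Submodule.span ℝ (L : Set E) →ₗ[ℝ] ℝ) hU 1
    refine ⟨g, fun x hx => ⟨0, ?_⟩, by rw [hgw]; exact one_ne_zero⟩
    have := LinearMap.congr_fun hg ⟨x, Submodule.subset_span hx⟩
    simpa using this

/-- a closed subgroup meets a subspace without lines of the subgroup in a discrete set -/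
theorem gap {E : Type*} [NormedAddCommGroup E] [NormedSpace ℝ E] [FiniteDimensional ℝ E]
    (H : AddSubgroup E) (hH : IsClosed (H : Set E)) (V : Submodule ℝ E)
    (hV : ∀ e ∈ V, (∀ t : ℝ, t • e ∈ H) → e = 0) :
    ∃ ε : ℝ, 0 < ε ∧ ∀ x ∈ H, x ∈ V → ‖x‖ < ε → x = 0 := by
  by_contra hc
  push Not at hc
  choose h hh hv hn h0 using fun k : ℕ => hc (1 / ((k : ℝ) + 1)) (by positivity)
  have hpos : ∀ k, 0 < ‖h k‖ := fun k => norm_pos_iff.mpr (h0 k)
  have hK : IsCompact (Metric.sphere (0 : E) 1 ∩ (V : Set E)) :=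
    (isCompact_sphere 0 1).inter_right V.closed_of_finiteDimensional
  obtain ⟨e, ⟨he1, he2⟩, φ, hφ, hlim⟩ := hK.tendsto_subseq (x := fun k => ‖h k‖⁻¹ • h k)
    (fun k => ⟨by
      rw [mem_sphere_zero_iff_norm, norm_smul, norm_inv, norm_norm,
        inv_mul_cancel₀ (hpos k).ne'], V.smul_mem _ (hv k)⟩)
  have hn0 : Filter.Tendsto (fun k => ‖h (φ k)‖) Filter.atTop (nhds 0) := by
    have h1 : Filter.Tendsto (fun k : ℕ => ‖h k‖) Filter.atTop (nhds 0) :=
      squeeze_zero (fun k => norm_nonneg _) (fun k => (hn k).le)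
        tendsto_one_div_add_atTop_nhds_zero_nat
    exact h1.comp hφ.tendsto_atTop
  have : e = 0 := by
    refine hV e he2 fun t => ?_
    have hc : Filter.Tendsto (fun k => (⌊t / ‖h (φ k)‖⌋ : ℝ) * ‖h (φ k)‖) Filter.atTop (nhds t) := by
      have hl : Filter.Tendsto (fun k => t - ‖h (φ k)‖) Filter.atTop (nhds t) := by
        simpa using hn0.const_sub t
      refine tendsto_of_tendsto_of_tendsto_of_le_of_le hl tendsto_const_nhds (fun k => ?_)
        (fun k => ?_)
      · have h1 := Int.lt_floor_add_one (t / ‖h (φ k)‖)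
        rw [div_lt_iff₀ (hpos _)] at h1
        simp only
        linarith
      · have h1 := Int.floor_le (t / ‖h (φ k)‖)
        rw [le_div_iff₀ (hpos _)] at h1
        exact h1
    have hs := hc.smul hlim
    refine hH.mem_of_tendsto hs (Filter.Eventually.of_forall fun k => ?_)
    have : ((⌊t / ‖h (φ k)‖⌋ : ℝ) * ‖h (φ k)‖) • ((fun k => ‖h k‖⁻¹ • h k) ∘ φ) k
        = ⌊t / ‖h (φ k)‖⌋ • h (φ k) := by
      simp only [Function.comp, smul_smul]
      rw [mul_assoc, mul_inv_cancel₀ (hpos _).ne', mul_one, Int.cast_smul_eq_zsmul]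
    rw [this]
    exact H.zsmul_mem (hh _) _
  rw [this] at he1
  simp at he1

theorem main {E : Type*} [NormedAddCommGroup E] [NormedSpace ℝ E] [FiniteDimensional ℝ E]
    (H : AddSubgroup E) (hH : IsClosed (H : Set E)) (e : E)
    (he : ∀ f : E →ₗ[ℝ] ℝ, (∀ h ∈ H, ∃ z : ℤ, f h = z) → f e = 0) : e ∈ H := by
  let W : Submodule ℝ E :=
    { carrier := {x | ∀ t : ℝ, t • x ∈ H}
      add_mem' := fun {a b} ha hb t => by rw [smul_add]; exact H.add_mem (ha t) (hb t)
      zero_mem' := fun t => by rw [smul_zero]; exact H.zero_mem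
      smul_mem' := fun c x hx t => by rw [smul_smul]; exact hx _ }
  have hWH : ∀ x ∈ W, x ∈ H := fun x hx => by simpa using hx 1
  obtain ⟨V, hWV⟩ := Submodule.exists_isCompl W
  obtain ⟨ε, hε, hgap⟩ := gap H hH V fun x hx hx' =>
    (Submodule.disjoint_def.mp hWV.disjoint) x hx' hx
  let L : Submodule ℤ E := AddSubgroup.toIntSubmodule (H ⊓ V.toAddSubgroup)
  have hL : ∀ x, x ∈ L ↔ x ∈ H ∧ x ∈ V := fun x => Iff.rfl
  have : DiscreteTopology L := by
    rw [discreteTopology_iff_isOpen_singleton_zero]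
    have : ({0} : Set L) = Subtype.val ⁻¹' Metric.ball (0 : E) ε := by
      ext x
      simp only [Set.mem_singleton_iff, Set.mem_preimage, mem_ball_zero_iff]
      constructor
      · rintro rfl; simpa using hε
      · intro hx
        exact Subtype.ext (hgap x ((hL x).mp x.2).1 ((hL x).mp x.2).2 hx)
    rw [this]
    exact Metric.isOpen_ball.preimage continuous_subtype_val
  let π : E →ₗ[ℝ] E := V.projection W hWV.symm
  have hπ : ∀ x, x - π x ∈ W := fun x => Submodule.sub_projection_mem hWV.symm x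
  have hπV : ∀ x, π x ∈ V := fun x => Submodule.projection_apply_mem hWV.symm x
  by_cases h0 : π e = 0
  · have := hπ e
    rw [h0, sub_zero] at this
    exact hWH e this
  · obtain ⟨g, hg, hge⟩ := sep L (π e) h0
    refine absurd (he (g ∘ₗ π) fun x hx => hg (π x) ((hL _).mpr ⟨?_, hπV x⟩)) hge
    have := H.sub_mem hx (hWH _ (hπ x))
    simpa using this

end KronA

theorem p_KRON :
    S_KRON := by
  intro n H P hP e he
  refine KronA.main H.topologicalClosure H.isClosed_topologicalClosure e fun f hf => ?_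
  exact hP f (fun h hh => hf h (H.le_topologicalClosure hh)) e he

end Pool.Agent.P.MP_a0f0ad_al.Fi
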