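import Pool.Agent.P.MP_a0f0ad_al.Fi.F.Iface
import Pool.Agent.P.MP_a0f0ad_al.Fi.V.Iface
import Pool.Agent.P.MP_a0f0ad_al.Fi.F.Iface2
import Pool.Agent.P.MP_a0f0ad_al.Fi.F.Basic

/-! Step TF of the filiform project. -/

namespace Pool.Agent.P.MP_a0f0ad_al.Fi

open Finset MeasureTheory

theorem p_TF (hHOM : S_HOM) (hPUB : S_PUB) (hFEX : S_FEX) (hFNODE : S_FNODE) (hFJUN : S_FJUN) (hFINT : S_FINT) (hFZS : S_FZS) (hFBD : S_FBD) :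
    S_TF := by
  intro d S D d2 sp
  obtain ⟨YY, C, hC, h1, h2⟩ := hFBD d S
    (max ((3 * (2 * (D.n + 2) * d + 3) : ℕ) : ℝ) ((2 * D.K0 : ℕ) : ℝ)) D.Lam sp.sym
  refine ⟨YY, C, fun v u p ρ v0 hN hq nc opt gd => ?_⟩
  have c := ctx_of hHOM hPUB d2 sp v0 hN nc opt gd
  obtain ⟨F, i1, i2, h, hm, ht⟩ := hFEX d S D ρ u p.1 v c
  have ok := h.ok c
  obtain ⟨e1, e2⟩ := hFINT d S D ρ u p.1 v F i1 i2 c h
  have ht' : ∀ i < F.m, (F.t i : ℝ) ≤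
      max ((3 * (2 * (D.n + 2) * d + 3) : ℕ) : ℝ) ((2 * D.K0 : ℕ) : ℝ) := fun i hi =>
    le_max_of_le_right (by exact_mod_cast ht i hi)
  refine ⟨F, Frame.FR_iff.2 ⟨i1, i2, h⟩, ok, ?_, e1, h.pm, e2,
    le_trans (le_max_of_le_left (by exact_mod_cast hm)) hC, fun i hi => ⟨?_, (ht' i hi).trans hC,
      h2 F D.K0 ok ht' (fun i hi => by linarith [h.abs_pos c hi]) (e2 ▸ hN) i hi, ?_⟩⟩
  · by_contra hJ
    have hn := (hFNODE d S D ρ u p.1 v F i1 i2 c h).1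
    have no : ∀ x, ¬ (x ∈ ρ.lev D u.1 ∨ x ∈ ρ.Z) := fun x hx => by
      obtain ⟨j, a1, a2, -⟩ := hn x hx
      exact hJ ⟨j, a1, a2, (hFJUN d S D ρ u p.1 v F i1 i2 c h j a1 a2).1⟩
    have := c.den (f := Pi.single (⟨0, by omega⟩ : Fin d) 1) (fun x hx => (no x (Or.inl hx)).elim)
      fun z hz => (no z (Or.inr hz)).elim
    simpa using congrFun this ⟨0, by omega⟩
  · exact (h1 _ (le_trans (by exact_mod_cast (ok i hi).2.1) (ht' i hi))).1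
  · rw [← hq]
    exact hFZS d S D ρ u p.1 v F i1 i2 c h i hi

end Pool.Agent.P.MP_a0f0ad_al.Fi
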